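import Pool.Agent.TSE.Stmts

/-!
# TSE, module BAK: cutting off an ear, closed type
-/

set_option autoImplicit false

namespace Pool.Agent.TSE

open Pool.Agent.TSM

namespace BAK_

variable {V : Type} [DecidableEq V]

theorem period (L : Pg V) (h : L.Ok) (i : V) (hi : i ∈ L.S) (n : ℕ) (hn : 0 < n)
    (hp : L.s^[n] i = i) : L.S.card ≤ n := by
  have h1 : L.S ⊆ (Finset.range n).image fun m => L.s^[m] i := by
    intro j hj
    obtain ⟨m, hm⟩ := h.trans i hi j hj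
    rw [Finset.mem_image]
    refine ⟨m % n, Finset.mem_range.2 (Nat.mod_lt _ hn), ?_⟩
    have hpp : Function.IsPeriodicPt L.s n i := hp
    rw [hpp.iterate_mod_apply, hm]
  calc L.S.card ≤ ((Finset.range n).image fun m => L.s^[m] i).card := Finset.card_le_card h1
    _ ≤ (Finset.range n).card := Finset.card_image_le
    _ = n := Finset.card_range n

theorem ne1 (L : Pg V) (h : L.Ok) (i : V) (hi : i ∈ L.S) : L.s i ≠ i := by
  intro h1
  have := period L h i hi 1 (by norm_num) h1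
  have := h.card
  omega

theorem ne2 (L : Pg V) (h : L.Ok) (i : V) (hi : i ∈ L.S) : L.s (L.s i) ≠ i := by
  intro h1
  have := period L h i hi 2 (by norm_num) h1
  have := h.card
  omega

theorem ne3 (L : Pg V) (h : L.Ok) (i : V) (hi : i ∈ L.S) : L.s (L.s (L.s i)) ≠ i := by
  intro h1
  have := period L h i hi 3 (by norm_num) h1
  have := h.card
  omega

theorem not_flat (L : Pg V) (hX : L.X = none) (i j k : V) : ¬ L.Flat i j k := by
  rintro ⟨m, q, h, -⟩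
  rw [hX] at h
  exact absurd h (by simp)

/-- The new face against an old face. -/
theorem new_old (h1 : Stmt_FAC) (L : Pg V) (u : V) (h : L.Ok) (hX : L.X = none)
    (hu : u ∈ L.S)
    (hC : ∀ j ∈ L.S, ¬ Cr (L.p u) (L.p (L.s (L.s u))) (L.p j) (L.p (L.s j)))
    (j : V) (hj : j ∈ L.S) (hju : j ≠ u) (hjk : j ≠ L.s u) (x : E3)
    (α β γ δ : ℝ) (hα : 0 ≤ α) (hβ : 0 ≤ β) (hγ : 0 ≤ γ) (hδ : 0 ≤ δ)
    (hx1 : x = α • L.p u + β • L.p (L.s (L.s u))) (hx2 : x = γ • L.p j + δ • L.p (L.s j)) :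
    (j = L.s (L.s u) ∧ ∃ a : ℝ, 0 ≤ a ∧ x = a • L.p j) ∨
    (u = L.s j ∧ ∃ a : ℝ, 0 ≤ a ∧ x = a • L.p u) ∨ x = 0 := by
  have hk : L.s u ∈ L.S := h.maps u hu
  have hw : L.s (L.s u) ∈ L.S := h.maps _ hk
  have hsj : L.s j ∈ L.S := h.maps j hj
  have g : ∀ a ∈ L.S, ∀ b ∈ L.S, ∀ c ∈ L.S, a ≠ b → a ≠ c → b ≠ c →
      det3 (L.p a) (L.p b) (L.p c) ≠ 0 := fun a ha b hb c hc h1 h2 h3 =>
    h.gen a ha b hb c hc h1 h2 h3 (not_flat L hX a b c)
  have huw : u ≠ L.s (L.s u) := (ne2 L h u hu).symm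
  by_cases e1 : j = L.s (L.s u)
  · left
    refine ⟨e1, β, hβ, ?_⟩
    rw [e1] at hx2 ⊢
    have e2 : L.s (L.s (L.s u)) ≠ u := ne3 L h u hu
    have e3 : L.s (L.s (L.s u)) ≠ L.s (L.s u) := ne1 L h _ hw
    have := (h1.2 (L.p u) (L.p (L.s (L.s u))) (L.p (L.s (L.s (L.s u)))) α β γ δ
      (g u hu _ hw _ (h.maps _ hw) huw e2.symm e3.symm) (hx1.symm.trans hx2)).1
    rw [hx1, this]
  · by_cases e2 : u = L.s j
    · right; left
      refine ⟨e2, α, hα, ?_⟩
      rw [← e2] at hx2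
      have e3 : L.s (L.s u) ≠ j := fun e => e1 e.symm
      have := (h1.2 (L.p j) (L.p u) (L.p (L.s (L.s u))) γ δ α β
        (g j hj u hu _ hw hju e3.symm huw) (hx2.symm.trans hx1)).2
      rw [hx1, this]
    · right; right
      have e3 : L.s j ≠ j := ne1 L h j hj
      have e4 : L.s (L.s u) ≠ L.s j := fun e => hjk (h.inj _ hk _ hj e).symm
      have e5 : j ≠ L.s (L.s u) := e1
      have := h1.1 (L.p u) (L.p (L.s (L.s u))) (L.p j) (L.p (L.s j)) α β γ δ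
        (g u hu _ hw j hj huw (Ne.symm hju) e5.symm)
        (g u hu _ hw _ hsj huw e2 e4)
        (g j hj _ hsj u hu e3.symm hju (Ne.symm e2))
        (g j hj _ hsj _ hw e3.symm e5 e4.symm)
        (hC j hj) hα hβ hγ hδ (hx1.symm.trans hx2)
      rw [hx1, this]

end BAK_

open BAK_ in
/-- BAK. -/
theorem bak_proof (h1 : Stmt_FAC) (h2 : Stmt_ERC) : Stmt_BAK := by
  intro V _ L u h hX h5 hu hC hB
  have hk : L.s u ∈ L.S := h.maps u hu
  obtain ⟨r1, r2, r3, r4⟩ := h2 V L (L.s u) h h5 hk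
  have hS : ∀ i, i ∈ (L.erase (L.s u)).S ↔ i ≠ L.s u ∧ i ∈ L.S := fun i => Finset.mem_erase
  have hsu : (L.erase (L.s u)).s u = L.s (L.s u) := if_pos rfl
  have hsi : ∀ i ∈ L.S, i ≠ u → (L.erase (L.s u)).s i = L.s i := by
    intro i hi hiu
    exact if_neg fun e => hiu (h.inj i hi u hu e)
  have hp : (L.erase (L.s u)).p = L.p := rfl
  refine ⟨r1, r2, r3, r4, ?_, ?_, ?_⟩
  · intro i hi j hj k hk' hij hik hjk _
    exact h.gen i ((hS i).1 hi).2 j ((hS j).1 hj).2 k ((hS k).1 hk').2 hij hik hjk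
      (not_flat L hX i j k)
  · intro i hi j hj hij x hxi hxj
    obtain ⟨hiκ, hi'⟩ := (hS i).1 hi
    obtain ⟨hjκ, hj'⟩ := (hS j).1 hj
    obtain ⟨α, β, hα, hβ, hx1⟩ := hxi
    obtain ⟨γ, δ, hγ, hδ, hx2⟩ := hxj
    rw [hp] at hx1 hx2
    rw [hp]
    by_cases hiu : i = u
    · have hju : j ≠ u := fun e => hij (hiu.trans e.symm)
      rw [hsi j hj' hju] at hx2
      rw [hiu, hsu] at hx1
      have := new_old h1 L u h hX hu hC j hj' hju hjκ x α β γ δ hα hβ hγ hδ hx1 hx2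
      rw [hiu, hsu, hsi j hj' hju]
      exact this
    · rw [hsi i hi' hiu] at hx1 ⊢
      by_cases hju : j = u
      · rw [hju, hsu] at hx2
        have := new_old h1 L u h hX hu hC i hi' hiu hiκ x γ δ α β hγ hδ hα hβ hx2 hx1
        rw [hju, hsu]
        rcases this with t | t | t
        · exact Or.inr (Or.inl t)
        · exact Or.inl t
        · exact Or.inr (Or.inr t)
      · rw [hsi j hj' hju] at hx2 ⊢
        exact h.simple i hi' j hj' hij x ⟨α, β, hα, hβ, hx1⟩ ⟨γ, δ, hγ, hδ, hx2⟩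
  · left
    refine ⟨hX, fun ν hν => ?_⟩
    obtain ⟨i, hi, hik, hpos⟩ := hB ν hν
    exact ⟨i, (hS i).2 ⟨hik, hi⟩, hpos⟩

end Pool.Agent.TSE
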