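import Pool.Agent.TSE.Stmts

/-!
# TSE, module BXK: genericity and corner after cutting off an ear, corner type
-/

set_option autoImplicit false

open scoped RealInnerProductSpace

namespace Pool.Agent.TSE

open Pool.Agent.TSM

theorem bxk_proof : Stmt_BXK := by
  intro V _ L m0 q0 κ a b σ hL hX hC _ hκq hκm hκs
  have e1 : (L.erase κ).s q0 = m0 := by
    change (if L.s q0 = κ then L.s κ else L.s q0) = m0
    rw [hC.hs, if_neg (fun h => hκm h.symm)]
  have e2 : (L.erase κ).s m0 = L.s m0 := by
    change (if L.s m0 = κ then L.s κ else L.s m0) = L.s m0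
    rw [if_neg (fun h => hκs h.symm)]
  have hm : m0 ∈ (L.erase κ).S := Finset.mem_erase.2 ⟨fun h => hκm h.symm, hC.hm⟩
  have hq : q0 ∈ (L.erase κ).S := Finset.mem_erase.2 ⟨fun h => hκq h.symm, hC.hq⟩
  constructor
  · intro i hi j hj k hk hij hik hjk hF
    refine hL.gen i (Finset.mem_of_mem_erase hi) j (Finset.mem_of_mem_erase hj) k
      (Finset.mem_of_mem_erase hk) hij hik hjk ?_
    rintro ⟨m, q, hXm, hqS, hsq, hset⟩
    rw [hX] at hXm
    have hmm : m0 = m := Option.some.inj hXm
    subst hmm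
    have hqq : q = q0 := hL.inj q hqS q0 hC.hq (by rw [hsq, hC.hs])
    subst hqq
    exact hF ⟨m0, q, hX, hq, e1, by rw [e2]; exact hset⟩
  · refine ⟨hm, q0, hq, e1, ⟨a, b, hC.ha, hC.hb, ?_⟩, σ, hC.hσ, ?_⟩
    · rw [e2]
      exact hC.flat
    · intro i hi hiq him his
      rw [e2] at his
      have e3 : (L.erase κ).nor m0 = L.nor m0 := by
        unfold Pg.nor
        rw [e2]
        rfl
      rw [e3]
      exact hC.neg i (Finset.mem_of_mem_erase hi) hiq him his

end Pool.Agent.TSE
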