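import Pool.Agent.TSE.Stmts

/-!
# TSE.BXS: simplicity after cutting off an ear, corner type
-/

set_option autoImplicit false

namespace Pool.Agent.TSE

open Pool.Agent.TSM

namespace BXS_

variable {V : Type} [DecidableEq V] {L : Pg V}

theorem no_period (h : L.Ok) (h5 : 5 ≤ L.S.card) {x : V} (hx : x ∈ L.S) {n : ℕ} (h1 : 1 ≤ n)
    (h4 : n ≤ 4) : L.s^[n] x ≠ x := by
  intro hp
  have hper : Function.IsPeriodicPt L.s n x := hp
  have hsub : L.S ⊆ (Finset.range n).image (fun k => L.s^[k] x) := by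
    intro j hj
    obtain ⟨m, hm⟩ := h.trans x hx j hj
    rw [Finset.mem_image]
    refine ⟨m % n, Finset.mem_range.mpr (Nat.mod_lt _ (by omega)), ?_⟩
    rw [← hm]
    exact hper.iterate_mod_apply m
  have h2 := Finset.card_le_card hsub
  have h3 : ((Finset.range n).image (fun k => L.s^[k] x)).card ≤ n := by
    refine Finset.card_image_le.trans ?_
    rw [Finset.card_range]
  omega

theorem not_flat {m0 i j k : V} (hX : L.X = some m0) (hi : i ≠ m0) (hj : j ≠ m0) (hk : k ≠ m0) :
    ¬ L.Flat i j k := by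
  rintro ⟨m, q, hm, -, -, hs⟩
  rw [hX] at hm
  have hm' : m0 = m := Option.some.inj hm
  have : m ∈ ({i, j, k} : Finset V) := by
    rw [hs]
    simp
  rw [← hm'] at this
  simp only [Finset.mem_insert, Finset.mem_singleton] at this
  rcases this with h | h | h
  · exact hi h.symm
  · exact hj h.symm
  · exact hk h.symm

theorem inner_crs_left (a b : E3) : (inner ℝ (crs a b) a : ℝ) = 0 := by
  simp only [PiLp.inner_apply, Fin.sum_univ_three, crs]
  simp
  ring

theorem inner_crs_right (a b : E3) : (inner ℝ (crs a b) b : ℝ) = 0 := by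
  simp only [PiLp.inner_apply, Fin.sum_univ_three, crs]
  simp
  ring

/-- the new face against an old face -/
theorem main (hFAC : Stmt_FAC) {m0 q0 u : V} {a b σ : ℝ} (h : L.Ok) (hX : L.X = some m0)
    (hC : Cor L m0 q0 a b σ) (h5 : 5 ≤ L.S.card) (hu : u ∈ L.S) (hkq : L.s u ≠ q0)
    (hkm : L.s u ≠ m0) (hks : L.s u ≠ L.s m0)
    (hNC : ∀ j ∈ L.S, j ≠ q0 → j ≠ m0 →
      ¬ Cr (L.p u) (L.p (L.s (L.s u))) (L.p j) (L.p (L.s j)))
    {j : V} (hj : j ∈ L.S) (hju : j ≠ u) (hjk : j ≠ L.s u) {α β : ℝ} (hα : 0 ≤ α) (hβ : 0 ≤ β)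
    {x : E3} (hx : x = α • L.p u + β • L.p (L.s (L.s u))) (hxj : x ∈ L.face j) :
    (j = L.s (L.s u) ∧ ∃ a : ℝ, 0 ≤ a ∧ x = a • L.p j) ∨
    (u = L.s j ∧ ∃ a : ℝ, 0 ≤ a ∧ x = a • L.p u) ∨ x = 0 := by
  set κ := L.s u with hκ
  set w := L.s κ with hw
  have hκS : κ ∈ L.S := h.maps u hu
  have hwS : w ∈ L.S := h.maps κ hκS
  have hswS : L.s w ∈ L.S := h.maps w hwS
  have hmS := hC.hm
  have hqS := hC.hq
  have hsq := hC.hs
  have hsmS : L.s m0 ∈ L.S := h.maps m0 hmS
  have hwu : w ≠ u := fun he => no_period h h5 hu (n := 2) (by omega) (by omega) he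
  have hswu : L.s w ≠ u := fun he => no_period h h5 hu (n := 3) (by omega) (by omega) he
  have hum : u ≠ m0 := fun he => hks (by rw [hκ, he])
  have hwm : w ≠ m0 := fun he => hkq (h.inj κ hκS q0 hqS (by rw [← hw, he, hsq]))
  have huq : u ≠ q0 := fun he => hkm (by rw [hκ, he, hsq])
  have hwsm : w ≠ L.s m0 := fun he => hkm (h.inj κ hκS m0 hmS he)
  have hswm : w ≠ q0 → L.s w ≠ m0 := fun h1 he => h1 (h.inj w hwS q0 hqS (by rw [he, hsq]))
  by_cases hjq : j ≠ q0 ∧ j ≠ m0
  · obtain ⟨hjq, hjm⟩ := hjq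
    have hsjm : L.s j ≠ m0 := fun he => hjq (h.inj j hj q0 hqS (by rw [he, hsq]))
    have hsjS : L.s j ∈ L.S := h.maps j hj
    obtain ⟨γ, δ, hγ, hδ, hx2⟩ := hxj
    by_cases hjw : j = w
    · left
      refine ⟨hjw, β, hβ, ?_⟩
      subst hjw
      have hd : det3 (L.p u) (L.p w) (L.p (L.s w)) ≠ 0 :=
        h.gen u hu w hwS (L.s w) hswS hwu.symm hswu.symm
          (fun he => no_period h h5 hwS (n := 1) (by omega) (by omega) he.symm)
          (not_flat hX hum hwm hsjm)
      have := (hFAC.2 (L.p u) (L.p w) (L.p (L.s w)) α β γ δ hd (by rw [← hx, ← hx2])).1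
      rw [hx, this]
    · by_cases hsju : L.s j = u
      · right; left
        refine ⟨hsju.symm, α, hα, ?_⟩
        have hd : det3 (L.p w) (L.p u) (L.p j) ≠ 0 :=
          h.gen w hwS u hu j hj hwu (Ne.symm hjw) hju.symm (not_flat hX hwm hum hjm)
        have := (hFAC.2 (L.p w) (L.p u) (L.p j) β α δ γ hd (by
          rw [add_comm, ← hx, hx2, hsju, add_comm])).1
        rw [hx, add_comm, this]
      · right; right
        have hsjw : L.s j ≠ w := fun he => hjk (h.inj j hj κ hκS he)
        have hjsj : j ≠ L.s j := fun he =>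
          no_period h h5 hj (n := 1) (by omega) (by omega) he.symm
        have d1 : det3 (L.p u) (L.p w) (L.p j) ≠ 0 :=
          h.gen u hu w hwS j hj hwu.symm hju.symm (Ne.symm hjw) (not_flat hX hum hwm hjm)
        have d2 : det3 (L.p u) (L.p w) (L.p (L.s j)) ≠ 0 :=
          h.gen u hu w hwS (L.s j) hsjS hwu.symm (Ne.symm hsju) (Ne.symm hsjw)
            (not_flat hX hum hwm hsjm)
        have d3 : det3 (L.p j) (L.p (L.s j)) (L.p u) ≠ 0 :=
          h.gen j hj (L.s j) hsjS u hu hjsj hju hsju (not_flat hX hjm hsjm hum)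
        have d4 : det3 (L.p j) (L.p (L.s j)) (L.p w) ≠ 0 :=
          h.gen j hj (L.s j) hsjS w hwS hjsj hjw hsjw (not_flat hX hjm hsjm hwm)
        have := hFAC.1 (L.p u) (L.p w) (L.p j) (L.p (L.s j)) α β γ δ d1 d2 d3 d4
          (hNC j hj hjq hjm) hα hβ hγ hδ (by rw [← hx, ← hx2])
        rw [hx, this]
  · have hj' : j = q0 ∨ j = m0 := by
      by_contra hc
      rw [not_or] at hc
      exact hjq hc
    have n1 : (inner ℝ (L.nor m0) (L.p m0) : ℝ) = 0 := inner_crs_left _ _
    have n2 : (inner ℝ (L.nor m0) (L.p (L.s m0)) : ℝ) = 0 := inner_crs_right _ _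
    have n3 : (inner ℝ (L.nor m0) (L.p q0) : ℝ) = 0 := by
      have h1 : (inner ℝ (L.nor m0) (a • L.p q0 + b • L.p (L.s m0) + L.p m0) : ℝ) = 0 := by
        rw [hC.flat, inner_zero_right]
      rw [inner_add_right, inner_add_right, inner_smul_right, inner_smul_right, n1, n2, mul_zero,
        add_zero, add_zero] at h1
      exact (mul_eq_zero.mp h1).resolve_left hC.ha.ne'
    have nx0 : (inner ℝ (L.nor m0) x : ℝ) = 0 := by
      obtain ⟨γ, δ, -, -, hx2⟩ := hxj
      rcases hj' with rfl | rfl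
      · rw [hx2, hsq, inner_add_right, inner_smul_right, inner_smul_right, n3, n1]
        ring
      · rw [hx2, inner_add_right, inner_smul_right, inner_smul_right, n1, n2]
        ring
    have hsum : α * (σ * (inner ℝ (L.nor m0) (L.p u) : ℝ)) +
        β * (σ * (inner ℝ (L.nor m0) (L.p w) : ℝ)) = 0 := by
      rw [hx, inner_add_right, inner_smul_right, inner_smul_right] at nx0
      have : α * (σ * (inner ℝ (L.nor m0) (L.p u) : ℝ)) +
        β * (σ * (inner ℝ (L.nor m0) (L.p w) : ℝ)) =
        σ * (α * (inner ℝ (L.nor m0) (L.p u) : ℝ) + β * (inner ℝ (L.nor m0) (L.p w) : ℝ)) := by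
        ring
      rw [this, nx0, mul_zero]
    by_cases hus : u = L.s m0
    · by_cases hwq : w = q0
      · exfalso
        have : L.s^[4] q0 = q0 := by
          show L.s (L.s (L.s (L.s q0))) = q0
          rw [hsq, ← hus]
          exact hwq
        exact no_period h h5 hqS (n := 4) (by omega) (by omega) this
      · have hβ0 : β = 0 := by
          have n4 := hC.neg w hwS hwq hwm hwsm
          have n5 : (inner ℝ (L.nor m0) (L.p u) : ℝ) = 0 := by rw [hus]; exact n2
          rw [n5, mul_zero, mul_zero, zero_add] at hsum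
          exact (mul_eq_zero.mp hsum).resolve_right n4.ne
        have hx3 : x = α • L.p u := by rw [hx, hβ0, zero_smul, add_zero]
        rcases hj' with hj' | hj'
        · right; right
          have hxs : x ∈ L.face (L.s m0) := ⟨α, 0, hα, le_rfl, by
            rw [hx3, ← hus, zero_smul, add_zero]⟩
          have hne : q0 ≠ L.s m0 := fun he => by
            refine no_period h h5 hqS (n := 2) (by omega) (by omega) ?_
            show L.s (L.s q0) = q0
            rw [hsq]
            exact he.symm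
          rw [hj'] at hxj
          rcases h.simple q0 hqS (L.s m0) hsmS hne x hxj hxs with ⟨h6, -⟩ | ⟨h6, -⟩ | h6
          · exfalso
            rw [hsq] at h6
            exact no_period h h5 hmS (n := 1) (by omega) (by omega) h6
          · exfalso
            refine no_period h h5 hqS (n := 3) (by omega) (by omega) ?_
            show L.s (L.s (L.s q0)) = q0
            rw [hsq]
            exact h6.symm
          · exact h6
        · right; left
          exact ⟨by rw [hj']; exact hus, α, hα, hx3⟩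
    · have hα0 : α = 0 ∧ (w ≠ q0 → β = 0) := by
        have n4 := hC.neg u hu huq hum hus
        have n5 : σ * (inner ℝ (L.nor m0) (L.p w) : ℝ) ≤ 0 := by
          by_cases hwq : w = q0
          · rw [hwq, n3, mul_zero]
          · exact (hC.neg w hwS hwq hwm hwsm).le
        have e1 : α * (σ * (inner ℝ (L.nor m0) (L.p u) : ℝ)) ≤ 0 :=
          mul_nonpos_of_nonneg_of_nonpos hα n4.le
        have e2 : β * (σ * (inner ℝ (L.nor m0) (L.p w) : ℝ)) ≤ 0 :=
          mul_nonpos_of_nonneg_of_nonpos hβ n5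
        have e3 : α * (σ * (inner ℝ (L.nor m0) (L.p u) : ℝ)) = 0 := by linarith
        have e4 : β * (σ * (inner ℝ (L.nor m0) (L.p w) : ℝ)) = 0 := by linarith
        refine ⟨(mul_eq_zero.mp e3).resolve_right n4.ne, fun hwq => ?_⟩
        exact (mul_eq_zero.mp e4).resolve_right (hC.neg w hwS hwq hwm hwsm).ne
      by_cases hwq : w = q0
      · have hx3 : x = β • L.p w := by rw [hx, hα0.1, zero_smul, zero_add]
        rcases hj' with hj' | hj'
        · left
          exact ⟨by rw [hj', hwq], β, hβ, by rw [hx3, hj', hwq]⟩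
        · right; right
          have hxκ : x ∈ L.face κ := ⟨0, β, le_rfl, hβ, by rw [hx3, zero_smul, zero_add]⟩
          rw [hj'] at hxj
          rcases h.simple κ hκS m0 hmS hkm x hxκ hxj with ⟨h6, -⟩ | ⟨h6, -⟩ | h6
          · exact absurd h6.symm hwm
          · exact absurd h6 hks
          · exact h6
      · right; right
        rw [hx, hα0.1, hα0.2 hwq, zero_smul, zero_smul, add_zero]

end BXS_

theorem bxs_proof (h1 : Stmt_FAC) : Stmt_BXS := by
  intro V _ L m0 q0 u a b σ h hX hC h5 hu hkq hkm hks hNC i hi j hj hij x hxi hxj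
  have hiS : i ∈ L.S := Finset.mem_of_mem_erase hi
  have hjS : j ∈ L.S := Finset.mem_of_mem_erase hj
  have hik : i ≠ L.s u := Finset.ne_of_mem_erase hi
  have hjk : j ≠ L.s u := Finset.ne_of_mem_erase hj
  have hsu : (L.erase (L.s u)).s u = L.s (L.s u) := if_pos rfl
  have hs : ∀ v ∈ L.S, v ≠ u → (L.erase (L.s u)).s v = L.s v := fun v hv hvu =>
    if_neg fun he => hvu (h.inj v hv u hu he)
  have hface : ∀ v ∈ L.S, v ≠ u → ∀ y, y ∈ (L.erase (L.s u)).face v → y ∈ L.face v := by
    rintro v hv hvu y ⟨α, β, hα, hβ, hy⟩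
    rw [hs v hv hvu] at hy
    exact ⟨α, β, hα, hβ, hy⟩
  by_cases hiu : i = u
  · subst hiu
    obtain ⟨α, β, hα, hβ, hx⟩ := hxi
    rw [hsu] at hx ⊢
    have hji : j ≠ i := hij.symm
    rw [hs j hjS hji]
    exact BXS_.main h1 h hX hC h5 hu hkq hkm hks hNC hjS hji hjk hα hβ hx (hface j hjS hji x hxj)
  · by_cases hju : j = u
    · subst hju
      obtain ⟨α, β, hα, hβ, hx⟩ := hxj
      rw [hsu] at hx ⊢
      rw [hs i hiS hiu]
      rcases BXS_.main h1 h hX hC h5 hu hkq hkm hks hNC hiS hiu hik hα hβ hx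
        (hface i hiS hiu x hxi) with h6 | h6 | h6
      · exact Or.inr (Or.inl h6)
      · exact Or.inl h6
      · exact Or.inr (Or.inr h6)
    · rw [hs i hiS hiu, hs j hjS hju]
      exact h.simple i hiS j hjS hij x (hface i hiS hiu x hxi) (hface j hjS hju x hxj)

end Pool.Agent.TSE
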