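import Pool.Agent.TSE.Defs

/-!
# TSE: proved basic lemmas (determinants, indicators, symmetries, indices)
-/

set_option autoImplicit false

open scoped RealInnerProductSpace

namespace Pool.Agent.TSE

open Pool.Agent.TSM

/-! ## vectors and determinants -/

theorem ext3 {a b : E3} (h0 : a 0 = b 0) (h1 : a 1 = b 1) (h2 : a 2 = b 2) : a = b := by
  ext i
  fin_cases i
  · exact h0
  · exact h1
  · exact h2

theorem inner3 (a b : E3) : (inner ℝ a b : ℝ) = a 0 * b 0 + a 1 * b 1 + a 2 * b 2 := by
  simp [PiLp.inner_apply, Fin.sum_univ_three, mul_comm]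

theorem crs_zero (a b : E3) : crs a b 0 = a 1 * b 2 - a 2 * b 1 := rfl
theorem crs_one (a b : E3) : crs a b 1 = a 2 * b 0 - a 0 * b 2 := rfl
theorem crs_two (a b : E3) : crs a b 2 = a 0 * b 1 - a 1 * b 0 := rfl

/-- `inner (crs a b) c = det3 a b c` -/
theorem inner_crs (a b c : E3) : (inner ℝ (crs a b) c : ℝ) = det3 a b c := by
  rw [inner3, crs_zero, crs_one, crs_two, det3]; ring

theorem det3_cyc (a b c : E3) : det3 b c a = det3 a b c := by simp only [det3]; ring
theorem det3_cyc2 (a b c : E3) : det3 c a b = det3 a b c := by simp only [det3]; ring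
theorem det3_swap12 (a b c : E3) : det3 b a c = -det3 a b c := by simp only [det3]; ring
theorem det3_swap23 (a b c : E3) : det3 a c b = -det3 a b c := by simp only [det3]; ring
theorem det3_swap13 (a b c : E3) : det3 c b a = -det3 a b c := by simp only [det3]; ring
@[simp] theorem det3_aab (a b : E3) : det3 a a b = 0 := by simp only [det3]; ring
@[simp] theorem det3_aba (a b : E3) : det3 a b a = 0 := by simp only [det3]; ring
@[simp] theorem det3_baa (a b : E3) : det3 b a a = 0 := by simp only [det3]; ring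

theorem det3_add1 (a b x y : E3) : det3 (x + y) a b = det3 x a b + det3 y a b := by
  simp only [det3, PiLp.add_apply]; ring
theorem det3_add2 (a b x y : E3) : det3 a (x + y) b = det3 a x b + det3 a y b := by
  simp only [det3, PiLp.add_apply]; ring
theorem det3_add3 (a b x y : E3) : det3 a b (x + y) = det3 a b x + det3 a b y := by
  simp only [det3, PiLp.add_apply]; ring
theorem det3_smul1 (r : ℝ) (a b x : E3) : det3 (r • x) a b = r * det3 x a b := by
  simp only [det3, PiLp.smul_apply, smul_eq_mul]; ring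
theorem det3_smul2 (r : ℝ) (a b x : E3) : det3 a (r • x) b = r * det3 a x b := by
  simp only [det3, PiLp.smul_apply, smul_eq_mul]; ring
theorem det3_smul3 (r : ℝ) (a b x : E3) : det3 a b (r • x) = r * det3 a b x := by
  simp only [det3, PiLp.smul_apply, smul_eq_mul]; ring
theorem det3_neg (a b c : E3) : det3 (-a) (-b) (-c) = -det3 a b c := by
  simp only [det3, PiLp.neg_apply]; ring
theorem det3_zero1 (a b : E3) : det3 0 a b = 0 := by simp only [det3, PiLp.zero_apply]; ring
theorem det3_zero3 (a b : E3) : det3 a b 0 = 0 := by simp only [det3, PiLp.zero_apply]; ring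

/-- Cramer's rule -/
theorem cramer (a b c x : E3) :
    det3 a b c • x = det3 x b c • a + det3 a x c • b + det3 a b x • c := by
  apply ext3 <;> simp only [PiLp.add_apply, PiLp.smul_apply, smul_eq_mul, det3] <;> ring

theorem coords (a b c x : E3) (h : det3 a b c ≠ 0) :
    x = (det3 x b c / det3 a b c) • a + (det3 a x c / det3 a b c) • b +
      (det3 a b x / det3 a b c) • c := by
  have h2 : x = (det3 a b c)⁻¹ • ((det3 a b c) • x) := by
    rw [smul_smul, inv_mul_cancel₀ h, one_smul]
  calc x = (det3 a b c)⁻¹ • ((det3 a b c) • x) := h2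
    _ = (det3 a b c)⁻¹ • (det3 x b c • a + det3 a x c • b + det3 a b x • c) := by rw [cramer]
    _ = _ := by
      rw [smul_add, smul_add, smul_smul, smul_smul, smul_smul, div_eq_inv_mul, div_eq_inv_mul,
        div_eq_inv_mul]

/-- three vectors with non-zero determinant are linearly independent -/
theorem indep3 (a b c : E3) (h : det3 a b c ≠ 0) {l m k : ℝ}
    (he : l • a + m • b + k • c = 0) : l = 0 ∧ m = 0 ∧ k = 0 := by
  refine ⟨?_, ?_, ?_⟩
  · have h1 : det3 (l • a + m • b + k • c) b c = l * det3 a b c := by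
      simp only [det3, PiLp.add_apply, PiLp.smul_apply, smul_eq_mul]; ring
    rw [he, det3_zero1] at h1
    rcases mul_eq_zero.1 h1.symm with h2 | h2
    · exact h2
    · exact absurd h2 h
  · have h1 : det3 a (l • a + m • b + k • c) c = m * det3 a b c := by
      simp only [det3, PiLp.add_apply, PiLp.smul_apply, smul_eq_mul]; ring
    have h3 : det3 a 0 c = 0 := by simp only [det3, PiLp.zero_apply]; ring
    rw [he, h3] at h1
    rcases mul_eq_zero.1 h1.symm with h2 | h2
    · exact h2
    · exact absurd h2 h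
  · have h1 : det3 a b (l • a + m • b + k • c) = k * det3 a b c := by
      simp only [det3, PiLp.add_apply, PiLp.smul_apply, smul_eq_mul]; ring
    rw [he, det3_zero3] at h1
    rcases mul_eq_zero.1 h1.symm with h2 | h2
    · exact h2
    · exact absurd h2 h

/-- Grassmann–Plücker relation at `v` -/
theorem gp (v a b c d : E3) :
    det3 v a b * det3 v c d - det3 v a c * det3 v b d + det3 v a d * det3 v b c = 0 := by
  simp only [det3]; ring

/-- a vector orthogonal to three independent vectors is zero -/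
theorem eq_zero_of_inner (a b c ν : E3) (h : det3 a b c ≠ 0)
    (ha : (inner ℝ ν a : ℝ) = 0) (hb : (inner ℝ ν b : ℝ) = 0) (hc : (inner ℝ ν c : ℝ) = 0) :
    ν = 0 := by
  have h1 : (inner ℝ ν ν : ℝ) = 0 := by
    have h2 := coords a b c ν h
    calc (inner ℝ ν ν : ℝ) = inner ℝ ν ((det3 ν b c / det3 a b c) • a +
          (det3 a ν c / det3 a b c) • b + (det3 a b ν / det3 a b c) • c) := by rw [← h2]
      _ = 0 := by
        rw [inner_add_right, inner_add_right, inner_smul_right, inner_smul_right,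
          inner_smul_right, ha, hb, hc]
        ring
  exact inner_self_eq_zero.1 h1

/-! ## indicators -/

theorem io_pos {P : Prop} (h : P) : io P = 1 := by simp [io, h]
theorem io_neg {P : Prop} (h : ¬P) : io P = 0 := by simp [io, h]
theorem io_congr {P Q : Prop} (h : P ↔ Q) : io P = io Q := by rw [propext h]
theorem io_eq_one {P : Prop} : io P = 1 ↔ P := by
  constructor
  · intro h
    by_contra hP
    rw [io_neg hP] at h
    exact zero_ne_one h
  · exact io_pos
theorem io_eq_zero {P : Prop} : io P = 0 ↔ ¬P := by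
  constructor
  · intro h hP
    rw [io_pos hP] at h
    exact one_ne_zero h
  · exact io_neg

theorem add_self2 (x : ZMod 2) : x + x = 0 := by revert x; decide
theorem eq_of_add {x y : ZMod 2} (h : x + y = 0) : x = y := by revert h; revert x y; decide
theorem add_of_eq {x y : ZMod 2} (h : x = y) : x + y = 0 := by rw [h]; exact add_self2 y

/-! ## symmetries -/

theorem Cr_comm (x y a b : E3) : Cr x y a b ↔ Cr y x a b := by
  simp only [Cr, det3_swap12 x y]
  constructor
  · rintro (⟨h1, h2, h3, h4⟩ | ⟨h1, h2, h3, h4⟩)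
    · right; refine ⟨h2, h1, by linarith, by linarith⟩
    · left; refine ⟨h2, h1, by linarith, by linarith⟩
  · rintro (⟨h1, h2, h3, h4⟩ | ⟨h1, h2, h3, h4⟩)
    · right; refine ⟨h2, h1, by linarith, by linarith⟩
    · left; refine ⟨h2, h1, by linarith, by linarith⟩

theorem Cr_symm (x y a b : E3) : Cr x y a b ↔ Cr a b x y := by
  simp only [Cr]
  constructor
  · rintro (⟨h1, h2, h3, h4⟩ | ⟨h1, h2, h3, h4⟩)
    · right; exact ⟨h4, h3, h2, h1⟩
    · left; exact ⟨h4, h3, h2, h1⟩
  · rintro (⟨h1, h2, h3, h4⟩ | ⟨h1, h2, h3, h4⟩)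
    · right; exact ⟨h4, h3, h2, h1⟩
    · left; exact ⟨h4, h3, h2, h1⟩

theorem Cr_comm2 (x y a b : E3) : Cr x y a b ↔ Cr x y b a := by
  rw [Cr_symm, Cr_comm, Cr_symm]

/-- arcs with a common end point do not cross -/
theorem Cr_left (x y b : E3) : ¬ Cr x y x b := by simp [Cr]
theorem Cr_right (x y b : E3) : ¬ Cr x y y b := by simp [Cr]
theorem Cr_left' (x y a : E3) : ¬ Cr x y a x := by simp [Cr]
theorem Cr_right' (x y a : E3) : ¬ Cr x y a y := by simp [Cr]

theorem Tri_cyc (a b c x : E3) : Tri a b c x ↔ Tri b c a x := by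
  simp only [Tri, det3_cyc a b c]
  constructor
  · rintro (⟨h1, h2, h3, h4⟩ | ⟨h1, h2, h3, h4⟩)
    · left; exact ⟨h1, h3, h4, h2⟩
    · right; exact ⟨h1, h3, h4, h2⟩
  · rintro (⟨h1, h2, h3, h4⟩ | ⟨h1, h2, h3, h4⟩)
    · left; exact ⟨h1, h4, h2, h3⟩
    · right; exact ⟨h1, h4, h2, h3⟩

theorem Tri_swap (a b c x : E3) : Tri a b c x ↔ Tri b a c x := by
  simp only [Tri, det3_swap12 a b, det3_swap12 c a x, det3_swap12 b c x]
  constructor
  · rintro (⟨h1, h2, h3, h4⟩ | ⟨h1, h2, h3, h4⟩)
    · right; refine ⟨by linarith, by linarith, by linarith, by linarith⟩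
    · left; refine ⟨by linarith, by linarith, by linarith, by linarith⟩
  · rintro (⟨h1, h2, h3, h4⟩ | ⟨h1, h2, h3, h4⟩)
    · right; refine ⟨by linarith, by linarith, by linarith, by linarith⟩
    · left; refine ⟨by linarith, by linarith, by linarith, by linarith⟩

/-- the corners are not in the open triangle -/
theorem Tri_corner1 (a b c : E3) : ¬ Tri a b c a := by simp [Tri]
theorem Tri_corner2 (a b c : E3) : ¬ Tri a b c b := by simp [Tri]
theorem Tri_corner3 (a b c : E3) : ¬ Tri a b c c := by simp [Tri]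

theorem Btw_symm (v b y c : E3) : Btw v b y c ↔ Btw v c y b := by
  simp only [Btw, det3_swap23 v b y, det3_swap23 v y c, det3_swap23 v b c]
  constructor
  · rintro (⟨h1, h2, h3⟩ | ⟨h1, h2, h3⟩)
    · right; refine ⟨by linarith, by linarith, by linarith⟩
    · left; refine ⟨by linarith, by linarith, by linarith⟩
  · rintro (⟨h1, h2, h3⟩ | ⟨h1, h2, h3⟩)
    · right; refine ⟨by linarith, by linarith, by linarith⟩
    · left; refine ⟨by linarith, by linarith, by linarith⟩

theorem Cr_neg (x y a b : E3) : Cr (-x) (-y) (-a) (-b) ↔ Cr x y a b := by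
  simp only [Cr, det3_neg]
  constructor
  · rintro (⟨h1, h2, h3, h4⟩ | ⟨h1, h2, h3, h4⟩)
    · right; refine ⟨by linarith, by linarith, by linarith, by linarith⟩
    · left; refine ⟨by linarith, by linarith, by linarith, by linarith⟩
  · rintro (⟨h1, h2, h3, h4⟩ | ⟨h1, h2, h3, h4⟩)
    · right; refine ⟨by linarith, by linarith, by linarith, by linarith⟩
    · left; refine ⟨by linarith, by linarith, by linarith, by linarith⟩

theorem Tri_neg (a b c x : E3) : Tri (-a) (-b) (-c) (-x) ↔ Tri a b c x := by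
  simp only [Tri, det3_neg]
  constructor
  · rintro (⟨h1, h2, h3, h4⟩ | ⟨h1, h2, h3, h4⟩)
    · right; refine ⟨by linarith, by linarith, by linarith, by linarith⟩
    · left; refine ⟨by linarith, by linarith, by linarith, by linarith⟩
  · rintro (⟨h1, h2, h3, h4⟩ | ⟨h1, h2, h3, h4⟩)
    · right; refine ⟨by linarith, by linarith, by linarith, by linarith⟩
    · left; refine ⟨by linarith, by linarith, by linarith, by linarith⟩

/-! ## indices -/

theorem nx_le {m s : ℕ} (h : s ≤ m) : nx m s ≤ m := by unfold nx; split_ifs <;> omega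
theorem pv_le {m s : ℕ} (h : s ≤ m) : pv m s ≤ m := by unfold pv; split_ifs <;> omega
theorem nx_pv {m s : ℕ} (h : s ≤ m) : nx m (pv m s) = s := by
  rcases Nat.eq_zero_or_pos s with h0 | h0
  · subst h0; simp [nx, pv]
  · have h1 : pv m s = s - 1 := by unfold pv; rw [if_neg (by omega)]
    rw [h1]; unfold nx; rw [if_neg (by omega)]; omega
theorem pv_nx {m s : ℕ} (h : s ≤ m) : pv m (nx m s) = s := by
  rcases Nat.lt_or_ge s m with h0 | h0
  · have h1 : nx m s = s + 1 := by unfold nx; rw [if_neg (by omega)]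
    rw [h1]; unfold pv; rw [if_neg (by omega)]; omega
  · have h1 : s = m := by omega
    subst h1; simp [nx, pv]
theorem nx_of_lt {m s : ℕ} (h : s < m) : nx m s = s + 1 := by unfold nx; split_ifs <;> omega
theorem nx_last (m : ℕ) : nx m m = 0 := by simp [nx]
theorem pv_zero (m : ℕ) : pv m 0 = m := by simp [pv]
theorem pv_of_pos {m s : ℕ} (h : 0 < s) : pv m s = s - 1 := by unfold pv; split_ifs <;> omega
theorem nx_ne {m s : ℕ} (hm : 1 ≤ m) (_h : s ≤ m) : nx m s ≠ s := by
  unfold nx; split_ifs <;> omega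
theorem pv_ne {m s : ℕ} (hm : 1 ≤ m) (_h : s ≤ m) : pv m s ≠ s := by
  unfold pv; split_ifs <;> omega
theorem nx_ne_pv {m s : ℕ} (hm : 2 ≤ m) (_h : s ≤ m) : nx m s ≠ pv m s := by
  unfold nx pv; split_ifs <;> omega
theorem nx_inj {m s t : ℕ} (hs : s ≤ m) (ht : t ≤ m) (h : nx m s = nx m t) : s = t := by
  rw [← pv_nx hs, h, pv_nx ht]
theorem pv_inj {m s t : ℕ} (hs : s ≤ m) (ht : t ≤ m) (h : pv m s = pv m t) : s = t := by
  rw [← nx_pv hs, h, nx_pv ht]
theorem eq_nx_iff {m s t : ℕ} (hs : s ≤ m) (ht : t ≤ m) : t = nx m s ↔ s = pv m t := by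
  constructor
  · rintro rfl; exact (pv_nx hs).symm
  · rintro rfl; exact (nx_pv ht).symm

/-- cyclic shift of a sum over the vertices -/
theorem sum_nx {M : Type} [AddCommMonoid M] (m : ℕ) (g : ℕ → M) :
    ∑ t ∈ Finset.range (m + 1), g (nx m t) = ∑ t ∈ Finset.range (m + 1), g t := by
  refine Finset.sum_bij' (fun t _ => nx m t) (fun t _ => pv m t) ?_ ?_ ?_ ?_ ?_
  · intro t ht
    exact Finset.mem_range.2 (Nat.lt_succ_of_le (nx_le (Nat.le_of_lt_succ (Finset.mem_range.1 ht))))
  · intro t ht
    exact Finset.mem_range.2 (Nat.lt_succ_of_le (pv_le (Nat.le_of_lt_succ (Finset.mem_range.1 ht))))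
  · intro t ht
    exact pv_nx (Nat.le_of_lt_succ (Finset.mem_range.1 ht))
  · intro t ht
    exact nx_pv (Nat.le_of_lt_succ (Finset.mem_range.1 ht))
  · intro t _
    rfl

/-! ## the crossing parity -/

theorem N_comm (m : ℕ) (q : ℕ → E3) (x y : E3) : N m q x y = N m q y x := by
  unfold N
  exact Finset.sum_congr rfl fun t _ => io_congr (Cr_comm _ _ _ _)

/-- the sum of the parities of the three arcs of a triangle -/
theorem N_tri (m : ℕ) (q : ℕ → E3) (x y z : E3) :
    N m q x y + N m q y z + N m q z x =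
      ∑ t ∈ Finset.range (m + 1), Fv x y z (q t) (q (nx m t)) := by
  have h1 : ∑ t ∈ Finset.range (m + 1), Fv x y z (q t) (q (nx m t)) =
      (N m q x y + N m q y z + N m q z x) +
      (∑ t ∈ Finset.range (m + 1), io (Tri x y z (q t)) +
        ∑ t ∈ Finset.range (m + 1), io (Tri x y z (q (nx m t)))) := by
    unfold N Fv
    simp only [Finset.sum_add_distrib]
  rw [h1, sum_nx m (fun t => io (Tri x y z (q t))), add_self2, add_zero]

theorem N_zero {m : ℕ} {q : ℕ → E3} {x y : E3}
    (h : ∀ t, t ≤ m → ¬ Cr x y (q t) (q (nx m t))) : N m q x y = 0 := by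
  unfold N
  exact Finset.sum_eq_zero fun t ht =>
    io_neg (h t (Nat.le_of_lt_succ (Finset.mem_range.1 ht)))

/-- a side crosses no side -/
theorem side_NC {m : ℕ} {q : ℕ → E3} (hs : Simp m q) {s : ℕ} (h : s ≤ m) :
    NC m q s (nx m s) := by
  intro t ht
  by_cases h1 : s = t
  · subst h1; exact Cr_left _ _ _
  · by_cases h2 : t = nx m s
    · rw [← h2]; exact Cr_right _ _ _
    · by_cases h3 : s = nx m t
      · rw [← h3]; exact Cr_left' _ _ _
      · exact hs s t h ht h1 h2 h3

theorem side_NC' {m : ℕ} {q : ℕ → E3} (hs : Simp m q) {s : ℕ} (h : s ≤ m) :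
    NC m q s (pv m s) := by
  intro t ht
  have h1 := side_NC hs (pv_le h) t ht
  rw [nx_pv h, Cr_comm] at h1
  exact h1

theorem N_side {m : ℕ} {q : ℕ → E3} (hs : Simp m q) {s : ℕ} (h : s ≤ m) :
    N m q (q s) (q (nx m s)) = 0 := N_zero (side_NC hs h)

theorem NC_symm {m : ℕ} {q : ℕ → E3} {i j : ℕ} (h : NC m q i j) : NC m q j i := by
  intro t ht hc
  exact h t ht ((Cr_comm _ _ _ _).1 hc)

/-- all but finitely many terms of a sum vanish -/
theorem sum_eq_sub {m : ℕ} (A : Finset ℕ) (hA : ∀ t ∈ A, t ≤ m) (g : ℕ → ZMod 2)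
    (h : ∀ t, t ≤ m → t ∉ A → g t = 0) :
    ∑ t ∈ Finset.range (m + 1), g t = ∑ t ∈ A, g t := by
  symm
  apply Finset.sum_subset
  · intro t ht
    exact Finset.mem_range.2 (Nat.lt_succ_of_le (hA t ht))
  · intro t ht hn
    exact h t (Nat.le_of_lt_succ (Finset.mem_range.1 ht)) hn

/-- two different representatives of determinants of a generic polygon -/
theorem Gen.perm {m : ℕ} {q : ℕ → E3} (hG : Gen m q) {i j k : ℕ} (hi : i ≤ m) (hj : j ≤ m)
    (hk : k ≤ m) (hij : i ≠ j) (hik : i ≠ k) (hjk : j ≠ k) : det3 (q i) (q j) (q k) ≠ 0 :=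
  hG i j k hi hj hk hij hik hjk

end Pool.Agent.TSE
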