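import Pool.Agent.TSE.Stmts

/-!
# TSE: module CA4 (a part with right turns only contradicts balancedness)
-/

set_option autoImplicit false

namespace Pool.Agent.TSE

open Pool.Agent.TSM

theorem ca4_proof (hCV : Stmt_CV) (hOUT : Stmt_OUT) (hINS : Stmt_INS) (hSUBG : Stmt_SUBG) :
    Stmt_CA4 := by
  intro m p i j hG hS hB hij hjm hLD hRT
  have hsub : Gen (j - i) (sub i p) ∧ Simp (j - i) (sub i p) := by
    rcases hLD with h | h
    · exact hSUBG m p i j hG hS hij hjm (Or.inl h)
    · exact hSUBG m p i j hG hS hij hjm (Or.inr h.1)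
  obtain ⟨hGS, hSS⟩ := hsub
  have hC : Conv (j - i) (sub i p) := hCV _ _ (by omega) hGS hSS hRT
  have e0 : sub i p 0 = p i := rfl
  have e1 : sub i p 1 = p (i + 1) := rfl
  have hall : ∀ t, t ≤ m → det3 (p i) (p (i + 1)) (p t) ≤ 0 := by
    intro t ht
    by_cases ht1 : t = i
    · rw [ht1, det3_aba]
    by_cases ht2 : t = i + 1
    · rw [ht2, det3_baa]
    by_cases hin : i ≤ t ∧ t ≤ j
    · have h := hC 0 (t - i) (by omega) (by omega) (by omega) (by rw [nx_of_lt (by omega)]; omega)
      rw [nx_of_lt (by omega), e0] at h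
      have e2 : sub i p (t - i) = p t := by
        unfold sub
        rw [Nat.add_sub_cancel' hin.1]
      rw [e2] at h
      exact h.le
    · have hwhole : ¬ (i = 0 ∧ j = m) := by
        rintro ⟨h1, h2⟩
        apply hin
        omega
      have h := hOUT m p i j hG hS hij hjm hwhole hLD t ht (by omega) 0 (by omega)
      have hGP : GenP (j - i) (sub i p) (p t) := by
        intro a b ha hb hab
        unfold sub
        exact hG _ _ _ (by omega) (by omega) ht (by omega) (by omega) (by omega)
      have h2 := hINS (j - i) (sub i p) (p t) (by omega) hGS hC hGP (by rw [e0]; exact h)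
      rw [e0, e1] at h2
      exact h2.le
  have hne : crs (p i) (p (i + 1)) ≠ 0 := by
    intro h
    have h2 := hG i (i + 1) (i + 2) (by omega) (by omega) (by omega) (by omega) (by omega)
      (by omega)
    apply h2
    rw [← inner_crs, h, inner_zero_left]
  obtain ⟨t, ht, hpos⟩ := hB _ hne
  rw [inner_crs] at hpos
  exact absurd hpos (not_lt.2 (hall t ht))

end Pool.Agent.TSE
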