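import Pool.Agent.TSE.Stmts

/-!
# TSE: module CLM (a left ear strictly between the ends of a left diagonal)
-/

set_option autoImplicit false

namespace Pool.Agent.TSE

open Pool.Agent.TSM

namespace CLM_

theorem sub_at (p : ℕ → E3) {i s : ℕ} (h : i ≤ s) : sub i p (s - i) = p s := by
  unfold sub
  rw [Nat.add_sub_cancel' h]

theorem pv_mid (p : ℕ → E3) {i j s : ℕ} (h1 : i < s) (_h2 : s ≤ j) :
    sub i p (pv (j - i) (s - i)) = p (s - 1) := by
  rw [pv_of_pos (by omega)]
  unfold sub
  rw [show i + (s - i - 1) = s - 1 by omega]

theorem pv_first (p : ℕ → E3) {i j : ℕ} (h : i ≤ j) :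
    sub i p (pv (j - i) (i - i)) = p j := by
  rw [Nat.sub_self, pv_zero]
  exact sub_at p h

theorem nx_mid (p : ℕ → E3) {i j s : ℕ} (h1 : i ≤ s) (h2 : s < j) :
    sub i p (nx (j - i) (s - i)) = p (s + 1) := by
  rw [nx_of_lt (by omega)]
  unfold sub
  rw [show i + (s - i + 1) = s + 1 by omega]

theorem nx_end (p : ℕ → E3) {i j : ℕ} : sub i p (nx (j - i) (j - i)) = p i := by
  rw [nx_last]
  rfl

/-- turns of the part are nonzero -/
theorem turn_ne {m : ℕ} {q : ℕ → E3} (hm : 2 ≤ m) (hG : Gen m q) {t : ℕ} (ht : t ≤ m) :
    Turn m q t ≠ 0 := by
  unfold Turn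
  exact hG _ _ _ (pv_le ht) ht (nx_le ht) (pv_ne (by omega) ht) (fun h => nx_ne_pv hm ht h.symm)
    (fun h => nx_ne (by omega) ht h.symm)

end CLM_

open CLM_ in
theorem clm_proof (hSUBG : Stmt_SUBG) (hEMA : Stmt_EMA) (hEMB : Stmt_EMB) (hNZA : Stmt_NZA)
    (hNZB : Stmt_NZB) (hCA4 : Stmt_CA4) : Stmt_CLM := by
  intro m p hm hG hS hB
  have key : ∀ n i j, j - i = n → i + 2 ≤ j → j ≤ m → LD m p i j →
      ∃ k, i < k ∧ k < j ∧ 0 < Turn m p k ∧ Ear m p k := by
    intro n
    induction n using Nat.strong_induction_on with
    | _ n ih =>
      intro i j hn hij hjm hLD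
      by_cases hRT : RT (j - i) (sub i p)
      · exact (hCA4 m p i j hG hS hB hij hjm hLD hRT).elim
      have hGS : Gen (j - i) (sub i p) := by
        rcases hLD with h | h
        · exact (hSUBG m p i j hG hS hij hjm (Or.inl h)).1
        · exact (hSUBG m p i j hG hS hij hjm (Or.inr h.1)).1
      have hex : ∃ s, i ≤ s ∧ s ≤ j ∧ 0 < Turn (j - i) (sub i p) (s - i) := by
        unfold RT at hRT
        push Not at hRT
        obtain ⟨t, ht, hT⟩ := hRT
        refine ⟨i + t, by omega, by omega, ?_⟩
        rw [Nat.add_sub_cancel_left]
        exact lt_of_le_of_ne hT (Ne.symm (turn_ne (by omega) hGS ht))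
      obtain ⟨s, his, hsj, hT⟩ := hex
      by_cases hne : ∃ l, l ≤ m ∧ TriAt (j - i) (sub i p) (s - i) (p l)
      · obtain ⟨l, hil, hlj, hsl, hx1, hx2, hTri, hNC⟩ :=
          hNZA m p i j hG hS hij hjm hLD s his hsj hT hne
        obtain ⟨hL1, hL2⟩ :=
          hNZB m p i j hm hG hS hij hjm hLD s l his hsj hil hlj hsl hx1 hx2 hT hTri hNC
        rcases le_total s l with h | h
        · obtain ⟨k, hk1, hk2, hk3, hk4⟩ := ih (l - s) (by omega) s l rfl (by omega) (by omega)
            (Or.inr ⟨hNC, hL1, hL2⟩)
          exact ⟨k, by omega, by omega, hk3, hk4⟩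
        · obtain ⟨k, hk1, hk2, hk3, hk4⟩ := ih (s - l) (by omega) l s rfl (by omega) (by omega)
            (Or.inr ⟨NC_symm hNC, hL2, hL1⟩)
          exact ⟨k, by omega, by omega, hk3, hk4⟩
      · push Not at hne
        rcases Nat.lt_or_ge i s with h1 | h1
        · rcases Nat.lt_or_ge s j with h2 | h2
          · -- an inner vertex of the part: ear
            refine ⟨s, h1, h2, ?_, ?_⟩
            · unfold Turn at hT ⊢
              rw [pv_mid p h1 hsj, sub_at p his, nx_mid p his h2] at hT
              rw [pv_of_pos (by omega), nx_of_lt (by omega)]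
              exact hT
            · intro l hl
              have h3 := hne l hl
              unfold TriAt at h3 ⊢
              rw [pv_mid p h1 hsj, sub_at p his, nx_mid p his h2] at h3
              rw [pv_of_pos (by omega), nx_of_lt (by omega)]
              exact h3
          · -- s = j
            have h3 : s = j := by omega
            subst h3
            have hT' : 0 < det3 (p (s - 1)) (p s) (p i) := by
              unfold Turn at hT
              rw [pv_mid p h1 (le_refl s), sub_at p his, nx_end p] at hT
              exact hT
            have hne' : ∀ l, l ≤ m → ¬ Tri (p (s - 1)) (p s) (p i) (p l) := by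
              intro l hl
              have h3 := hne l hl
              unfold TriAt at h3
              rw [pv_mid p h1 (le_refl s), sub_at p his, nx_end p] at h3
              exact h3
            rcases Nat.lt_or_ge s (i + 3) with h4 | h4
            · have h5 : s = i + 2 := by omega
              subst h5
              refine ⟨i + 1, by omega, by omega, ?_, ?_⟩
              · unfold Turn
                rw [pv_of_pos (by omega), nx_of_lt (by omega)]
                rw [show i + 2 - 1 = i + 1 by omega] at hT'
                rw [show i + 1 - 1 = i by omega]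
                rw [det3_cyc (p i) (p (i + 1)) (p (i + 2))] at hT'
                exact hT'
              · intro l hl
                have h6 := hne' l hl
                rw [show i + 2 - 1 = i + 1 by omega] at h6
                unfold TriAt
                rw [pv_of_pos (by omega), nx_of_lt (by omega), show i + 1 - 1 = i by omega]
                intro h7
                exact h6 ((Tri_cyc _ _ _ _).1 h7)
            · have h5 := hEMB m p i s hG hS h4 hjm hLD hT' hne'
              obtain ⟨k, hk1, hk2, hk3, hk4⟩ := ih (s - 1 - i) (by omega) i (s - 1) rfl (by omega)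
                (by omega) h5
              exact ⟨k, by omega, by omega, hk3, hk4⟩
        · -- s = i
          have h3 : s = i := by omega
          subst h3
          have hT' : 0 < det3 (p j) (p s) (p (s + 1)) := by
            unfold Turn at hT
            rw [pv_first p (by omega), sub_at p his, nx_mid p his (by omega)] at hT
            exact hT
          have hne' : ∀ l, l ≤ m → ¬ Tri (p j) (p s) (p (s + 1)) (p l) := by
            intro l hl
            have h3 := hne l hl
            unfold TriAt at h3
            rw [pv_first p (by omega), sub_at p his, nx_mid p his (by omega)] at h3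
            exact h3
          rcases Nat.lt_or_ge j (s + 3) with h4 | h4
          · have h5 : j = s + 2 := by omega
            subst h5
            refine ⟨s + 1, by omega, by omega, ?_, ?_⟩
            · unfold Turn
              rw [pv_of_pos (by omega), nx_of_lt (by omega)]
              rw [show s + 1 - 1 = s by omega]
              rw [det3_cyc2 (p s) (p (s + 1)) (p (s + 2))] at hT'
              exact hT'
            · intro l hl
              have h6 := hne' l hl
              unfold TriAt
              rw [pv_of_pos (by omega), nx_of_lt (by omega), show s + 1 - 1 = s by omega]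
              intro h7
              exact h6 ((Tri_cyc _ _ _ _).2 h7)
          · have h5 := hEMA m p s j hG hS h4 hjm hLD hT' hne'
            obtain ⟨k, hk1, hk2, hk3, hk4⟩ := ih (j - (s + 1)) (by omega) (s + 1) j rfl (by omega)
              hjm h5
            exact ⟨k, by omega, by omega, hk3, hk4⟩
  intro i j hij hjm hLD
  exact key (j - i) i j rfl hij hjm hLD

end Pool.Agent.TSE
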