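import Pool.Agent.TSE.Stmts

set_option autoImplicit false

namespace Pool.Agent.TSE

open Pool.Agent.TSM

namespace CRA_

theorem four1 : ∀ s0 : Fin 4, ∃ x y z : Fin 4, x ≠ y ∧ x ≠ z ∧ y ≠ z ∧ x ≠ s0 ∧ y ≠ s0 ∧
    z ≠ s0 ∧ ∀ s, s = s0 ∨ s = x ∨ s = y ∨ s = z := by decide

theorem four2 : ∀ s0 s1 : Fin 4, s0 ≠ s1 → ∃ x y : Fin 4, x ≠ y ∧
    ∀ s, s = s0 ∨ s = s1 ∨ s = x ∨ s = y := by decide

/-- `det3` of a sum in the first slot -/
theorem det3_sum1 (c : Fin 4 → ℝ) (v : Fin 4 → E3) (a b : E3) :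
    det3 (∑ s, c s • v s) a b = ∑ s, c s * det3 (v s) a b := by
  simp only [Fin.sum_univ_four, det3_add1, det3_smul1]

/-- four balanced vectors, three of which are independent: no open half space misses them -/
theorem pos_of_rel (v : Fin 4 → E3) (a : Fin 4 → ℝ) (ha : ∀ s, 0 < a s)
    (hrel : ∑ s, a s • v s = 0) (h : det3 (v 0) (v 1) (v 2) ≠ 0) (ν : E3) (hν : ν ≠ 0) :
    ∃ s, 0 < (inner ℝ ν (v s) : ℝ) := by
  by_contra hcon
  push Not at hcon
  have h1 : ∑ s, a s * (inner ℝ ν (v s) : ℝ) = 0 := by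
    have := congrArg (fun w => (inner ℝ ν w : ℝ)) hrel
    simpa [inner_sum, inner_smul_right] using this
  have h2 : ∀ s, a s * (inner ℝ ν (v s) : ℝ) ≤ 0 := fun s =>
    mul_nonpos_of_nonneg_of_nonpos (ha s).le (hcon s)
  have h3 : ∀ s, (inner ℝ ν (v s) : ℝ) = 0 := by
    intro s
    have h4 := (Finset.sum_eq_zero_iff_of_nonpos (fun s _ => h2 s)).mp h1 s (Finset.mem_univ s)
    rcases mul_eq_zero.mp h4 with h5 | h5
    · exact absurd h5 (ha s).ne'
    · exact h5
  exact hν (eq_zero_of_inner (v 0) (v 1) (v 2) ν h (h3 0) (h3 1) (h3 2))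

end CRA_

theorem cra_proof (h1 : Stmt_CRB) : Stmt_CRA := by
  intro m p hm hG hB
  obtain ⟨i, j, k, l, a, b, c, d, hi, hj, hk, hl, hij, hik, hil, hjk, hjl, hkl, ha, hb, hc, hd,
    hrel⟩ := h1 m p hG (by omega) hB
  -- index functions
  obtain ⟨f, hf0, hf1, hf2, hf3⟩ : ∃ f : Fin 4 → ℕ, f 0 = i ∧ f 1 = j ∧ f 2 = k ∧ f 3 = l :=
    ⟨![i, j, k, l], rfl, rfl, rfl, rfl⟩
  obtain ⟨w, hw0, hw1, hw2, hw3⟩ : ∃ w : Fin 4 → ℝ, w 0 = a ∧ w 1 = b ∧ w 2 = c ∧ w 3 = d :=
    ⟨![a, b, c, d], rfl, rfl, rfl, rfl⟩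
  have hfm : ∀ s, f s ≤ m := by
    intro s; fin_cases s <;> simp_all
  have hwp : ∀ s, 0 < w s := by
    intro s; fin_cases s <;> simp_all
  have hinj : ∀ s t, f s = f t → s = t := by
    intro s t hst
    fin_cases s <;> fin_cases t <;> simp_all
  have hne : ∀ s t, s ≠ t → f s ≠ f t := fun s t h h' => h (hinj s t h')
  have hR : ∑ s, w s • p (f s) = 0 := by
    rw [Fin.sum_univ_four, hf0, hf1, hf2, hf3, hw0, hw1, hw2, hw3]; exact hrel
  -- a fifth index
  obtain ⟨e, hem, hef⟩ : ∃ e, e ≤ m ∧ ∀ s, f s ≠ e := by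
    by_contra hcon
    push Not at hcon
    have hsub : Finset.range (m + 1) ⊆ Finset.univ.image f := by
      intro t ht
      rw [Finset.mem_range] at ht
      obtain ⟨s, hs⟩ := hcon t (by omega)
      exact Finset.mem_image.mpr ⟨s, Finset.mem_univ _, hs⟩
    have hc1 := Finset.card_le_card hsub
    have hc2 : (Finset.univ.image f).card ≤ 4 := by
      simpa using Finset.card_image_le (s := (Finset.univ : Finset (Fin 4))) (f := f)
    rw [Finset.card_range] at hc1
    omega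
  -- coordinates of the fifth vector
  have hdet : det3 (p (f 0)) (p (f 1)) (p (f 2)) ≠ 0 :=
    hG _ _ _ (hfm _) (hfm _) (hfm _) (hne _ _ (by decide)) (hne _ _ (by decide))
      (hne _ _ (by decide))
  obtain ⟨δ, hδ⟩ : ∃ δ : Fin 4 → ℝ, p e = ∑ s, δ s • p (f s) := by
    refine ⟨![det3 (p e) (p (f 1)) (p (f 2)) / det3 (p (f 0)) (p (f 1)) (p (f 2)),
      det3 (p (f 0)) (p e) (p (f 2)) / det3 (p (f 0)) (p (f 1)) (p (f 2)),
      det3 (p (f 0)) (p (f 1)) (p e) / det3 (p (f 0)) (p (f 1)) (p (f 2)), 0], ?_⟩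
    rw [Fin.sum_univ_four]
    simp only [Matrix.cons_val, zero_smul, add_zero]
    exact coords _ _ _ _ hdet
  set lam : ℝ := 1 + ∑ s, |δ s| / w s with hlam
  set D : Fin 4 → ℝ := fun s => δ s + lam * w s with hD
  have hDpos : ∀ s, 0 < D s := by
    intro s
    have h2 : |δ s| / w s ≤ ∑ s, |δ s| / w s :=
      Finset.single_le_sum (f := fun s => |δ s| / w s)
        (fun t _ => div_nonneg (abs_nonneg _) (hwp t).le) (Finset.mem_univ s)
    have h3 : |δ s| / w s + 1 ≤ lam := by rw [hlam]; linarith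
    have h4 : (|δ s| / w s + 1) * w s ≤ lam * w s := mul_le_mul_of_nonneg_right h3 (hwp s).le
    have h5 : (|δ s| / w s + 1) * w s = |δ s| + w s := by
      have := (hwp s).ne'
      field_simp
    have h6 := neg_abs_le (δ s)
    have := hwp s
    simp only [hD]
    linarith
  have hDe : p e = ∑ s, D s • p (f s) := by
    simp only [hD, add_smul, mul_smul, Finset.sum_add_distrib]
    rw [← Finset.smul_sum, hR, smul_zero, add_zero]
    exact hδ
  obtain ⟨s0, -, hs0⟩ := Finset.exists_min_image (Finset.univ : Finset (Fin 4))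
    (fun s => w s / D s) ⟨0, Finset.mem_univ _⟩
  set t : ℝ := w s0 / D s0 with ht
  have htpos : 0 < t := div_pos (hwp s0) (hDpos s0)
  set C : Fin 4 → ℝ := fun s => w s - t * D s with hC
  have hC0 : C s0 = 0 := by
    simp only [hC, ht]
    have := (hDpos s0).ne'
    field_simp
    ring
  have hCn : ∀ s, 0 ≤ C s := by
    intro s
    have h2 := hs0 s (Finset.mem_univ s)
    have h3 : t * D s ≤ w s := by
      have := (le_div_iff₀ (hDpos s)).mp h2
      exact this
    simp only [hC]; linarith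
  have hrel2 : ∑ s, C s • p (f s) + t • p e = 0 := by
    have h2 : ∑ s, C s • p (f s) = ∑ s, w s • p (f s) - t • ∑ s, D s • p (f s) := by
      rw [Finset.smul_sum, ← Finset.sum_sub_distrib]
      apply Finset.sum_congr rfl
      intro s _
      simp only [hC]
      rw [sub_smul, mul_smul]
    rw [h2, hR, ← hDe]
    simp
  have hCne : ∀ s, s ≠ s0 → C s ≠ 0 := by
    intro s1 hs1 hcon
    obtain ⟨x, y, hxy, hall⟩ := CRA_.four2 s0 s1 (Ne.symm hs1)
    have h2 := congrArg (fun v => det3 v (p (f x)) (p (f y))) hrel2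
    simp only [det3_add1, CRA_.det3_sum1, det3_smul1, det3_zero1] at h2
    have h3 : ∑ s, C s * det3 (p (f s)) (p (f x)) (p (f y)) = 0 := by
      apply Finset.sum_eq_zero
      intro s _
      rcases hall s with h | h | h | h
      · rw [h, hC0, zero_mul]
      · rw [h, hcon, zero_mul]
      · rw [h]; simp
      · rw [h]; simp
    rw [h3, zero_add] at h2
    rcases mul_eq_zero.mp h2 with h4 | h4
    · exact htpos.ne' h4
    · exact hG _ _ _ hem (hfm x) (hfm y) (Ne.symm (hef x)) (Ne.symm (hef y)) (hne _ _ hxy) h4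
  obtain ⟨x, y, z, hxy, hxz, hyz, hx, hy, hz, hall⟩ := CRA_.four1 s0
  refine ⟨f x, f y, f z, ?_⟩
  intro l' hl' hlx hly hlz ν hν
  by_cases hls : l' = f s0
  · by_contra hcon
    push Not at hcon
    have h2 : ∀ s, s ≠ s0 → (inner ℝ ν (p (f s)) : ℝ) ≤ 0 := fun s hs =>
      hcon (f s) (hfm s) (by rw [hls]; exact hne _ _ hs)
    have h3 : (inner ℝ ν (p e) : ℝ) ≤ 0 := hcon e hem (by rw [hls]; exact Ne.symm (hef s0))
    have h4 : ∑ s, C s * (inner ℝ ν (p (f s)) : ℝ) + t * (inner ℝ ν (p e) : ℝ) = 0 := by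
      have := congrArg (fun w => (inner ℝ ν w : ℝ)) hrel2
      simpa [inner_add_right, inner_sum, inner_smul_right] using this
    have h5 : ∀ s, C s * (inner ℝ ν (p (f s)) : ℝ) ≤ 0 := by
      intro s
      by_cases hs : s = s0
      · rw [hs, hC0, zero_mul]
      · exact mul_nonpos_of_nonneg_of_nonpos (hCn s) (h2 s hs)
    have h6 : ∑ s, C s * (inner ℝ ν (p (f s)) : ℝ) = 0 := by
      have h7 : ∑ s, C s * (inner ℝ ν (p (f s)) : ℝ) ≤ 0 := Finset.sum_nonpos fun s _ => h5 s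
      have h8 : t * (inner ℝ ν (p e) : ℝ) ≤ 0 :=
        mul_nonpos_of_nonneg_of_nonpos htpos.le h3
      linarith
    have h9 : ∀ s, s ≠ s0 → (inner ℝ ν (p (f s)) : ℝ) = 0 := by
      intro s hs
      have h10 := (Finset.sum_eq_zero_iff_of_nonpos (fun s _ => h5 s)).mp h6 s
        (Finset.mem_univ s)
      rcases mul_eq_zero.mp h10 with h | h
      · exact absurd h (hCne s hs)
      · exact h
    exact hν (eq_zero_of_inner (p (f x)) (p (f y)) (p (f z)) ν
      (hG _ _ _ (hfm x) (hfm y) (hfm z) (hne _ _ hxy) (hne _ _ hxz) (hne _ _ hyz))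
      (h9 x hx) (h9 y hy) (h9 z hz))
  · obtain ⟨s, hs⟩ := CRA_.pos_of_rel (fun s => p (f s)) w hwp hR hdet ν hν
    refine ⟨f s, hfm s, ?_, hs⟩
    rcases hall s with h | h | h | h
    · rw [h]; exact Ne.symm hls
    · rw [h]; exact Ne.symm hlx
    · rw [h]; exact Ne.symm hly
    · rw [h]; exact Ne.symm hlz

end Pool.Agent.TSE
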