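import Pool.Agent.TSE.Stmts

set_option autoImplicit false

open scoped RealInnerProductSpace

namespace Pool.Agent.TSE

open Pool.Agent.TSM

namespace CRB_

/-- the origin lies in the convex hull of the vertices of a balanced polygon -/
theorem zero_mem_hull (m : ℕ) (p : ℕ → E3) (hB : Bal m p) :
    (0 : E3) ∈ convexHull ℝ (p '' {t | t ≤ m}) := by
  by_contra h0
  have hfin : (p '' {t | t ≤ m}).Finite := (Set.finite_Iic m).image p
  obtain ⟨f, u, hf0, hfb⟩ := geometric_hahn_banach_point_closed
    (convex_convexHull ℝ (p '' {t | t ≤ m})) (hfin.isClosed_convexHull ℝ) h0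
  rw [map_zero] at hf0
  have hpos : ∀ t, t ≤ m → 0 < f (p t) := by
    intro t ht
    exact lt_trans hf0 (hfb _ (subset_convexHull ℝ _ ⟨t, ht, rfl⟩))
  set ν : E3 := (InnerProductSpace.toDual ℝ E3).symm f with hν
  have hin : ∀ x : E3, (inner ℝ ν x : ℝ) = f x := fun x =>
    InnerProductSpace.toDual_symm_apply
  have hν0 : -ν ≠ 0 := by
    intro h
    have h1 : ν = 0 := by rwa [neg_eq_zero] at h
    have h2 := hpos 0 (Nat.zero_le m)
    rw [← hin, h1, inner_zero_left] at h2
    exact lt_irrefl _ h2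
  obtain ⟨i, hi, hpi⟩ := hB (-ν) hν0
  rw [inner_neg_left, hin] at hpi
  have := hpos i hi
  linarith

end CRB_

open CRB_ in
theorem crb_proof : Stmt_CRB := by
  intro m p hG hm hB
  obtain ⟨ι, hι, z, w, hz, haff, hw, hw1, hw0⟩ :=
    eq_pos_convex_span_of_mem_convexHull (zero_mem_hull m p hB)
  have hcard : Fintype.card ι ≤ 4 := by
    have h1 := haff.card_le_finrank_succ
    have h2 : Module.finrank ℝ (vectorSpan ℝ (Set.range z)) ≤ Module.finrank ℝ E3 :=
      Submodule.finrank_le _
    rw [finrank_euclideanSpace_fin] at h2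
    omega
  have hzinj : Function.Injective z := haff.injective
  have hex : ∀ x : ι, ∃ t, t ≤ m ∧ p t = z x := by
    intro x
    obtain ⟨t, ht, h⟩ := hz ⟨x, rfl⟩
    exact ⟨t, ht, h⟩
  choose t ht hpt using hex
  have htinj : Function.Injective t := by
    intro x y hxy
    apply hzinj
    rw [← hpt x, ← hpt y, hxy]
  classical
  -- weights on indices
  set W : ℕ → ℝ := fun s => ∑ x, if t x = s then w x else 0 with hW
  have hWt : ∀ x, W (t x) = w x := by
    intro x
    simp only [hW]
    rw [Finset.sum_eq_single x]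
    · rw [if_pos rfl]
    · intro y _ hy
      rw [if_neg]
      intro h
      exact hy (htinj h)
    · intro h
      exact absurd (Finset.mem_univ x) h
  have hWz : ∀ s, s ∉ Finset.univ.image t → W s = 0 := by
    intro s hs
    simp only [hW]
    refine Finset.sum_eq_zero fun x _ => ?_
    rw [if_neg]
    intro h
    exact hs (Finset.mem_image.2 ⟨x, Finset.mem_univ x, h⟩)
  have hsub : Finset.univ.image t ⊆ Finset.range (m + 1) := by
    intro s hs
    obtain ⟨x, _, rfl⟩ := Finset.mem_image.1 hs
    exact Finset.mem_range.2 (Nat.lt_succ_of_le (ht x))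
  have hTcard : (Finset.univ.image t).card = Fintype.card ι := by
    rw [Finset.card_image_of_injective _ htinj, Finset.card_univ]
  have hsumT : ∑ s ∈ Finset.univ.image t, W s • p s = 0 := by
    rw [Finset.sum_image (fun x _ y _ h => htinj h)]
    rw [← hw0]
    refine Finset.sum_congr rfl fun x _ => ?_
    rw [hWt, hpt]
  have hsumT1 : ∑ s ∈ Finset.univ.image t, W s = 1 := by
    rw [Finset.sum_image (fun x _ y _ h => htinj h)]
    rw [← hw1]
    exact Finset.sum_congr rfl fun x _ => hWt x
  have hWpos : ∀ s ∈ Finset.univ.image t, 0 < W s := by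
    intro s hs
    obtain ⟨x, _, rfl⟩ := Finset.mem_image.1 hs
    rw [hWt]
    exact hw x
  by_cases hc : Fintype.card ι ≤ 3
  · exfalso
    obtain ⟨T', hT1, hT2, hT3⟩ := Finset.exists_subsuperset_card_eq hsub
      (show (Finset.univ.image t).card ≤ 3 by rw [hTcard]; exact hc)
      (show 3 ≤ (Finset.range (m + 1)).card by rw [Finset.card_range]; omega)
    obtain ⟨i, j, k, hij, hik, hjk, rfl⟩ := Finset.card_eq_three.1 hT3
    have him : i ≤ m := by
      have := Finset.mem_range.1 (hT2 (by simp : i ∈ ({i, j, k} : Finset ℕ)))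
      omega
    have hjm : j ≤ m := by
      have := Finset.mem_range.1 (hT2 (by simp : j ∈ ({i, j, k} : Finset ℕ)))
      omega
    have hkm : k ≤ m := by
      have := Finset.mem_range.1 (hT2 (by simp : k ∈ ({i, j, k} : Finset ℕ)))
      omega
    have h1 : ∑ s ∈ ({i, j, k} : Finset ℕ), W s • p s = 0 := by
      rw [← hsumT]
      symm
      refine Finset.sum_subset hT1 fun s _ hs => ?_
      rw [hWz s hs, zero_smul]
    have h2 : ∑ s ∈ ({i, j, k} : Finset ℕ), W s = 1 := by
      rw [← hsumT1]
      symm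
      exact Finset.sum_subset hT1 fun s _ hs => hWz s hs
    have hi : i ∉ ({j, k} : Finset ℕ) := by simp [hij, hik]
    have hj : j ∉ ({k} : Finset ℕ) := by simp [hjk]
    rw [Finset.sum_insert hi, Finset.sum_insert hj, Finset.sum_singleton] at h1 h2
    rw [← add_assoc] at h1
    obtain ⟨e1, e2, e3⟩ := indep3 _ _ _ (hG i j k him hjm hkm hij hik hjk) h1
    rw [e1, e2, e3] at h2
    norm_num at h2
  · have hc4 : (Finset.univ.image t).card = 3 + 1 := by rw [hTcard]; omega
    obtain ⟨i, T', hi, hT, hT3⟩ := Finset.card_eq_succ.1 hc4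
    obtain ⟨j, k, l, hjk, hjl, hkl, rfl⟩ := Finset.card_eq_three.1 hT3
    have hi' : i ≠ j ∧ i ≠ k ∧ i ≠ l := by
      simpa using hi
    rw [← hT] at hsumT hsub hWpos
    have hj : j ∉ ({k, l} : Finset ℕ) := by simp [hjk, hjl]
    have hk : k ∉ ({l} : Finset ℕ) := by simp [hkl]
    rw [Finset.sum_insert hi, Finset.sum_insert hj, Finset.sum_insert hk,
      Finset.sum_singleton, ← add_assoc, ← add_assoc] at hsumT
    have mi : i ∈ insert i ({j, k, l} : Finset ℕ) := by simp
    have mj : j ∈ insert i ({j, k, l} : Finset ℕ) := by simp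
    have mk : k ∈ insert i ({j, k, l} : Finset ℕ) := by simp
    have ml : l ∈ insert i ({j, k, l} : Finset ℕ) := by simp
    exact ⟨i, j, k, l, W i, W j, W k, W l, Nat.le_of_lt_succ (Finset.mem_range.1 (hsub mi)),
      Nat.le_of_lt_succ (Finset.mem_range.1 (hsub mj)),
      Nat.le_of_lt_succ (Finset.mem_range.1 (hsub mk)),
      Nat.le_of_lt_succ (Finset.mem_range.1 (hsub ml)),
      hi'.1, hi'.2.1, hi'.2.2, hjk, hjl, hkl, hWpos i mi, hWpos j mj, hWpos k mk, hWpos l ml,
      hsumT⟩

end Pool.Agent.TSE
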