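import Pool.Agent.TSE.Stmts

/-!
# TSE, module CRX: transversal crossings of arcs in terms of positive combinations
-/

set_option autoImplicit false

namespace Pool.Agent.TSE

open Pool.Agent.TSM

namespace CRX_

theorem plu (x y a b : E3) :
    (-det3 a b y) • x + (det3 a b x) • y = (det3 x y b) • a + (-det3 x y a) • b := by
  apply ext3 <;> simp only [PiLp.add_apply, PiLp.smul_apply, smul_eq_mul, det3] <;> ring

theorem plu' (x y a b : E3) :
    (det3 a b y) • x + (-det3 a b x) • y = (-det3 x y b) • a + (det3 x y a) • b := by
  apply ext3 <;> simp only [PiLp.add_apply, PiLp.smul_apply, smul_eq_mul, det3] <;> ring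

end CRX_

open CRX_ in
theorem crx_proof : Stmt_CRX := by
  refine ⟨?_, ?_⟩
  · intro x y a b h
    rcases h with ⟨h1, h2, h3, h4⟩ | ⟨h1, h2, h3, h4⟩
    · exact ⟨-det3 a b y, det3 a b x, det3 x y b, -det3 x y a, by linarith, h1, h3,
        by linarith, plu x y a b⟩
    · exact ⟨det3 a b y, -det3 a b x, -det3 x y b, det3 x y a, by linarith, by linarith,
        by linarith, by linarith, plu' x y a b⟩
  · intro x y a b u u' s t hu hu' hs ht he h1 h2
    have e1 : u * det3 a b x + u' * det3 a b y = 0 := by
      have := congrArg (det3 a b) he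
      rw [det3_add3, det3_add3, det3_smul3, det3_smul3, det3_smul3, det3_smul3, det3_aba,
        det3_baa] at this
      linarith
    have e2 : s * det3 x y a + t * det3 x y b = 0 := by
      have := congrArg (det3 x y) he
      rw [det3_add3, det3_add3, det3_smul3, det3_smul3, det3_smul3, det3_smul3, det3_aba,
        det3_baa] at this
      linarith
    have e3 : t * det3 a b x = -(u' * det3 x y a) := by
      have := congrArg (fun w => det3 a w x) he
      simp only [det3_add2, det3_smul2] at this
      have h5 : det3 a x x = 0 := det3_baa x a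
      have h6 : det3 a a x = 0 := det3_aab a x
      have h7 : det3 a y x = -det3 x y a := det3_swap13 x y a
      rw [h5, h6, h7] at this
      linarith
    rcases lt_or_gt_of_ne h2 with h | h
    · -- `det3 a b x < 0`
      have f1 : 0 < det3 x y a := by
        by_contra hc
        have hc' : det3 x y a ≤ 0 := not_lt.1 hc
        have k1 : t * det3 a b x < 0 := mul_neg_of_pos_of_neg ht h
        have k2 : u' * det3 x y a ≤ 0 := mul_nonpos_of_nonneg_of_nonpos hu'.le hc'
        linarith
      have f2 : 0 < det3 a b y := by
        by_contra hc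
        have hc' : det3 a b y ≤ 0 := not_lt.1 hc
        have k1 : u * det3 a b x < 0 := mul_neg_of_pos_of_neg hu h
        have k2 : u' * det3 a b y ≤ 0 := mul_nonpos_of_nonneg_of_nonpos hu'.le hc'
        linarith
      have f3 : det3 x y b < 0 := by
        by_contra hc
        have hc' : 0 ≤ det3 x y b := not_lt.1 hc
        have k1 : 0 < s * det3 x y a := mul_pos hs f1
        have k2 : 0 ≤ t * det3 x y b := mul_nonneg ht.le hc'
        linarith
      exact Or.inr ⟨h, f2, f3, f1⟩
    · have f1 : det3 x y a < 0 := by
        by_contra hc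
        have hc' : 0 ≤ det3 x y a := not_lt.1 hc
        have k1 : 0 < t * det3 a b x := mul_pos ht h
        have k2 : 0 ≤ u' * det3 x y a := mul_nonneg hu'.le hc'
        linarith
      have f2 : det3 a b y < 0 := by
        by_contra hc
        have hc' : 0 ≤ det3 a b y := not_lt.1 hc
        have k1 : 0 < u * det3 a b x := mul_pos hu h
        have k2 : 0 ≤ u' * det3 a b y := mul_nonneg hu'.le hc'
        linarith
      have f3 : 0 < det3 x y b := by
        by_contra hc
        have hc' : det3 x y b ≤ 0 := not_lt.1 hc
        have k1 : s * det3 x y a < 0 := mul_neg_of_pos_of_neg hs f1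
        have k2 : t * det3 x y b ≤ 0 := mul_nonpos_of_nonneg_of_nonpos ht.le hc'
        linarith
      exact Or.inl ⟨h, f2, f3, f1⟩

end Pool.Agent.TSE
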