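import Pool.Agent.TSE.Stmts

set_option autoImplicit false

namespace Pool.Agent.TSE

open Pool.Agent.TSM

namespace CTA_

theorem sk_zero (q : ℕ → E3) : sk 2 q 0 = q 0 := by simp [sk]
theorem sk_pos (q : ℕ → E3) {t : ℕ} (h : 1 ≤ t) : sk 2 q t = q (t + 1) := by
  unfold sk
  rw [if_neg (by omega)]
  congr 1
  omega

/-- side `t ≥ 1` of the new polygon -/
theorem sk_nx (q : ℕ → E3) {m t : ℕ} (hm : 3 ≤ m) (h : 1 ≤ t) (ht : t ≤ m - 1) :
    sk 2 q (nx (m - 1) t) = q (nx m (t + 1)) := by
  by_cases h1 : t = m - 1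
  · rw [h1, nx_last, sk_zero]
    rw [show m - 1 + 1 = m by omega, nx_last]
  · rw [nx_of_lt (by omega), nx_of_lt (by omega), sk_pos q (by omega)]

theorem sk_nx0 (q : ℕ → E3) {m : ℕ} (hm : 3 ≤ m) : sk 2 q (nx (m - 1) 0) = q 2 := by
  rw [nx_of_lt (by omega), sk_pos q (by omega)]

theorem gen {m : ℕ} {q : ℕ → E3} (hm : 3 ≤ m) (hG : Gen m q) : Gen (m - 1) (sk 2 q) := by
  have key : ∀ t, sk 2 q t = q (if t = 0 then 0 else t + 1) := by
    intro t
    split_ifs with h
    · rw [h, sk_zero]
    · exact sk_pos q (by omega)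
  intro i j k hi hj hk hij hik hjk
  rw [key i, key j, key k]
  refine hG _ _ _ ?_ ?_ ?_ ?_ ?_ ?_ <;> split_ifs <;> omega

theorem simp' {m : ℕ} {q : ℕ → E3} (hm : 3 ≤ m) (hS : Simp m q) (hN : NC m q 0 2) :
    Simp (m - 1) (sk 2 q) := by
  have key : ∀ t, 1 ≤ t → t ≤ m - 1 →
      ¬ Cr (sk 2 q 0) (sk 2 q (nx (m - 1) 0)) (sk 2 q t) (sk 2 q (nx (m - 1) t)) := by
    intro t h1 h2
    rw [sk_zero, sk_nx0 q hm, sk_pos q h1, sk_nx q hm h1 h2]
    exact hN (t + 1) (by omega)
  intro s t hs ht hst h1 h2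
  by_cases hs0 : s = 0
  · subst hs0
    exact key t (by omega) ht
  by_cases ht0 : t = 0
  · subst ht0
    rw [Cr_symm]
    exact key s (by omega) hs
  rw [sk_nx q hm (by omega) hs, sk_nx q hm (by omega) ht, sk_pos q (show 1 ≤ s by omega),
    sk_pos q (show 1 ≤ t by omega)]
  refine hS (s + 1) (t + 1) (by omega) (by omega) (by omega) ?_ ?_
  · revert h1; unfold nx; split_ifs <;> omega
  · revert h2; unfold nx; split_ifs <;> omega

end CTA_

theorem cta_proof (h1 : Stmt_REM) (h2 : Stmt_LTV) : Stmt_CTA := by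
  intro m q hm hG hS hR hE
  have hpv1 : pv m 1 = 0 := by unfold pv; rw [if_neg (by omega)]
  have hnx1 : nx m 1 = 2 := nx_of_lt (by omega)
  have hNC : NC m q 0 2 := by
    have := h1 m q hm hG hS 1 (by omega) hE
    rwa [hpv1, hnx1] at this
  have hE' : ∀ j, j ≤ m → ¬ Tri (q 0) (q 1) (q 2) (q j) := by
    intro j hj
    have := hE j hj
    unfold TriAt at this
    rwa [hpv1, hnx1] at this
  have t1 : det3 (q 0) (q 1) (q 2) < 0 := by
    have := hR 1 (by omega)
    unfold Turn at this
    rwa [hpv1, hnx1] at this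
  refine ⟨CTA_.gen hm hG, CTA_.simp' hm hS hNC, ?_⟩
  intro s hs
  unfold Turn
  by_cases hs0 : s = 0
  · subst hs0
    rw [CTA_.sk_zero, CTA_.sk_nx0 q hm, pv_zero, CTA_.sk_pos q (by omega),
      show m - 1 + 1 = m by omega]
    have t0 : det3 (q m) (q 0) (q 1) < 0 := by
      have := hR 0 (by omega)
      unfold Turn at this
      rwa [pv_zero, nx_of_lt (show 0 < m by omega)] at this
    by_contra hcon
    have hne : det3 (q m) (q 0) (q 2) ≠ 0 :=
      hG m 0 2 le_rfl (by omega) (by omega) (by omega) (by omega) (by omega)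
    have hpos : 0 < det3 (q m) (q 0) (q 2) := lt_of_le_of_ne (not_lt.1 hcon) hne.symm
    have hB : Btw (q 0) (q 1) (q m) (q 2) := by
      right
      refine ⟨?_, ?_, t1⟩
      · rw [det3_cyc (q m) (q 0) (q 1)]; exact t0
      · rw [det3_swap12 (q m) (q 0) (q 2)]; linarith
    have hl := h2 (q 0) (q 1) (q 2) (q m)
      (hG 0 1 2 (by omega) (by omega) (by omega) (by omega) (by omega) (by omega))
      (hG 0 1 m (by omega) (by omega) (by omega) (by omega) (by omega) (by omega))
      (hG 1 2 m (by omega) (by omega) (by omega) (by omega) (by omega) (by omega))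
      (hG 2 0 m (by omega) (by omega) (by omega) (by omega) (by omega) (by omega))
    rw [io_pos hB, io_neg (hE' m le_rfl), io_neg] at hl
    · simp at hl
    · have := hS m 1 le_rfl (by omega) (by omega) (by rw [nx_last]; omega) (by rw [hnx1]; omega)
      rw [nx_last, hnx1] at this
      intro hc
      exact this ((Cr_comm _ _ _ _).1 hc)
  by_cases hs1 : s = 1
  · subst hs1
    rw [CTA_.sk_nx q hm le_rfl hs, pv_of_pos (by omega), CTA_.sk_pos q le_rfl,
      show 1 - 1 = 0 from rfl, CTA_.sk_zero, show 1 + 1 = 2 from rfl,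
      nx_of_lt (show 2 < m by omega), show 2 + 1 = 3 from rfl]
    have t2 : det3 (q 1) (q 2) (q 3) < 0 := by
      have := hR 2 (by omega)
      unfold Turn at this
      rwa [pv_of_pos (by omega), nx_of_lt (show 2 < m by omega), show 2 - 1 = 1 from rfl,
        show 2 + 1 = 3 from rfl] at this
    by_contra hcon
    have hne : det3 (q 0) (q 2) (q 3) ≠ 0 :=
      hG 0 2 3 (by omega) (by omega) (by omega) (by omega) (by omega) (by omega)
    have hpos : 0 < det3 (q 0) (q 2) (q 3) := lt_of_le_of_ne (not_lt.1 hcon) hne.symm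
    have hB : Btw (q 2) (q 0) (q 3) (q 1) := by
      right
      refine ⟨?_, ?_, ?_⟩
      · rw [det3_swap12 (q 0) (q 2) (q 3)]; linarith
      · rw [det3_cyc (q 1) (q 2) (q 3)]; exact t2
      · rw [det3_cyc2 (q 0) (q 1) (q 2)]; exact t1
    have hl := h2 (q 2) (q 0) (q 1) (q 3)
      (hG 2 0 1 (by omega) (by omega) (by omega) (by omega) (by omega) (by omega))
      (hG 2 0 3 (by omega) (by omega) (by omega) (by omega) (by omega) (by omega))
      (hG 0 1 3 (by omega) (by omega) (by omega) (by omega) (by omega) (by omega))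
      (hG 1 2 3 (by omega) (by omega) (by omega) (by omega) (by omega) (by omega))
    have hT : ¬ Tri (q 2) (q 0) (q 1) (q 3) := by
      rw [Tri_cyc]
      exact hE' 3 (by omega)
    rw [io_pos hB, io_neg hT, io_neg] at hl
    · simp at hl
    · have := hS 2 0 (by omega) (by omega) (by omega)
        (by rw [nx_of_lt (show 2 < m by omega)]; omega)
        (by rw [nx_of_lt (show 0 < m by omega)]; omega)
      rwa [nx_of_lt (show 2 < m by omega), nx_of_lt (show 0 < m by omega)] at this
  · rw [CTA_.sk_nx q hm (by omega) hs, pv_of_pos (by omega), CTA_.sk_pos q (by omega),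
      CTA_.sk_pos q (by omega), show s - 1 + 1 = s by omega]
    have := hR (s + 1) (by omega)
    unfold Turn at this
    rwa [pv_of_pos (by omega), show s + 1 - 1 = s by omega] at this

end Pool.Agent.TSE
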