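import Pool.Agent.TSE.Stmts

/-!
# TSE, module CTB: cut along a diagonal at a vertex which is no ear
-/

set_option autoImplicit false

namespace Pool.Agent.TSE

open Pool.Agent.TSM

namespace CTB_

/-- the index map of `sk` -/
def g (l t : ℕ) : ℕ := if t = 0 then 0 else l + t - 1

lemma sk_eq (l : ℕ) (q : ℕ → E3) (t : ℕ) : sk l q t = q (g l t) := by
  unfold sk g
  by_cases h : t = 0
  · rw [if_pos h, if_pos h]
  · rw [if_neg h, if_neg h]

lemma g_le {m l t : ℕ} (h1 : 2 ≤ l) (h2 : l + 1 ≤ m) (ht : t ≤ m - l + 1) : g l t ≤ m := by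
  unfold g; split_ifs <;> omega

lemma g_inj {l s t : ℕ} (h1 : 2 ≤ l) (h : g l s = g l t) : s = t := by
  unfold g at h; split_ifs at h <;> omega

lemma g_nx {m l t : ℕ} (h1 : 2 ≤ l) (h2 : l + 1 ≤ m) (ht : t ≤ m - l + 1) (h0 : 1 ≤ t) :
    g l (nx (m - l + 1) t) = nx m (g l t) := by
  unfold g nx; split_ifs <;> omega

lemma g_pv {m l t : ℕ} (h1 : 2 ≤ l) (h2 : l + 1 ≤ m) (ht : t ≤ m - l + 1) (h0 : 2 ≤ t) :
    g l (pv (m - l + 1) t) = pv m (g l t) := by
  unfold g pv; split_ifs <;> omega

end CTB_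

open CTB_ in
theorem ctb_proof (h1 : Stmt_VIS) (h2 : Stmt_SH) : Stmt_CTB := by
  intro m q hm hG hS hR hE
  have hnx0 : nx m 0 = 1 := nx_of_lt (by omega)
  obtain ⟨j, hj, hj2⟩ : ∃ j, j ≤ m ∧ TriAt m q 0 (q j) := by
    by_contra h
    apply hE
    intro j hj h3
    exact h ⟨j, hj, h3⟩
  unfold TriAt at hj2
  rw [pv_zero, hnx0] at hj2
  obtain ⟨l, hl, hl0, hlm, hl1, hT, hV⟩ := h1 m q hG 0 m 1 (by omega) le_rfl (by omega) (by omega)
    (by omega) (by omega) ⟨j, hj, hj2⟩
  have hl2 : 2 ≤ l := by omega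
  have hl3 : l + 1 ≤ m := by omega
  have hA := side_NC hS (Nat.zero_le m)
  have hB := side_NC' hS (Nat.zero_le m)
  rw [hnx0] at hA
  rw [pv_zero] at hB
  have hNC : NC m q 0 l := by
    intro t ht hc
    have h3 := hV t (nx m t) ht (nx_le ht) (fun h => nx_ne (by omega) ht h.symm)
      (fun h => hB t ht ((Cr_symm _ _ _ _).1 h)) (fun h => hA t ht ((Cr_symm _ _ _ _).1 h))
    exact h3 ((Cr_symm _ _ _ _).1 hc)
  have hT0 : det3 (q m) (q 0) (q 1) < 0 := by
    have := hR 0 (by omega)
    unfold Turn at this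
    rw [pv_zero, hnx0] at this
    exact this
  obtain ⟨hT1, hT2⟩ : det3 (q m) (q 0) (q l) < 0 ∧ det3 (q 0) (q 1) (q l) < 0 := by
    rcases hT with ⟨h3, -⟩ | ⟨-, h3, h4, -⟩
    · exact absurd h3 (by linarith)
    · exact ⟨h3, h4⟩
  have hTl : det3 (q (l - 1)) (q l) (q (l + 1)) < 0 := by
    have := hR l hl
    unfold Turn at this
    rw [pv_of_pos (by omega), nx_of_lt (by omega)] at this
    exact this
  have hL : Lv m q l (q 0) = 0 := by
    have h3 := h2 m q hm hG hS 0 l (by omega) hl ⟨by omega, by rw [hnx0]; omega, by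
      rw [nx_of_lt (by omega : l < m)]; omega⟩
    have h4 : N m q (q 0) (q l) = 0 := N_zero hNC
    have h5 : Lv m q 0 (q l) = 0 := by
      unfold Lv
      apply io_neg
      unfold LfAt Lf
      rw [pv_zero, hnx0]
      rintro (⟨h6, -⟩ | ⟨-, h6 | h6⟩)
      · linarith
      · linarith
      · linarith
    rw [h4, h5, zero_add, zero_add] at h3
    exact h3
  have hL2 : ¬ LfAt m q l (q 0) := io_eq_zero.1 hL
  unfold LfAt Lf at hL2
  rw [pv_of_pos (by omega), nx_of_lt (by omega : l < m)] at hL2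
  have hU1 : det3 (q (l - 1)) (q l) (q 0) < 0 := by
    have h3 := hG (l - 1) l 0 (by omega) hl (by omega) (by omega) (by omega) (by omega)
    rcases lt_or_gt_of_ne h3 with h4 | h4
    · exact h4
    · exact absurd (Or.inr ⟨hTl, Or.inl h4⟩) hL2
  have hU2 : det3 (q 0) (q l) (q (l + 1)) < 0 := by
    have h3 := hG l (l + 1) 0 hl hl3 (by omega) (by omega) (by omega) (by omega)
    rw [← det3_cyc (q 0) (q l) (q (l + 1))]
    rcases lt_or_gt_of_ne h3 with h4 | h4
    · exact h4
    · exact absurd (Or.inr ⟨hTl, Or.inr h4⟩) hL2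
  refine ⟨l, hl2, hl3, ?_, ?_, ?_, ?_, ?_, ?_⟩
  · intro i j k hi hj hk
    exact hG i j k (by omega) (by omega) (by omega)
  · intro s t hs ht hst h3 h4
    rcases Nat.lt_or_ge s l with h5 | h5
    · have h6 : nx l s = s + 1 := nx_of_lt h5
      have h6' : nx m s = s + 1 := nx_of_lt (by omega)
      rcases Nat.lt_or_ge t l with h7 | h7
      · have h8 : nx l t = t + 1 := nx_of_lt h7
        have h8' : nx m t = t + 1 := nx_of_lt (by omega)
        rw [h6, h8]
        rw [h6] at h3
        rw [h8] at h4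
        have h9 := hS s t (by omega) (by omega) hst (by rw [h6']; exact h3) (by rw [h8']; exact h4)
        rw [h6', h8'] at h9
        exact h9
      · have h8 : t = l := by omega
        subst h8
        rw [h6, nx_last]
        intro hc
        have h9 := hNC s (by omega)
        rw [h6'] at h9
        exact h9 ((Cr_comm _ _ _ _).1 ((Cr_symm _ _ _ _).1 hc))
    · have h6 : s = l := by omega
      subst h6
      have h7 : t < s := by omega
      have h8 : nx s t = t + 1 := nx_of_lt h7
      have h8' : nx m t = t + 1 := nx_of_lt (by omega)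
      rw [nx_last, h8]
      intro hc
      have h9 := hNC t (by omega)
      rw [h8'] at h9
      exact h9 ((Cr_comm _ _ _ _).1 hc)
  · intro s hs
    unfold Turn
    rcases Nat.eq_zero_or_pos s with h3 | h3
    · subst h3
      rw [pv_zero, nx_of_lt (by omega : 0 < l), ← det3_cyc (q l)]
      exact hT2
    · rw [pv_of_pos h3]
      rcases Nat.lt_or_ge s l with h4 | h4
      · rw [nx_of_lt h4]
        have h5 := hR s (by omega)
        unfold Turn at h5
        rw [pv_of_pos h3, nx_of_lt (by omega)] at h5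
        exact h5
      · have h5 : s = l := by omega
        subst h5
        rw [nx_last]
        exact hU1
  · intro i j k hi hj hk hij hik hjk
    rw [sk_eq, sk_eq, sk_eq]
    exact hG _ _ _ (g_le hl2 hl3 hi) (g_le hl2 hl3 hj) (g_le hl2 hl3 hk)
      (fun h => hij (g_inj hl2 h)) (fun h => hik (g_inj hl2 h)) (fun h => hjk (g_inj hl2 h))
  · have h10 : g l 1 = l := by unfold g; rw [if_neg (by omega)]; omega
    have h11 : nx (m - l + 1) 0 = 1 := nx_of_lt (by omega)
    intro s t hs ht hst h3 h4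
    rw [sk_eq, sk_eq, sk_eq, sk_eq]
    rcases Nat.eq_zero_or_pos s with h5 | h5
    · subst h5
      rw [h11, h10, g_nx hl2 hl3 ht (by omega)]
      exact hNC _ (g_le hl2 hl3 ht)
    · rcases Nat.eq_zero_or_pos t with h6 | h6
      · subst h6
        rw [h11, h10, g_nx hl2 hl3 hs h5]
        intro hc
        exact hNC _ (g_le hl2 hl3 hs) ((Cr_symm _ _ _ _).1 hc)
      · rw [g_nx hl2 hl3 hs h5, g_nx hl2 hl3 ht h6]
        refine hS _ _ (g_le hl2 hl3 hs) (g_le hl2 hl3 ht) (fun h => hst (g_inj hl2 h)) ?_ ?_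
        · rw [← g_nx hl2 hl3 hs h5]
          exact fun h => h3 (g_inj hl2 h)
        · rw [← g_nx hl2 hl3 ht h6]
          exact fun h => h4 (g_inj hl2 h)
  · have h10 : g l 1 = l := by unfold g; rw [if_neg (by omega)]; omega
    have h12 : g l 2 = l + 1 := by unfold g; rw [if_neg (by omega)]; omega
    have h13 : g l 0 = 0 := by unfold g; rw [if_pos rfl]
    have h14 : g l (m - l + 1) = m := by unfold g; rw [if_neg (by omega)]; omega
    have h11 : nx (m - l + 1) 0 = 1 := nx_of_lt (by omega)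
    intro s hs
    unfold Turn
    rw [sk_eq, sk_eq, sk_eq]
    rcases Nat.eq_zero_or_pos s with h5 | h5
    · subst h5
      rw [pv_zero, h11, h10, h13, h14]
      exact hT1
    · rcases Nat.eq_or_lt_of_le h5 with h6 | h6
      · have h7 : s = 1 := by omega
        subst h7
        rw [pv_of_pos (by omega : 0 < 1), nx_of_lt (by omega : 1 < m - l + 1), Nat.sub_self, h13,
          h10, h12]
        exact hU2
      · rw [g_nx hl2 hl3 hs h5, g_pv hl2 hl3 hs h6]
        exact hR _ (g_le hl2 hl3 hs)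

end Pool.Agent.TSE
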