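import Pool.Agent.TSE.Stmts

/-!
# TSE: module CV (a simple polygon with right turns only is convex)
-/

set_option autoImplicit false

namespace Pool.Agent.TSE

open Pool.Agent.TSM

namespace CV_

theorem conv2 (q : ℕ → E3) (h : det3 (q 0) (q 1) (q 2) < 0) : Conv 2 q := by
  intro s t hs ht h1 h2
  have hn0 : nx 2 0 = 1 := by simp [nx]
  have hn1 : nx 2 1 = 2 := by simp [nx]
  have hn2 : nx 2 2 = 0 := by simp [nx]
  interval_cases s
  · rw [hn0] at h2 ⊢
    have h3 : t = 2 := by omega
    rw [h3]; exact h
  · rw [hn1] at h2 ⊢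
    have h3 : t = 0 := by omega
    rw [h3, det3_cyc (q 0) (q 1) (q 2)]; exact h
  · rw [hn2] at h2 ⊢
    have h3 : t = 1 := by omega
    rw [h3, det3_cyc2 (q 0) (q 1) (q 2)]; exact h

end CV_

open CV_ in
theorem cv_proof (hROT : Stmt_ROT) (hCTA : Stmt_CTA) (hCTB : Stmt_CTB) (hUN : Stmt_UN) :
    Stmt_CV := by
  intro m
  induction m using Nat.strong_induction_on with
  | _ m ih =>
    intro q hm hG hS hR
    rcases Nat.lt_or_ge m 3 with h3 | h3
    · have h4 : m = 2 := by omega
      subst h4
      apply conv2 q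
      have h5 := hR 1 (by omega)
      unfold Turn at h5
      rw [pv_of_pos (by omega), nx_of_lt (by omega)] at h5
      exact h5
    · by_cases hE : Ear m q 0
      · obtain ⟨r1, r2, r3, _, r5, r6, r7⟩ := hROT m m q
        have hE1 : Ear m (rot m m q) 1 := by
          apply (r7 1 (by omega)).2
          rw [show (1 + m) % (m + 1) = 0 by rw [Nat.add_comm 1 m]; exact Nat.mod_self _]
          exact hE
        obtain ⟨a1, a2, a3⟩ := hCTA m _ h3 (r1 hG) (r2 hS) (r3 hR) hE1
        have c1 := ih (m - 1) (by omega) (sk 2 (rot m m q)) (by omega) a1 a2 a3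
        have c2 : Conv 2 (rot m m q) := by
          apply conv2
          have h5 := r3 hR 1 (by omega)
          unfold Turn at h5
          rw [pv_of_pos (by omega), nx_of_lt (by omega)] at h5
          exact h5
        apply r5
        refine hUN m 2 _ (le_refl 2) (by omega) c2 ?_ (r3 hR 0 (by omega)) (r3 hR 2 (by omega))
        rw [show m - 2 + 1 = m - 1 by omega]
        exact c1
      · obtain ⟨l, h1, h2, a1, a2, a3, b1, b2, b3⟩ := hCTB m q h3 hG hS hR hE
        exact hUN m l q h1 h2 (ih l (by omega) q h1 a1 a2 a3)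
          (ih (m - l + 1) (by omega) (sk l q) (by omega) b1 b2 b3) (hR 0 (by omega))
          (hR l (by omega))

end Pool.Agent.TSE
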