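import Pool.Agent.TSM.VDefs

/-!
# TSE: ears of spherical polygons (Part EL of TSM, MP_89ee87_gt): definitions

A closed polygon with `m + 1` vertices is a function `q : ℕ → E3` of which only the values
`q 0, …, q m` matter; `nx m s` and `pv m s` are the next and the previous index.
All parities take values in `ZMod 2`.
-/

set_option autoImplicit false

namespace Pool.Agent.TSE

open Pool.Agent.TSM

/-- the indicator of a proposition in `ZMod 2` -/
noncomputable def io (P : Prop) : ZMod 2 := open Classical in if P then 1 else 0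

/-- the open arcs `x y` and `a b` cross -/
def Cr (x y a b : E3) : Prop :=
  (0 < det3 a b x ∧ det3 a b y < 0 ∧ 0 < det3 x y b ∧ det3 x y a < 0) ∨
  (det3 a b x < 0 ∧ 0 < det3 a b y ∧ det3 x y b < 0 ∧ 0 < det3 x y a)

/-- `x` lies in the open triangle (cone) `a b c` -/
def Tri (a b c x : E3) : Prop :=
  (0 < det3 a b c ∧ 0 < det3 a b x ∧ 0 < det3 b c x ∧ 0 < det3 c a x) ∨
  (det3 a b c < 0 ∧ det3 a b x < 0 ∧ det3 b c x < 0 ∧ det3 c a x < 0)

/-- at `v` the direction `y` is strictly between the directions `b` and `c` (angle `< π`) -/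
def Btw (v b y c : E3) : Prop :=
  (0 < det3 v b y ∧ 0 < det3 v y c ∧ 0 < det3 v b c) ∨
  (det3 v b y < 0 ∧ det3 v y c < 0 ∧ det3 v b c < 0)

/-- at the vertex `v` of the path `a, v, b` the direction `y` points to the left -/
def Lf (a v b y : E3) : Prop :=
  (0 < det3 a v b ∧ 0 < det3 a v y ∧ 0 < det3 v b y) ∨
  (det3 a v b < 0 ∧ (0 < det3 a v y ∨ 0 < det3 v b y))

/-- next index -/
def nx (m s : ℕ) : ℕ := if s = m then 0 else s + 1

/-- previous index -/
def pv (m s : ℕ) : ℕ := if s = 0 then m else s - 1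

/-- generic polygon -/
def Gen (m : ℕ) (q : ℕ → E3) : Prop :=
  ∀ i j k, i ≤ m → j ≤ m → k ≤ m → i ≠ j → i ≠ k → j ≠ k → det3 (q i) (q j) (q k) ≠ 0

/-- `y` is generic with respect to the polygon -/
def GenP (m : ℕ) (q : ℕ → E3) (y : E3) : Prop :=
  ∀ i j, i ≤ m → j ≤ m → i ≠ j → det3 (q i) (q j) y ≠ 0

/-- simple polygon: sides without common end point do not cross -/
def Simp (m : ℕ) (q : ℕ → E3) : Prop :=
  ∀ s t, s ≤ m → t ≤ m → s ≠ t → t ≠ nx m s → s ≠ nx m t →
    ¬ Cr (q s) (q (nx m s)) (q t) (q (nx m t))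

/-- the arc from the vertex `i` to the vertex `j` crosses no side -/
def NC (m : ℕ) (q : ℕ → E3) (i j : ℕ) : Prop :=
  ∀ t, t ≤ m → ¬ Cr (q i) (q j) (q t) (q (nx m t))

/-- parity of the number of sides crossed by the arc `x y` -/
noncomputable def N (m : ℕ) (q : ℕ → E3) (x y : E3) : ZMod 2 :=
  ∑ t ∈ Finset.range (m + 1), io (Cr x y (q t) (q (nx m t)))

/-- `y` points to the left at the vertex `s` -/
def LfAt (m : ℕ) (q : ℕ → E3) (s : ℕ) (y : E3) : Prop := Lf (q (pv m s)) (q s) (q (nx m s)) y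

/-- indicator of `LfAt` -/
noncomputable def Lv (m : ℕ) (q : ℕ → E3) (s : ℕ) (y : E3) : ZMod 2 := io (LfAt m q s y)

/-- the turn at the vertex `s` -/
def Turn (m : ℕ) (q : ℕ → E3) (s : ℕ) : ℝ := det3 (q (pv m s)) (q s) (q (nx m s))

/-- `x` lies in the open triangle at the vertex `s` -/
def TriAt (m : ℕ) (q : ℕ → E3) (s : ℕ) (x : E3) : Prop := Tri (q (pv m s)) (q s) (q (nx m s)) x

/-- the polygon is convex and runs clockwise -/
def Conv (m : ℕ) (q : ℕ → E3) : Prop :=
  ∀ s t, s ≤ m → t ≤ m → t ≠ s → t ≠ nx m s → det3 (q s) (q (nx m s)) (q t) < 0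

/-- all turns are right turns -/
def RT (m : ℕ) (q : ℕ → E3) : Prop := ∀ s, s ≤ m → Turn m q s < 0

/-- the vertex `k` is an ear -/
def Ear (m : ℕ) (q : ℕ → E3) (k : ℕ) : Prop := ∀ j, j ≤ m → ¬ TriAt m q k (q j)

/-- balanced polygon -/
def Bal (m : ℕ) (q : ℕ → E3) : Prop :=
  ∀ ν : E3, ν ≠ 0 → ∃ i, i ≤ m ∧ 0 < (inner ℝ ν (q i) : ℝ)

/-- the sub-polygon which starts at `i` -/
def sub (i : ℕ) (q : ℕ → E3) (t : ℕ) : E3 := q (i + t)

/-- the polygon `q 0, q l, q (l + 1), …` -/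
def sk (l : ℕ) (q : ℕ → E3) (t : ℕ) : E3 := if t = 0 then q 0 else q (l + t - 1)

/-- the polygon rotated by `k` -/
def rot (m k : ℕ) (q : ℕ → E3) (t : ℕ) : E3 := q ((t + k) % (m + 1))

/-- left diagonal `(i, j)` (or the closing side `(0, m)`) -/
def LD (m : ℕ) (p : ℕ → E3) (i j : ℕ) : Prop :=
  (i = 0 ∧ j = m) ∨ (NC m p i j ∧ LfAt m p i (p j) ∧ LfAt m p j (p i))

/-- contribution of the side `c d` to the parity of the triangle `x y z` -/
noncomputable def Fv (x y z c d : E3) : ZMod 2 :=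
  io (Cr x y c d) + io (Cr y z c d) + io (Cr z x c d) + (io (Tri x y z c) + io (Tri x y z d))

/-- four vectors in general position -/
def G4 (x y z d : E3) : Prop :=
  det3 x y z ≠ 0 ∧ det3 x y d ≠ 0 ∧ det3 y z d ≠ 0 ∧ det3 z x d ≠ 0

/-- `x` lies in the triangle `a v b` closer to `v` than `z` -/
def Up (a v b z x : E3) : Prop :=
  Tri a v b x ∧ det3 a z b * (det3 x v b + det3 a v x) < det3 a x b * (det3 z v b + det3 a v z)

/-- `x` is generic with respect to the sides of the triangle at `v` (or equal to `a` or `b`) -/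
def Ndg (a v b x : E3) : Prop := (det3 x v b = 0 → x = b) ∧ (det3 a v x = 0 → x = a)

/-- the vertices `i` and `j` are different and not neighbours -/
def Nad (m i j : ℕ) : Prop := i ≠ j ∧ j ≠ nx m i ∧ i ≠ nx m j

/-! ## translation to `Pg` -/

section

variable {V : Type} [DecidableEq V]

/-- `f 0, …, f m` lists the vertices of `L` in cyclic order -/
structure Enu (L : Pg V) (m : ℕ) (f : ℕ → V) : Prop where
  card : m + 1 = L.S.card
  mem : ∀ t, t ≤ m → f t ∈ L.S
  inj : ∀ s t, s ≤ m → t ≤ m → f s = f t → s = t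
  surj : ∀ i ∈ L.S, ∃ t, t ≤ m ∧ f t = i
  suc : ∀ t, t ≤ m → L.s (f t) = f (nx m t)

/-- data of a corner: `m0` is the flat vertex, `q0` the vertex before it -/
structure Cor (L : Pg V) (m0 q0 : V) (a b σ : ℝ) : Prop where
  hm : m0 ∈ L.S
  hq : q0 ∈ L.S
  hs : L.s q0 = m0
  ha : 0 < a
  hb : 0 < b
  flat : a • L.p q0 + b • L.p (L.s m0) + L.p m0 = 0
  hσ : σ = 1 ∨ σ = -1
  neg : ∀ i ∈ L.S, i ≠ q0 → i ≠ m0 → i ≠ L.s m0 → σ * (inner ℝ (L.nor m0) (L.p i) : ℝ) < 0

/-- the flat vertex is moved orthogonally to the flat plane; closed type -/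
noncomputable def pert (L : Pg V) (m0 : V) (r : ℝ) : Pg V where
  S := L.S
  s := L.s
  p := Function.update L.p m0 (L.p m0 + r • L.nor m0)
  X := none

end

end Pool.Agent.TSE
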