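import Pool.Agent.TSE.Stmts

set_option autoImplicit false

/-!
# TSE, module EMA: an empty left triangle at the start of a left diagonal
-/

namespace Pool.Agent.TSE

open Pool.Agent.TSM

namespace EMA_

theorem btw_false (h2 : Stmt_LTV) {m : ℕ} {p : ℕ → E3} (hG : Gen m p) {a b c y : ℕ}
    (ha : a ≤ m) (hb : b ≤ m) (hc : c ≤ m) (hy : y ≤ m) (hab : a ≠ b) (hac : a ≠ c)
    (hay : a ≠ y) (hbc : b ≠ c) (hby : b ≠ y) (hcy : c ≠ y)
    (hCr : ¬ Cr (p a) (p y) (p b) (p c)) (hTri : ¬ Tri (p a) (p b) (p c) (p y)) :
    ¬ Btw (p a) (p b) (p y) (p c) := by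
  have h := h2 (p a) (p b) (p c) (p y) (hG a b c ha hb hc hab hac hbc)
    (hG a b y ha hb hy hab hay hby) (hG b c y hb hc hy hbc hby hcy)
    (hG c a y hc ha hy hac.symm hcy hay)
  rw [io_neg hCr, io_neg hTri, add_zero] at h
  exact io_eq_zero.1 h.symm

theorem lf_of_btw2 (h3 : Stmt_W2) {a v b y : E3} (h : det3 a v b ≠ 0) (h' : det3 a v y ≠ 0)
    (hp : 0 < det3 v b y) (hb : ¬ Btw v b a y) : Lf a v b y := by
  have h1 := h3.2.1 a v b y h h' hp.ne'
  rw [io_pos hp, io_neg hb, add_zero] at h1
  exact io_eq_one.1 h1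

theorem btw_of_lf2 (h3 : Stmt_W2) {a v b y : E3} (h : det3 a v b ≠ 0) (h' : det3 a v y ≠ 0)
    (hp : 0 < det3 v b y) (hb : Lf a v b y) : ¬ Btw v b a y := by
  have h1 := h3.2.1 a v b y h h' hp.ne'
  rw [io_pos hp, io_pos hb] at h1
  have h2 : io (Btw v b a y) = 0 := by
    revert h1
    generalize io (Btw v b a y) = z
    revert z
    decide
  exact io_eq_zero.1 h2

theorem lf_of_btw3 (h3 : Stmt_W2) {a v b y : E3} (h : det3 a v b ≠ 0) (h' : det3 v b y ≠ 0)
    (hp : 0 < det3 a v y) (hb : ¬ Btw v a b y) : Lf a v b y := by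
  have h1 := h3.2.2.1 a v b y h hp.ne' h'
  rw [io_pos hp, io_neg hb, add_zero] at h1
  exact io_eq_one.1 h1

end EMA_

open EMA_ in
theorem ema_proof (h1 : Stmt_LT) (h2 : Stmt_LTV) (h3 : Stmt_W2) : Stmt_EMA := by
  intro m p i j hG hS hij hjm hLD hpos hEmp
  have him : i ≤ m := by omega
  have him1 : i + 1 ≤ m := by omega
  have him2 : i + 2 ≤ m := by omega
  have hni : nx m i = i + 1 := nx_of_lt (by omega)
  have hni1 : nx m (i + 1) = i + 2 := nx_of_lt (by omega)
  have hpi1 : pv m (i + 1) = i := by rw [pv_of_pos (by omega)]; omega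
  have hpj : pv m j = j - 1 := pv_of_pos (by omega)
  have hnj1 : nx m (j - 1) = j := by rw [nx_of_lt (by omega)]; omega
  -- the diagonal is not crossed by sides disjoint from it
  have hdiag : ∀ t, t ≤ m → t ≠ i → t ≠ j → nx m t ≠ i → nx m t ≠ j →
      ¬ Cr (p i) (p j) (p t) (p (nx m t)) := by
    intro t ht h4 h5 h6 h7
    rcases hLD with ⟨hi0, hjm'⟩ | ⟨hNC, _, _⟩
    · intro hc
      have h8 := hS m t le_rfl ht (by omega) (by rw [nx_last, ← hi0]; exact h4) (by omega)
      have h9 : p (nx m m) = p i := by rw [nx_last, hi0]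
      have h10 : p m = p j := by rw [hjm']
      rw [h9, h10, Cr_comm] at h8
      exact h8 hc
    · exact hNC t ht
  have hposc : 0 < det3 (p i) (p (i + 1)) (p j) := by rw [← det3_cyc2]; exact hpos
  have hE1 : ∀ l, l ≤ m → ¬ Tri (p i) (p (i + 1)) (p j) (p l) := by
    intro l hl h
    exact hEmp l hl ((Tri_cyc _ _ _ _).2 h)
  have hE2 : ∀ l, l ≤ m → ¬ Tri (p i) (p j) (p (i + 1)) (p l) := by
    intro l hl h
    exact hEmp l hl ((Tri_swap _ _ _ _).1 h)
  have hE3 : ∀ l, l ≤ m → ¬ Tri (p (i + 1)) (p i) (p j) (p l) := by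
    intro l hl h
    exact hE1 l hl ((Tri_swap _ _ _ _).1 h)
  right
  refine ⟨?_, ?_, ?_⟩
  · -- NC
    intro t ht
    by_cases c1 : t = i + 1
    · rw [c1]; exact Cr_left _ _ _
    by_cases c2 : t = j
    · rw [c2]; exact Cr_right _ _ _
    by_cases c3 : nx m t = i + 1
    · rw [c3]; exact Cr_left' _ _ _
    by_cases c4 : nx m t = j
    · rw [c4]; exact Cr_right' _ _ _
    have c5 : t ≠ i := by
      intro h; rw [h] at c3; exact c3 hni
    by_cases c6 : nx m t = i
    · -- the side before i
      rcases hLD with ⟨hi0, hjm'⟩ | ⟨hNC, hLf, _⟩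
      · exfalso
        have h4 : t = m := by
          rw [← pv_nx ht, c6, hi0, pv_zero]
        exact c2 (by rw [h4, hjm'])
      · have hpt : pv m i = t := by rw [← c6, pv_nx ht]
        have hLf' : Lf (p t) (p i) (p (i + 1)) (p j) := by
          have h4 := hLf
          unfold LfAt at h4
          rw [hpt, hni] at h4
          exact h4
        have hb := btw_of_lf2 h3 (hG t i (i + 1) ht him him1 c5 c1 (by omega))
          (hG t i j ht him hjm c5 c2 (by omega)) hposc hLf'
        have hb' : ¬ Btw (p i) (p j) (p t) (p (i + 1)) := fun h => hb ((Btw_symm _ _ _ _).1 h)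
        have h5 := h2 (p i) (p j) (p (i + 1)) (p t)
          (hG i j (i + 1) him hjm him1 (by omega) (by omega) (by omega))
          (hG i j t him hjm ht (by omega) c5.symm (Ne.symm c2))
          (hG j (i + 1) t hjm him1 ht (by omega) (Ne.symm c2) (Ne.symm c1))
          (hG (i + 1) i t him1 him ht (by omega) (Ne.symm c1) c5.symm)
        rw [io_neg hb', io_neg (hE2 t ht), add_zero] at h5
        have h6 := io_eq_zero.1 h5
        rw [c6]
        intro h7
        apply h6
        rw [Cr_symm, Cr_comm, Cr_comm2] at h7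
        exact h7
    · -- general side
      have hnt : nx m t ≤ m := nx_le ht
      have htn : t ≠ nx m t := by
        intro h
        exact nx_ne (m := m) (by omega) ht h.symm
      have h5 := h1 (p i) (p (i + 1)) (p j) (p t) (p (nx m t))
        (hG i (i + 1) j him him1 hjm (by omega) (by omega) (by omega))
        (hG i (i + 1) t him him1 ht (by omega) c5.symm (Ne.symm c1))
        (hG (i + 1) j t him1 hjm ht (by omega) (Ne.symm c1) (Ne.symm c2))
        (hG j i t hjm him ht (by omega) (Ne.symm c2) c5.symm)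
        (hG i (i + 1) (nx m t) him him1 hnt (by omega) (Ne.symm c6) (Ne.symm c3))
        (hG (i + 1) j (nx m t) him1 hjm hnt (by omega) (Ne.symm c3) (Ne.symm c4))
        (hG j i (nx m t) hjm him hnt (by omega) (Ne.symm c4) (Ne.symm c6))
        (hG t (nx m t) i ht hnt him htn c5 c6)
        (hG t (nx m t) (i + 1) ht hnt him1 htn c1 c3)
        (hG t (nx m t) j ht hnt hjm htn c2 c4)
      have h6 : ¬ Cr (p t) (p (nx m t)) (p i) (p (i + 1)) := by
        have h7 := hS t i ht him c5 (Ne.symm c6) (by rw [hni]; exact c1)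
        rw [hni] at h7
        exact h7
      have h7 : ¬ Cr (p t) (p (nx m t)) (p j) (p i) := by
        intro h
        rw [Cr_symm, Cr_comm] at h
        exact hdiag t ht c5 c2 c6 c4 h
      rw [io_neg h6, io_neg h7, io_neg (hE1 t ht), io_neg (hE1 _ hnt), zero_add, add_zero,
        add_zero] at h5
      intro h
      exact io_eq_zero.1 h5 ((Cr_symm _ _ _ _).1 h)
  · -- LfAt at i + 1
    unfold LfAt
    rw [hpi1, hni1]
    refine lf_of_btw3 h3 (hG i (i + 1) (i + 2) him him1 him2 (by omega) (by omega) (by omega))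
      (hG (i + 1) (i + 2) j him1 him2 hjm (by omega) (by omega) (by omega)) hposc ?_
    refine btw_false h2 hG him1 him hjm him2 (by omega) (by omega) (by omega) (by omega)
      (by omega) (by omega) ?_ (hE3 _ him2)
    intro h
    rw [Cr_symm] at h
    have h4 := hdiag (i + 1) him1 (by omega) (by omega) (by rw [hni1]; omega)
      (by rw [hni1]; omega)
    rw [hni1] at h4
    exact h4 h
  · -- LfAt at j
    rcases hLD with ⟨hi0, hjm'⟩ | ⟨hNC, _, hLf⟩
    · unfold LfAt
      have hnj : nx m j = i := by rw [hjm', nx_last, hi0]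
      rw [hpj, hnj]
      have hj1 : j - 1 ≤ m := by omega
      refine lf_of_btw2 h3 (hG (j - 1) j i hj1 hjm him (by omega) (by omega) (by omega))
        (hG (j - 1) j (i + 1) hj1 hjm him1 (by omega) (by omega) (by omega)) hpos ?_
      refine btw_false h2 hG hjm him him1 hj1 (by omega) (by omega) (by omega) (by omega)
        (by omega) (by omega) ?_ (hEmp _ hj1)
      intro h
      have h4 := hS (j - 1) i hj1 him (by omega) (by rw [hnj1]; omega) (by rw [hni]; omega)
      rw [hnj1, hni] at h4
      exact h4 ((Cr_comm _ _ _ _).1 h)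
    · unfold LfAt at hLf ⊢
      rw [hpj] at hLf ⊢
      have hj1 : j - 1 ≤ m := by omega
      have hnj : nx m j ≤ m := nx_le hjm
      by_cases cw : i = 0 ∧ j = m
      · -- the whole case
        obtain ⟨hi0, hjm'⟩ := cw
        have hnj' : nx m j = i := by rw [hjm', nx_last, hi0]
        rw [hnj']
        refine lf_of_btw2 h3 (hG (j - 1) j i hj1 hjm him (by omega) (by omega) (by omega))
          (hG (j - 1) j (i + 1) hj1 hjm him1 (by omega) (by omega) (by omega)) hpos ?_
        refine btw_false h2 hG hjm him him1 hj1 (by omega) (by omega) (by omega) (by omega)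
          (by omega) (by omega) ?_ (hEmp _ hj1)
        intro h
        have h4 := hS (j - 1) i hj1 him (by omega) (by rw [hnj1]; omega) (by rw [hni]; omega)
        rw [hnj1, hni] at h4
        exact h4 ((Cr_comm _ _ _ _).1 h)
      · have e1 : nx m j ≠ i := by
          intro h
          rcases Nat.lt_or_ge j m with h4 | h4
          · rw [nx_of_lt h4] at h; omega
          · have h5 : j = m := by omega
            rw [h5, nx_last] at h
            exact cw ⟨h.symm, h5⟩
        have e2 : nx m j ≠ i + 1 := by
          intro h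
          rcases Nat.lt_or_ge j m with h4 | h4
          · rw [nx_of_lt h4] at h; omega
          · have h5 : j = m := by omega
            rw [h5, nx_last] at h
            omega
        have e3 : nx m j ≠ j := nx_ne (by omega) hjm
        have e4 : nx m j ≠ j - 1 := by
          rw [← hpj]
          exact nx_ne_pv (by omega) hjm
        have h4 := h3.1 (p (j - 1)) (p j) (p (nx m j)) (p i) (p (i + 1))
          (hG j (j - 1) (nx m j) hjm hj1 hnj (by omega) e3.symm e4.symm)
          (hG j (j - 1) i hjm hj1 him (by omega) (by omega) (by omega))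
          (hG j (j - 1) (i + 1) hjm hj1 him1 (by omega) (by omega) (by omega))
          (hG j (nx m j) i hjm hnj him e3.symm (by omega) e1)
          (hG j (nx m j) (i + 1) hjm hnj him1 e3.symm (by omega) e2)
          (hG j i (i + 1) hjm him him1 (by omega) (by omega) (by omega))
        have b1 : ¬ Btw (p j) (p i) (p (j - 1)) (p (i + 1)) := by
          refine btw_false h2 hG hjm him him1 hj1 (by omega) (by omega) (by omega) (by omega)
            (by omega) (by omega) ?_ (hEmp _ hj1)
          intro h
          have h5 := hS (j - 1) i hj1 him (by omega) (by rw [hnj1]; omega) (by rw [hni]; omega)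
          rw [hnj1, hni] at h5
          exact h5 ((Cr_comm _ _ _ _).1 h)
        have b2 : ¬ Btw (p j) (p i) (p (nx m j)) (p (i + 1)) := by
          refine btw_false h2 hG hjm him him1 hnj (by omega) (by omega) e3.symm (by omega)
            e1.symm e2.symm ?_ (hEmp _ hnj)
          intro h
          have h5 := hS j i hjm him (by omega) e1.symm (by rw [hni]; omega)
          rw [hni] at h5
          exact h5 h
        rw [io_neg b1, io_neg b2, add_zero, io_pos hLf] at h4
        have h5 : io (Lf (p (j - 1)) (p j) (p (nx m j)) (p (i + 1))) = 1 := by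
          revert h4
          generalize io (Lf (p (j - 1)) (p j) (p (nx m j)) (p (i + 1))) = z
          revert z
          decide
        exact io_eq_one.1 h5

end Pool.Agent.TSE
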