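import Pool.Agent.TSE.Stmts

set_option autoImplicit false

/-!
# ENU: cyclic enumeration
-/

namespace Pool.Agent.TSE

open Pool.Agent.TSM

theorem enu_proof : Stmt_ENU := by
  intro V _ L hL
  have hne : L.S.Nonempty := by
    rw [← Finset.card_pos]
    have := hL.card
    omega
  obtain ⟨i₀, hi₀⟩ := hne
  have hmem : ∀ t : ℕ, L.s^[t] i₀ ∈ L.S := by
    intro t
    induction t with
    | zero => exact hi₀
    | succ t ih =>
      rw [Function.iterate_succ_apply']
      exact hL.maps _ ih
  have hper : i₀ ∈ Function.periodicPts L.s := by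
    obtain ⟨k, hk⟩ := hL.trans (L.s i₀) (hL.maps _ hi₀) i₀ hi₀
    refine Function.mk_mem_periodicPts (Nat.succ_pos k) ?_
    show L.s^[k + 1] i₀ = i₀
    rw [Function.iterate_succ_apply]
    exact hk
  set P := Function.minimalPeriod L.s i₀ with hP
  have hPpos : 0 < P := Function.minimalPeriod_pos_of_mem_periodicPts hper
  have hinj : ∀ s t, s < P → t < P → L.s^[s] i₀ = L.s^[t] i₀ → s = t := by
    intro s t hs ht h
    exact Function.iterate_injOn_Iio_minimalPeriod (f := L.s) (x := i₀) hs ht h
  have hsurj : ∀ i ∈ L.S, ∃ t, t < P ∧ L.s^[t] i₀ = i := by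
    intro i hi
    obtain ⟨k, hk⟩ := hL.trans i₀ hi₀ i hi
    refine ⟨k % P, Nat.mod_lt _ hPpos, ?_⟩
    rw [hP, Function.iterate_mod_minimalPeriod_eq]
    exact hk
  have hcard : P = L.S.card := by
    have h1 : L.S = (Finset.range P).image (fun t => L.s^[t] i₀) := by
      ext i
      constructor
      · intro hi
        obtain ⟨t, ht, h⟩ := hsurj i hi
        exact Finset.mem_image.2 ⟨t, Finset.mem_range.2 ht, h⟩
      · intro hi
        obtain ⟨t, _, h⟩ := Finset.mem_image.1 hi
        rw [← h]
        exact hmem t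
    rw [h1, Finset.card_image_of_injOn, Finset.card_range]
    intro s hs t ht h
    exact hinj s t (Finset.mem_range.1 (Finset.mem_coe.1 hs))
      (Finset.mem_range.1 (Finset.mem_coe.1 ht)) h
  obtain ⟨m, hm⟩ : ∃ m, P = m + 1 := ⟨P - 1, by omega⟩
  refine ⟨m, fun t => L.s^[t] i₀, ?_⟩
  refine
    { card := by omega
      mem := fun t _ => hmem t
      inj := fun s t hs ht h => hinj s t (by omega) (by omega) h
      surj := ?_
      suc := ?_ }
  · intro i hi
    obtain ⟨t, ht, h⟩ := hsurj i hi
    exact ⟨t, by omega, h⟩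
  · intro t ht
    show L.s (L.s^[t] i₀) = L.s^[nx m t] i₀
    rw [← Function.iterate_succ_apply' L.s]
    unfold nx
    by_cases h : t = m
    · rw [if_pos h, h]
      show L.s^[m + 1] i₀ = i₀
      rw [← hm]
      exact Function.iterate_minimalPeriod
    · rw [if_neg h]

end Pool.Agent.TSE
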