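import Pool.Agent.TSE.Stmts

/-!
# TSE: module ERC (the cyclic structure after cutting off a vertex)
-/

set_option autoImplicit false

namespace Pool.Agent.TSE.ERC_

open Pool.Agent.TSM

variable {V : Type} [DecidableEq V]

theorem mem_erase {L : Pg V} {κ i : V} : i ∈ (L.erase κ).S ↔ i ≠ κ ∧ i ∈ L.S := by
  simp only [Pg.erase, Finset.mem_erase]

theorem s_eq {L : Pg V} {κ i : V} (h : L.s i = κ) : (L.erase κ).s i = L.s κ := by
  simp only [Pg.erase, if_pos h]

theorem s_ne {L : Pg V} {κ i : V} (h : L.s i ≠ κ) : (L.erase κ).s i = L.s i := by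
  simp only [Pg.erase, if_neg h]

theorem maps {L : Pg V} {κ : V} (hL : L.Ok) (hκ : κ ∈ L.S) :
    ∀ i ∈ (L.erase κ).S, (L.erase κ).s i ∈ (L.erase κ).S := by
  intro i hi
  rw [mem_erase] at hi ⊢
  by_cases h : L.s i = κ
  · rw [s_eq h]
    refine ⟨?_, hL.maps κ hκ⟩
    intro h2
    exact hi.1 (hL.inj i hi.2 κ hκ (h.trans h2.symm))
  · rw [s_ne h]
    exact ⟨h, hL.maps i hi.2⟩

theorem inj {L : Pg V} {κ : V} (hL : L.Ok) (hκ : κ ∈ L.S) :
    ∀ i ∈ (L.erase κ).S, ∀ j ∈ (L.erase κ).S,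
      (L.erase κ).s i = (L.erase κ).s j → i = j := by
  intro i hi j hj hij
  rw [mem_erase] at hi hj
  by_cases h1 : L.s i = κ
  · by_cases h2 : L.s j = κ
    · exact hL.inj i hi.2 j hj.2 (h1.trans h2.symm)
    · rw [s_eq h1, s_ne h2] at hij
      exact absurd (hL.inj κ hκ j hj.2 hij).symm hj.1
  · by_cases h2 : L.s j = κ
    · rw [s_ne h1, s_eq h2] at hij
      exact absurd (hL.inj i hi.2 κ hκ hij) hi.1
    · rw [s_ne h1, s_ne h2] at hij
      exact hL.inj i hi.2 j hj.2 hij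

theorem trans_aux {L : Pg V} {κ : V} (hL : L.Ok) (hκ : κ ∈ L.S) (j : V) (hj : j ≠ κ) :
    ∀ m : ℕ, ∀ i ∈ (L.erase κ).S, L.s^[m] i = j → ∃ m' : ℕ, (L.erase κ).s^[m'] i = j := by
  intro m
  induction m using Nat.strong_induction_on with
  | _ m ih =>
    intro i hi hm
    match m, ih, hm with
    | 0, _, hm => exact ⟨0, hm⟩
    | n + 1, ih, hm =>
      rw [Function.iterate_succ_apply] at hm
      by_cases h : L.s i = κ
      · rw [h] at hm
        match n, ih, hm with
        | 0, _, hm => exact absurd hm.symm hj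
        | n' + 1, ih, hm =>
          rw [Function.iterate_succ_apply, ← s_eq h] at hm
          obtain ⟨m', hm'⟩ := ih n' (by omega) _ (maps hL hκ i hi) hm
          exact ⟨m' + 1, by rw [Function.iterate_succ_apply]; exact hm'⟩
      · rw [← s_ne h] at hm
        obtain ⟨m', hm'⟩ := ih n (by omega) _ (maps hL hκ i hi) hm
        exact ⟨m' + 1, by rw [Function.iterate_succ_apply]; exact hm'⟩

end Pool.Agent.TSE.ERC_

namespace Pool.Agent.TSE

open Pool.Agent.TSM

open ERC_ in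
/-- ERC. -/
theorem erc_proof : Stmt_ERC := by
  intro V _ L κ hL hcard hκ
  refine ⟨maps hL hκ, inj hL hκ, ?_, ?_⟩
  · intro i hi j hj
    have hj' := ERC_.mem_erase.1 hj
    have hi' := ERC_.mem_erase.1 hi
    obtain ⟨m, hm⟩ := hL.trans i hi'.2 j hj'.2
    exact trans_aux hL hκ j hj'.1 m i hi hm
  · have h1 : (L.erase κ).S = L.S.erase κ := rfl
    rw [h1, Finset.card_erase_of_mem hκ]
    omega

end Pool.Agent.TSE
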