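import Pool.Agent.TSE.Stmts

set_option autoImplicit false

/-!
# TSE, FAC: intersection of two faces
-/

namespace Pool.Agent.TSE

open Pool.Agent.TSM

theorem fac_proof (h1 : Stmt_CRX) : Stmt_FAC := by
  constructor
  · intro a b c d α β γ δ hab hab' hcd hcd' hcr hα hβ hγ hδ he
    rcases hα.eq_or_lt with h0 | hα'
    · have h2 : γ • c + δ • d + (-β) • b = 0 := by
        rw [← he, ← h0]
        module
      obtain ⟨_, _, h3⟩ := indep3 c d b hcd' h2
      have h4 : β = 0 := by linarith
      rw [← h0, h4]
      module
    rcases hβ.eq_or_lt with h0 | hβ'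
    · have h2 : γ • c + δ • d + (-α) • a = 0 := by
        rw [← he, ← h0]
        module
      obtain ⟨_, _, h3⟩ := indep3 c d a hcd h2
      have h4 : α = 0 := by linarith
      rw [← h0, h4]
      module
    rcases hγ.eq_or_lt with h0 | hγ'
    · have h2 : α • a + β • b + (-δ) • d = 0 := by
        rw [he, ← h0]
        module
      obtain ⟨h3, h4, _⟩ := indep3 a b d hab' h2
      rw [h3, h4]
      module
    rcases hδ.eq_or_lt with h0 | hδ'
    · have h2 : α • a + β • b + (-γ) • c = 0 := by
        rw [he, ← h0]
        module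
      obtain ⟨h3, h4, _⟩ := indep3 a b c hab h2
      rw [h3, h4]
      module
    exact absurd (h1.2 a b c d α β γ δ hα' hβ' hγ' hδ' he hab hcd) hcr
  · intro a b d α β γ δ hab he
    have h2 : α • a + (β - γ) • b + (-δ) • d = 0 := by
      have h3 : α • a + (β - γ) • b + (-δ) • d = (α • a + β • b) - (γ • b + δ • d) := by module
      rw [h3, he, sub_self]
    obtain ⟨h4, _, h5⟩ := indep3 a b d hab h2
    have h6 : δ = 0 := by linarith
    rw [h4, h6]
    constructor <;> module

end Pool.Agent.TSE
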