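import Pool.Agent.TSE.Stmts

/-!
# TSE: module FOUR (four ears)
-/

set_option autoImplicit false

namespace Pool.Agent.TSE

open Pool.Agent.TSM

namespace FOUR_

theorem gen_neg {m : ℕ} {p : ℕ → E3} (h : Gen m p) : Gen m (fun t => -(p t)) := by
  intro i j k hi hj hk hij hik hjk
  rw [det3_neg]
  exact neg_ne_zero.2 (h i j k hi hj hk hij hik hjk)

theorem simp_neg {m : ℕ} {p : ℕ → E3} (h : Simp m p) : Simp m (fun t => -(p t)) := by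
  intro s t hs ht h1 h2 h3 hc
  exact h s t hs ht h1 h2 h3 ((Cr_neg _ _ _ _).1 hc)

theorem bal_neg {m : ℕ} {p : ℕ → E3} (h : Bal m p) : Bal m (fun t => -(p t)) := by
  intro ν hν
  obtain ⟨i, hi, hpos⟩ := h (-ν) (neg_ne_zero.2 hν)
  refine ⟨i, hi, ?_⟩
  rw [inner_neg_left] at hpos
  rw [inner_neg_right]
  exact hpos

theorem turn_neg (m : ℕ) (p : ℕ → E3) (k : ℕ) : Turn m (fun t => -(p t)) k = -Turn m p k := by
  unfold Turn
  exact det3_neg _ _ _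

theorem ear_neg {m : ℕ} {p : ℕ → E3} {k : ℕ} (h : Ear m (fun t => -(p t)) k) : Ear m p k := by
  intro j hj hT
  exact h j hj ((Tri_neg _ _ _ _).2 hT)

theorem two (hLEF : Stmt_LEF) {m : ℕ} {p : ℕ → E3} (hm : 3 ≤ m) (hG : Gen m p) (hS : Simp m p)
    (hB : Bal m p) : ∃ k1 k2, k1 ≤ m ∧ k2 ≤ m ∧ k1 ≠ k2 ∧ 0 < Turn m p k1 ∧ 0 < Turn m p k2 ∧
    Ear m p k1 ∧ Ear m p k2 := by
  obtain ⟨k1, h1, _, _, t1, e1⟩ := hLEF m p hm hG hS hB 0 (by omega)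
  obtain ⟨k2, h2, h3, _, t2, e2⟩ := hLEF m p hm hG hS hB k1 h1
  exact ⟨k1, k2, h1, h2, Ne.symm h3, t1, t2, e1, e2⟩

end FOUR_

open FOUR_ in
theorem four_proof (hLEF : Stmt_LEF) : Stmt_FOUR := by
  intro m p hm hG hS hB
  obtain ⟨k1, k2, h1, h2, h12, t1, t2, e1, e2⟩ := two hLEF hm hG hS hB
  obtain ⟨k3, k4, h3, h4, h34, t3, t4, e3, e4⟩ :=
    two hLEF hm (gen_neg hG) (simp_neg hS) (bal_neg hB)
  rw [turn_neg] at t3 t4
  refine ⟨k1, k2, k3, k4, h1, h2, h3, h4, h12, ?_, ?_, ?_, ?_, h34, e1, e2, ear_neg e3,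
    ear_neg e4⟩
  · rintro rfl; linarith
  · rintro rfl; linarith
  · rintro rfl; linarith
  · rintro rfl; linarith

end Pool.Agent.TSE
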