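import Pool.Agent.TSE.Stmts

/-!
# TSE: module FV
-/

set_option autoImplicit false

namespace Pool.Agent.TSE

open Pool.Agent.TSM

namespace FV_

theorem z1 (x y b : E3) : io (Cr x y x b) = 0 := io_neg (Cr_left x y b)
theorem z2 (x y b : E3) : io (Cr x y y b) = 0 := io_neg (Cr_right x y b)
theorem z3 (x y a : E3) : io (Cr x y a x) = 0 := io_neg (Cr_left' x y a)
theorem z4 (x y a : E3) : io (Cr x y a y) = 0 := io_neg (Cr_right' x y a)
theorem t1 (a b c : E3) : io (Tri a b c a) = 0 := io_neg (Tri_corner1 a b c)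
theorem t2 (a b c : E3) : io (Tri a b c b) = 0 := io_neg (Tri_corner2 a b c)
theorem t3 (a b c : E3) : io (Tri a b c c) = 0 := io_neg (Tri_corner3 a b c)

theorem part1 (h1 : Stmt_LT) (x y z c d : E3) (hc : G4 x y z c) (hd : G4 x y z d)
    (hx : det3 c d x ≠ 0) (hy : det3 c d y ≠ 0) (hz : det3 c d z ≠ 0) : Fv x y z c d = 0 := by
  have h := h1 x y z c d hc.1 hc.2.1 hc.2.2.1 hc.2.2.2 hd.2.1 hd.2.2.1 hd.2.2.2 hx hy hz
  unfold Fv
  rw [io_congr (Cr_symm x y c d), io_congr (Cr_symm y z c d), io_congr (Cr_symm z x c d)]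
  exact add_of_eq h

theorem G4.rot {x y z d : E3} (h : G4 x y z d) : G4 y z x d := by
  refine ⟨?_, h.2.2.1, h.2.2.2, h.2.1⟩
  rw [det3_cyc]
  exact h.1

theorem ltv (h2 : Stmt_LTV) (x y z d : E3) (h : G4 x y z d) :
    io (Cr y z x d) + io (Tri x y z d) = io (Btw x y d z) := by
  rw [io_congr (Cr_symm y z x d)]
  exact h2 x y z d h.1 h.2.1 h.2.2.1 h.2.2.2

theorem ltv' (h2 : Stmt_LTV) (x y z d : E3) (h : G4 x y z d) :
    io (Cr y z d x) + io (Tri x y z d) = io (Btw x y d z) := by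
  rw [io_congr (Cr_comm2 y z d x)]
  exact ltv h2 x y z d h

end FV_

open FV_ in
theorem fv_proof (h1 : Stmt_LT) (h2 : Stmt_LTV) : Stmt_FV := by
  refine ⟨fun x y z c d hc hd hx hy hz => part1 h1 x y z c d hc hd hx hy hz, ?_, ?_⟩
  · intro x y z d h
    have hr : G4 y z x d := FV_.G4.rot h
    have hrr : G4 z x y d := FV_.G4.rot hr
    have e1 : io (Tri x y z d) = io (Tri y z x d) := io_congr (Tri_cyc x y z d)
    have e2 : io (Tri y z x d) = io (Tri z x y d) := io_congr (Tri_cyc y z x d)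
    refine ⟨?_, ?_, ?_, ?_, ?_, ?_⟩
    · rw [← ltv h2 x y z d h]
      unfold Fv
      rw [z1, z2, t1]
      simp only [zero_add, add_zero]
    · rw [← ltv' h2 x y z d h]
      unfold Fv
      rw [z3, z4, t1]
      simp only [zero_add, add_zero]
    · rw [← ltv h2 y z x d hr, ← e1]
      unfold Fv
      rw [z1, z2, t2]
      simp only [zero_add, add_zero]
    · rw [← ltv' h2 y z x d hr, ← e1]
      unfold Fv
      rw [z3, z4, t2]
      simp only [zero_add, add_zero]
    · rw [← ltv h2 z x y d hrr, ← e2, ← e1]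
      unfold Fv
      rw [z1, z2, t3]
      simp only [zero_add, add_zero]
    · rw [← ltv' h2 z x y d hrr, ← e2, ← e1]
      unfold Fv
      rw [z3, z4, t3]
      simp only [zero_add, add_zero]
  · intro x y z
    refine ⟨?_, ?_, ?_, ?_, ?_, ?_⟩ <;>
    · unfold Fv
      simp only [z1, z2, z3, z4, t1, t2, t3, add_zero]

end Pool.Agent.TSE
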