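import Pool.Agent.TSE.Stmts

/-!
# TSE module INS: a point on the right side of a convex clockwise polygon
-/

set_option autoImplicit false

namespace Pool.Agent.TSE

open Pool.Agent.TSM

theorem ins_proof (h1 : Stmt_CRX) : Stmt_INS := by
  intro m q y hm _hG hC hP hN
  have hnx0 : nx m 0 = 1 := nx_of_lt (by omega)
  have hne : det3 (q 0) (q 1) y ≠ 0 := hP 0 1 (by omega) (by omega) (by omega)
  by_contra hlt
  have hpos : 0 < det3 (q 0) (q 1) y := lt_of_le_of_ne (not_lt.1 hlt) (Ne.symm hne)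
  have hturn : det3 (q m) (q 0) (q 1) < 0 := by
    have h := hC m 1 le_rfl (by omega) (by omega) (by rw [nx_last]; omega)
    rwa [nx_last] at h
  have hL : Lv m q 0 y = 1 := by
    unfold Lv LfAt
    rw [pv_zero, hnx0]
    exact io_pos (Or.inr ⟨hturn, Or.inr hpos⟩)
  have hle : ∀ t, t ≤ m → det3 (q 0) (q 1) (q t) ≤ 0 := by
    intro t ht
    by_cases h0 : t = 0
    · subst h0; rw [det3_aba]
    by_cases h2 : t = 1
    · subst h2
      have : det3 (q 0) (q 1) (q 1) = 0 := by simp only [det3]; ring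
      rw [this]
    · have h := hC 0 t (by omega) ht h0 (by rw [hnx0]; exact h2)
      rw [hnx0] at h
      exact h.le
  have hZ : N m q (q 0) y = 0 := by
    refine N_zero fun t ht hcr => ?_
    obtain ⟨u, u', s, t', hu, hu', hs, ht', he⟩ := h1.1 _ _ _ _ hcr
    have h3 : det3 (q 0) (q 1) (u • q 0 + u' • y) =
        det3 (q 0) (q 1) (s • q t + t' • q (nx m t)) := by rw [he]
    rw [det3_add3, det3_add3, det3_smul3, det3_smul3, det3_smul3, det3_smul3, det3_aba,
      mul_zero, zero_add] at h3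
    have h4 : 0 < u' * det3 (q 0) (q 1) y := mul_pos hu' hpos
    have h5 : s * det3 (q 0) (q 1) (q t) ≤ 0 := mul_nonpos_of_nonneg_of_nonpos hs.le (hle t ht)
    have h6 : t' * det3 (q 0) (q 1) (q (nx m t)) ≤ 0 :=
      mul_nonpos_of_nonneg_of_nonpos ht'.le (hle _ (nx_le ht))
    linarith
  rw [hL, hZ, zero_add] at hN
  exact one_ne_zero hN

end Pool.Agent.TSE
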