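import Pool.Agent.TSE.Stmts

/-!
# TSE: module LEF (a left ear different from two neighbours)
-/

set_option autoImplicit false

namespace Pool.Agent.TSE

open Pool.Agent.TSM

namespace LEF_

theorem mod_cases {m x : ℕ} (h : x < 2 * (m + 1)) :
    (x < m + 1 ∧ x % (m + 1) = x) ∨ (m + 1 ≤ x ∧ x % (m + 1) = x - (m + 1)) := by
  rcases Nat.lt_or_ge x (m + 1) with h1 | h1
  · left; exact ⟨h1, Nat.mod_eq_of_lt h1⟩
  · right
    refine ⟨h1, ?_⟩
    rw [Nat.mod_eq_sub_mod h1, Nat.mod_eq_of_lt (by omega)]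

end LEF_

open LEF_ in
theorem lef_proof (hROT : Stmt_ROT) (hCLM : Stmt_CLM) : Stmt_LEF := by
  intro m p hm hG hS hB a ha
  obtain ⟨r1, r2, _, r4, _, r6, r7⟩ := hROT m (nx m a) p
  obtain ⟨k, hk1, hk2, hT, hE⟩ := hCLM m _ hm (r1 hG) (r2 hS) (r4 hB) 0 m (by omega) (le_refl m)
    (Or.inl ⟨rfl, rfl⟩)
  have hn : nx m a ≤ m := nx_le ha
  have hna : (a < m ∧ nx m a = a + 1) ∨ (a = m ∧ nx m a = 0) := by
    rcases Nat.lt_or_ge a m with h | h
    · left; exact ⟨h, nx_of_lt h⟩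
    · right
      have h2 : a = m := by omega
      subst h2
      exact ⟨rfl, nx_last _⟩
  have hmod := mod_cases (m := m) (x := k + nx m a) (by omega)
  refine ⟨(k + nx m a) % (m + 1), Nat.le_of_lt_succ (Nat.mod_lt _ (Nat.succ_pos m)), ?_, ?_, ?_, ?_⟩
  · rcases hmod with ⟨h1, h2⟩ | ⟨h1, h2⟩ <;> rw [h2] <;> omega
  · rcases hmod with ⟨h1, h2⟩ | ⟨h1, h2⟩ <;> rw [h2] <;> omega
  · rw [← r6 k (by omega)]
    exact hT
  · exact (r7 k (by omega)).1 hE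

end Pool.Agent.TSE
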