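import Pool.Agent.TSE.Stmts

/-!
# TSE, module LT: an arc and a triangle
-/

set_option autoImplicit false

namespace Pool.Agent.TSE.LT_

open Pool.Agent.TSM

/-- sign of a real number as a Boolean -/
noncomputable def sg (x : ℝ) : Bool := decide (0 < x)

/-- Boolean to `ZMod 2` -/
def ph (b : Bool) : ZMod 2 := if b then 1 else 0

theorem ph_xor (a b : Bool) : ph (xor a b) = ph a + ph b := by
  cases a <;> cases b <;> decide

/-- the pattern of a crossing -/
def crB (a b p q : Bool) : Bool := (a && !b && p && !q) || (!a && b && !p && q)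

/-- the pattern of a triangle -/
def trB (d a b c : Bool) : Bool := (d && a && b && c) || (!d && !a && !b && !c)

/-- `x = p - q` is possible for the signs -/
def con (x p q : Bool) : Bool := !((p && !q && !x) || (!p && q && x))

/-- `p + q + r = 0` is possible for the signs -/
def tri (p q r : Bool) : Bool := !((p && q && r) || (!p && !q && !r))

theorem bool_fact : ∀ d a1 a2 a3 b1 b2 b3 m1 m2 m3 : Bool,
    con (d == m1) (a2 == b3) (a3 == b2) = true → con (d == m2) (a3 == b1) (a1 == b3) = true →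
    con (d == m3) (a1 == b2) (a2 == b1) = true →
    tri (a1 == m1) (a2 == m2) (a3 == m3) = true → tri (b1 == m1) (b2 == m2) (b3 == m3) = true →
    xor (xor (crB a3 b3 m2 m1) (crB a1 b1 m3 m2)) (crB a2 b2 m1 m3) =
      xor (trB d a3 a1 a2) (trB d b3 b1 b2) := by
  decide

theorem sg_mul {x y : ℝ} (hx : x ≠ 0) (hy : y ≠ 0) : sg (x * y) = (sg x == sg y) := by
  rcases lt_or_gt_of_ne hx with h1 | h1 <;> rcases lt_or_gt_of_ne hy with h2 | h2
  · have h3 : 0 < x * y := mul_pos_of_neg_of_neg h1 h2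
    simp [sg, h1.le.not_gt, h2.le.not_gt, h3]
  · have h3 : x * y < 0 := mul_neg_of_neg_of_pos h1 h2
    simp [sg, h1.le.not_gt, h2, h3.le.not_gt]
  · have h3 : x * y < 0 := mul_neg_of_pos_of_neg h1 h2
    simp [sg, h1, h2.le.not_gt, h3.le.not_gt]
  · have h3 : 0 < x * y := mul_pos h1 h2
    simp [sg, h1, h2, h3]

theorem con_of {x p q : ℝ} (hx : x ≠ 0) (hp : p ≠ 0) (hq : q ≠ 0) (h : x = p - q) :
    con (sg x) (sg p) (sg q) = true := by
  rcases lt_or_gt_of_ne hx with h1 | h1 <;> rcases lt_or_gt_of_ne hp with h2 | h2 <;>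
    rcases lt_or_gt_of_ne hq with h3 | h3 <;>
    first
    | (exfalso; linarith)
    | simp [con, sg, h1, h2, h3, h1.le.not_gt, h2.le.not_gt, h3.le.not_gt]

theorem tri_of {p q r : ℝ} (hp : p ≠ 0) (hq : q ≠ 0) (hr : r ≠ 0) (h : p + q + r = 0) :
    tri (sg p) (sg q) (sg r) = true := by
  rcases lt_or_gt_of_ne hp with h1 | h1 <;> rcases lt_or_gt_of_ne hq with h2 | h2 <;>
    rcases lt_or_gt_of_ne hr with h3 | h3 <;>
    first
    | (exfalso; linarith)
    | simp [tri, sg, h1, h2, h3, h1.le.not_gt, h2.le.not_gt, h3.le.not_gt]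

theorem pos_iff (x : ℝ) : 0 < x ↔ sg x = true := by simp [sg]

theorem neg_iff {x : ℝ} (hx : x ≠ 0) : x < 0 ↔ sg x = false := by
  constructor
  · intro h
    simp [sg, h.le]
  · intro h
    have h1 : ¬ 0 < x := by simpa [sg] using h
    exact lt_of_le_of_ne (not_lt.mp h1) hx

theorem io_eq {P : Prop} {b : Bool} (h : P ↔ b = true) : io P = ph b := by
  unfold io ph
  by_cases hP : P
  · rw [if_pos hP, if_pos (h.mp hP)]
  · rw [if_neg hP]
    rw [if_neg (fun hb => hP (h.mpr hb))]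

theorem cr_iff {A B P Q : ℝ} (hA : A ≠ 0) (hB : B ≠ 0) (hP : P ≠ 0) (hQ : Q ≠ 0) :
    ((0 < A ∧ B < 0 ∧ 0 < P ∧ Q < 0) ∨ (A < 0 ∧ 0 < B ∧ P < 0 ∧ 0 < Q)) ↔
      crB (sg A) (sg B) (sg P) (sg Q) = true := by
  rw [pos_iff A, pos_iff B, pos_iff P, pos_iff Q, neg_iff hA, neg_iff hB, neg_iff hP, neg_iff hQ]
  generalize sg A = a
  generalize sg B = b
  generalize sg P = p
  generalize sg Q = q
  revert a b p q
  decide

theorem tr_iff {D A B C : ℝ} (hD : D ≠ 0) (hA : A ≠ 0) (hB : B ≠ 0) (hC : C ≠ 0) :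
    ((0 < D ∧ 0 < A ∧ 0 < B ∧ 0 < C) ∨ (D < 0 ∧ A < 0 ∧ B < 0 ∧ C < 0)) ↔
      trB (sg D) (sg A) (sg B) (sg C) = true := by
  rw [pos_iff D, pos_iff A, pos_iff B, pos_iff C, neg_iff hD, neg_iff hA, neg_iff hB, neg_iff hC]
  generalize sg D = d
  generalize sg A = a
  generalize sg B = b
  generalize sg C = c
  revert d a b c
  decide

end Pool.Agent.TSE.LT_

namespace Pool.Agent.TSE

open Pool.Agent.TSM LT_

theorem lt_proof : Stmt_LT := by
  intro a b c x y hD hA3 hA1 hA2 hB3 hB1 hB2 hM1 hM2 hM3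
  have e1 : det3 a b c * det3 x y a =
      det3 c a x * det3 a b y - det3 a b x * det3 c a y := by simp only [det3]; ring
  have e2 : det3 a b c * det3 x y b =
      det3 a b x * det3 b c y - det3 b c x * det3 a b y := by simp only [det3]; ring
  have e3 : det3 a b c * det3 x y c =
      det3 b c x * det3 c a y - det3 c a x * det3 b c y := by simp only [det3]; ring
  have e4 : det3 b c x * det3 x y a + det3 c a x * det3 x y b + det3 a b x * det3 x y c = 0 := by
    simp only [det3]; ring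
  have e5 : det3 b c y * det3 x y a + det3 c a y * det3 x y b + det3 a b y * det3 x y c = 0 := by
    simp only [det3]; ring
  have c1 := con_of (mul_ne_zero hD hM1) (mul_ne_zero hA2 hB3) (mul_ne_zero hA3 hB2) e1
  have c2 := con_of (mul_ne_zero hD hM2) (mul_ne_zero hA3 hB1) (mul_ne_zero hA1 hB3) e2
  have c3 := con_of (mul_ne_zero hD hM3) (mul_ne_zero hA1 hB2) (mul_ne_zero hA2 hB1) e3
  have c4 := tri_of (mul_ne_zero hA1 hM1) (mul_ne_zero hA2 hM2) (mul_ne_zero hA3 hM3) e4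
  have c5 := tri_of (mul_ne_zero hB1 hM1) (mul_ne_zero hB2 hM2) (mul_ne_zero hB3 hM3) e5
  rw [sg_mul hD hM1, sg_mul hA2 hB3, sg_mul hA3 hB2] at c1
  rw [sg_mul hD hM2, sg_mul hA3 hB1, sg_mul hA1 hB3] at c2
  rw [sg_mul hD hM3, sg_mul hA1 hB2, sg_mul hA2 hB1] at c3
  rw [sg_mul hA1 hM1, sg_mul hA2 hM2, sg_mul hA3 hM3] at c4
  rw [sg_mul hB1 hM1, sg_mul hB2 hM2, sg_mul hB3 hM3] at c5
  have key := bool_fact _ _ _ _ _ _ _ _ _ _ c1 c2 c3 c4 c5
  have i1 : io (Cr x y a b) = ph (crB (sg (det3 a b x)) (sg (det3 a b y)) (sg (det3 x y b))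
      (sg (det3 x y a))) := io_eq (cr_iff hA3 hB3 hM2 hM1)
  have i2 : io (Cr x y b c) = ph (crB (sg (det3 b c x)) (sg (det3 b c y)) (sg (det3 x y c))
      (sg (det3 x y b))) := io_eq (cr_iff hA1 hB1 hM3 hM2)
  have i3 : io (Cr x y c a) = ph (crB (sg (det3 c a x)) (sg (det3 c a y)) (sg (det3 x y a))
      (sg (det3 x y c))) := io_eq (cr_iff hA2 hB2 hM1 hM3)
  have i4 : io (Tri a b c x) = ph (trB (sg (det3 a b c)) (sg (det3 a b x)) (sg (det3 b c x))
      (sg (det3 c a x))) := io_eq (tr_iff hD hA3 hA1 hA2)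
  have i5 : io (Tri a b c y) = ph (trB (sg (det3 a b c)) (sg (det3 a b y)) (sg (det3 b c y))
      (sg (det3 c a y))) := io_eq (tr_iff hD hB3 hB1 hB2)
  rw [i1, i2, i3, i4, i5, ← ph_xor, ← ph_xor, ← ph_xor, key]

end Pool.Agent.TSE
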