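import Pool.Agent.TSE.LT

/-!
# TSE, module LTV: an arc which starts at a corner of a triangle
-/

set_option autoImplicit false

namespace Pool.Agent.TSE

open Pool.Agent.TSM LT_

theorem ltv_proof : Stmt_LTV := by
  intro a b c y hD hA3 hA1 hA2
  have e1 : det3 b c a = det3 a b c := det3_cyc a b c
  have e2 : det3 a y c = det3 c a y := by simp only [det3]; ring
  have e3 : det3 a y b = -det3 a b y := det3_swap23 a b y
  have n1 : ∀ x : ℝ, (-x < 0) ↔ 0 < x := fun x => neg_lt_zero
  have n2 : ∀ x : ℝ, (0 < -x) ↔ x < 0 := fun x => neg_pos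
  have i1 : Cr a y b c ↔
      ((sg (det3 a b c) && !sg (det3 b c y) && sg (det3 c a y) && sg (det3 a b y)) ||
        (!sg (det3 a b c) && sg (det3 b c y) && !sg (det3 c a y) && !sg (det3 a b y))) = true := by
    unfold Cr
    rw [e1, e2, e3, n1, n2, pos_iff (det3 a b c), pos_iff (det3 c a y), pos_iff (det3 b c y),
      pos_iff (det3 a b y), neg_iff hD, neg_iff hA1, neg_iff hA2, neg_iff hA3]
    generalize sg (det3 a b c) = d
    generalize sg (det3 a b y) = p
    generalize sg (det3 b c y) = q
    generalize sg (det3 c a y) = r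
    revert d p q r
    decide
  have i2 : Tri a b c y ↔
      ((sg (det3 a b c) && sg (det3 a b y) && sg (det3 b c y) && sg (det3 c a y)) ||
        (!sg (det3 a b c) && !sg (det3 a b y) && !sg (det3 b c y) && !sg (det3 c a y))) = true := by
    unfold Tri
    rw [pos_iff (det3 a b c), pos_iff (det3 c a y), pos_iff (det3 b c y),
      pos_iff (det3 a b y), neg_iff hD, neg_iff hA1, neg_iff hA2, neg_iff hA3]
    generalize sg (det3 a b c) = d
    generalize sg (det3 a b y) = p
    generalize sg (det3 b c y) = q
    generalize sg (det3 c a y) = r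
    revert d p q r
    decide
  have i3 : Btw a b y c ↔
      ((sg (det3 a b y) && sg (det3 c a y) && sg (det3 a b c)) ||
        (!sg (det3 a b y) && !sg (det3 c a y) && !sg (det3 a b c))) = true := by
    unfold Btw
    rw [e2, pos_iff (det3 a b c), pos_iff (det3 c a y),
      pos_iff (det3 a b y), neg_iff hD, neg_iff hA2, neg_iff hA3]
    generalize sg (det3 a b c) = d
    generalize sg (det3 a b y) = p
    generalize sg (det3 c a y) = r
    revert d p r
    decide
  rw [io_eq i1, io_eq i2, io_eq i3]
  generalize sg (det3 a b c) = d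
  generalize sg (det3 a b y) = p
  generalize sg (det3 b c y) = q
  generalize sg (det3 c a y) = r
  revert d p q r
  decide

end Pool.Agent.TSE
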