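import Pool.Agent.TSE.Stmts

set_option autoImplicit false

namespace Pool.Agent.TSE

open Pool.Agent.TSM

namespace MEI_

/-- normalised coordinates with respect to `a v b` -/
noncomputable def cA (a v b w : E3) : ℝ := det3 w v b / det3 a v b
noncomputable def cB (a v b w : E3) : ℝ := det3 a w b / det3 a v b
noncomputable def cG (a v b w : E3) : ℝ := det3 a v w / det3 a v b

theorem cA_swap (a v b w : E3) : cA b v a w = cG a v b w := by
  unfold cA cG
  rw [det3_swap13 a v w, det3_swap13 a v b, neg_div_neg_eq]

theorem cG_swap (a v b w : E3) : cG b v a w = cA a v b w := by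
  rw [cA_swap b v a w]

theorem cB_swap (a v b w : E3) : cB b v a w = cB a v b w := by
  unfold cB
  rw [det3_swap13 a w b, det3_swap13 a v b, neg_div_neg_eq]

theorem cA_comb (a v b x z : E3) (r s t : ℝ) :
    cA a v b (r • (s • v + t • z) + t • x) = r * (t * cA a v b z) + t * cA a v b x := by
  unfold cA
  rw [det3_add1, det3_smul1, det3_add1, det3_smul1, det3_smul1, det3_smul1, det3_aab]
  ring

theorem core (hC : Stmt_CRX) (a v b z x y : E3) (hD : det3 a v b ≠ 0)
    (hA : 0 < cA a v b z) (hB : 0 < cB a v b z) (hG : 0 < cG a v b z)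
    (u u' s t : ℝ) (hu : 0 < u) (hu' : 0 < u') (hs : 0 < s) (ht : 0 < t)
    (he : u • x + u' • y = s • v + t • z) (hxy : det3 x y v ≠ 0)
    (hh : 0 < cB a v b x * (cA a v b z + cG a v b z) - cB a v b z * (cA a v b x + cG a v b x))
    (hAx : cA a v b x < 0)
    (hc : 0 ≤ cA a v b z * cG a v b x - cA a v b x * cG a v b z) : Cr x y v b := by
  -- the exit point
  set e : E3 := (-cA a v b x) • (s • v + t • z) + (t * cA a v b z) • x with hedef
  have hvv : cA a v b v = 0 := by unfold cA; rw [det3_aab, zero_div]
  have eA : cA a v b e = 0 := by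
    have h1 : cA a v b e = (-cA a v b x) * (s * cA a v b v + t * cA a v b z) +
        (t * cA a v b z) * cA a v b x := by
      rw [hedef]
      unfold cA
      rw [det3_add1, det3_smul1, det3_add1, det3_smul1, det3_smul1, det3_smul1]
      ring
    rw [h1, hvv]
    ring
  have eG : cG a v b e = t * (cA a v b z * cG a v b x - cA a v b x * cG a v b z) := by
    have h0 : cG a v b v = 0 := by unfold cG; rw [det3_baa, zero_div]
    have h1 : cG a v b e = (-cA a v b x) * (s * cG a v b v + t * cG a v b z) +
        (t * cA a v b z) * cG a v b x := by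
      have h2 : ∀ w : ℝ, cG a v b e = det3 a v e / det3 a v b := fun _ => rfl
      rw [h2 0, hedef, det3_add3, det3_smul3, det3_add3, det3_smul3, det3_smul3, det3_smul3]
      unfold cG
      ring
    rw [h1, h0]
    ring
  have eB : cB a v b e = (-cA a v b x) * (s + t * cB a v b z) +
      (t * cA a v b z) * cB a v b x := by
    have h0 : cB a v b v = 1 := by unfold cB; exact div_self hD
    have h1 : cB a v b e = (-cA a v b x) * (s * cB a v b v + t * cB a v b z) +
        (t * cA a v b z) * cB a v b x := by
      have h2 : ∀ w : ℝ, cB a v b e = det3 a e b / det3 a v b := fun _ => rfl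
      rw [h2 0, hedef, det3_add2, det3_smul2, det3_add2, det3_smul2, det3_smul2, det3_smul2]
      unfold cB
      ring
    rw [h1, h0, mul_one]
  have hGe : 0 ≤ cG a v b e := by
    rw [eG]
    exact mul_nonneg ht.le hc
  have hBe : 0 < cB a v b e := by
    have h1 : cB a v b e * (cA a v b z + cG a v b z) =
        cB a v b z * cG a v b e + ((-cA a v b x) * s * (cA a v b z + cG a v b z) +
        (t * cA a v b z) * (cB a v b x * (cA a v b z + cG a v b z) -
          cB a v b z * (cA a v b x + cG a v b x))) := by
      rw [eB, eG]
      ring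
    have h2 : 0 < cB a v b e * (cA a v b z + cG a v b z) := by
      rw [h1]
      have p1 : 0 ≤ cB a v b z * cG a v b e := mul_nonneg hB.le hGe
      have p2 : 0 < (-cA a v b x) * s * (cA a v b z + cG a v b z) := by
        have : 0 < -cA a v b x := by linarith
        positivity
      have p3 : 0 < (t * cA a v b z) * (cB a v b x * (cA a v b z + cG a v b z) -
          cB a v b z * (cA a v b x + cG a v b x)) := mul_pos (mul_pos ht hA) hh
      linarith
    exact (pos_iff_pos_of_mul_pos h2).2 (by linarith)
  have hecoord : e = cB a v b e • v + cG a v b e • b := by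
    have h1 := coords a v b e hD
    have h2 : det3 e v b / det3 a v b = 0 := eA
    rw [h2, zero_smul, zero_add] at h1
    exact h1
  have hexy : e = (-cA a v b x * u + t * cA a v b z) • x + (-cA a v b x * u') • y := by
    rw [hedef, ← he]
    rw [smul_add, smul_smul, smul_smul, add_smul]
    abel
  have hcx : 0 < -cA a v b x * u + t * cA a v b z := by
    have : 0 < -cA a v b x := by linarith
    positivity
  have hcy : 0 < -cA a v b x * u' := by
    have : 0 < -cA a v b x := by linarith
    positivity
  rcases hGe.lt_or_eq with h0 | h0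
  · refine hC.2 x y v b _ _ _ _ hcx hcy hBe h0 (hexy.symm.trans hecoord) hxy ?_
    intro h1
    have h2 : cA a v b x = 0 := by
      unfold cA
      rw [det3_cyc2 v b x, h1, zero_div]
    linarith
  · exfalso
    rw [← h0, zero_smul, add_zero] at hecoord
    have h1 : det3 x y e = 0 := by
      rw [hexy, det3_add3, det3_smul3, det3_smul3, det3_aba, det3_baa]
      ring
    rw [hecoord, det3_smul3] at h1
    rcases mul_eq_zero.1 h1 with h2 | h2
    · linarith
    · exact hxy h2

theorem tri_iff (a v b z : E3) :
    Tri a v b z ↔ det3 a v b ≠ 0 ∧ 0 < cA a v b z ∧ 0 < cB a v b z ∧ 0 < cG a v b z := by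
  have e1 : det3 v b z = det3 z v b := (det3_cyc z v b)
  have e2 : det3 b a z = det3 a z b := by rw [det3_cyc b a z]
  unfold Tri cA cB cG
  rw [e1, e2]
  constructor
  · rintro (⟨h1, h2, h3, h4⟩ | ⟨h1, h2, h3, h4⟩)
    · exact ⟨h1.ne', div_pos h3 h1, div_pos h4 h1, div_pos h2 h1⟩
    · exact ⟨h1.ne, div_pos_of_neg_of_neg h3 h1, div_pos_of_neg_of_neg h4 h1,
        div_pos_of_neg_of_neg h2 h1⟩
  · rintro ⟨h1, h2, h3, h4⟩
    rcases lt_or_gt_of_ne h1 with h5 | h5
    · right
      refine ⟨h5, ?_, ?_, ?_⟩
      · rcases div_pos_iff.1 h4 with h | h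
        · linarith
        · exact h.1
      · rcases div_pos_iff.1 h2 with h | h
        · linarith
        · exact h.1
      · rcases div_pos_iff.1 h3 with h | h
        · linarith
        · exact h.1
    · left
      refine ⟨h5, ?_, ?_, ?_⟩
      · rcases div_pos_iff.1 h4 with h | h
        · exact h.1
        · linarith
      · rcases div_pos_iff.1 h2 with h | h
        · exact h.1
        · linarith
      · rcases div_pos_iff.1 h3 with h | h
        · exact h.1
        · linarith

/-- the case where `x` is above `z` -/
theorem half (hC : Stmt_CRX) (a v b z x y : E3) (hT : Tri a v b z) (hxyv : det3 x y v ≠ 0)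
    (u u' s t : ℝ) (hu : 0 < u) (hu' : 0 < u') (hs : 0 < s) (ht : 0 < t)
    (he : u • x + u' • y = s • v + t • z)
    (h1 : ¬ Cr x y v a) (h2 : ¬ Cr x y v b) (hN : Ndg a v b x)
    (hh : 0 < cB a v b x * (cA a v b z + cG a v b z) - cB a v b z * (cA a v b x + cG a v b x)) :
    Up a v b z x := by
  obtain ⟨hD, hA, hB, hG⟩ := (tri_iff a v b z).1 hT
  have hDba : det3 b v a ≠ 0 := by
    rw [det3_swap13 a v b]
    exact neg_ne_zero.2 hD
  have hAx : cA a v b x ≠ 0 := by
    intro h
    have h3 : det3 x v b = 0 := by
      unfold cA at h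
      rcases div_eq_zero_iff.1 h with h4 | h4
      · exact h4
      · exact absurd h4 hD
    have h5 := hN.1 h3
    subst h5
    have e1 : cB a v x x = 0 := by unfold cB; rw [det3_baa, zero_div]
    have e2 : cG a v x x = 1 := by unfold cG; exact div_self hD
    rw [h, e1, e2] at hh
    linarith
  have hGx : cG a v b x ≠ 0 := by
    intro h
    have h3 : det3 a v x = 0 := by
      unfold cG at h
      rcases div_eq_zero_iff.1 h with h4 | h4
      · exact h4
      · exact absurd h4 hD
    have h5 := hN.2 h3
    subst h5
    have e1 : cB x v b x = 0 := by unfold cB; rw [det3_aab, zero_div]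
    have e2 : cA x v b x = 1 := by unfold cA; exact div_self hD
    rw [h, e1, e2] at hh
    linarith
  -- both coordinates are positive
  have hpos : 0 < cA a v b x ∧ 0 < cG a v b x := by
    by_contra hcon
    -- exit through the side `v b`
    have exit1 : cA a v b x < 0 → 0 ≤ cA a v b z * cG a v b x - cA a v b x * cG a v b z →
        False := fun g1 g2 => h2 (core hC a v b z x y hD hA hB hG u u' s t hu hu' hs ht he hxyv
          hh g1 g2)
    have exit2 : cG a v b x < 0 → 0 ≤ cG a v b z * cA a v b x - cG a v b x * cA a v b z →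
        False := by
      intro g1 g2
      apply h1
      refine core hC b v a z x y hDba ?_ ?_ ?_ u u' s t hu hu' hs ht he hxyv ?_ ?_ ?_
      · rw [cA_swap]; exact hG
      · rw [cB_swap]; exact hB
      · rw [cG_swap]; exact hA
      · simp only [cA_swap a v b, cG_swap a v b, cB_swap a v b]
        have : cB a v b x * (cG a v b z + cA a v b z) - cB a v b z * (cG a v b x + cA a v b x) =
            cB a v b x * (cA a v b z + cG a v b z) - cB a v b z * (cA a v b x + cG a v b x) := by
          ring
        rw [this]
        exact hh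
      · rw [cA_swap]; exact g1
      · simp only [cA_swap a v b, cG_swap a v b]
        exact g2
    rcases lt_or_gt_of_ne hAx with g1 | g1
    · rcases lt_or_gt_of_ne hGx with g2 | g2
      · rcases le_total 0 (cA a v b z * cG a v b x - cA a v b x * cG a v b z) with g3 | g3
        · exact exit1 g1 g3
        · exact exit2 g2 (by linarith)
      · refine exit1 g1 ?_
        have p1 := mul_pos hA g2
        have p2 := mul_pos (neg_pos.2 g1) hG
        linarith
    · rcases lt_or_gt_of_ne hGx with g2 | g2
      · refine exit2 g2 ?_
        have p1 := mul_pos hG g1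
        have p2 := mul_pos (neg_pos.2 g2) hA
        linarith
      · exact hcon ⟨g1, g2⟩
  have hBx : 0 < cB a v b x := by
    have p1 : 0 < cB a v b z * (cA a v b x + cG a v b x) := mul_pos hB (by linarith [hpos.1, hpos.2])
    have p2 : 0 < cB a v b x * (cA a v b z + cG a v b z) := by linarith
    exact (pos_iff_pos_of_mul_pos p2).2 (by linarith)
  refine ⟨(tri_iff a v b x).2 ⟨hD, hpos.1, hBx, hpos.2⟩, ?_⟩
  have hD2 : 0 < det3 a v b ^ 2 := by positivity
  have key : det3 a x b * (det3 z v b + det3 a v z) - det3 a z b * (det3 x v b + det3 a v x) =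
      det3 a v b ^ 2 * (cB a v b x * (cA a v b z + cG a v b z) -
        cB a v b z * (cA a v b x + cG a v b x)) := by
    unfold cA cB cG
    field_simp
  have := mul_pos hD2 hh
  rw [← key] at this
  linarith

end MEI_

open MEI_ in
theorem mei_proof (hC : Stmt_CRX) : Stmt_MEI := by
  intro a v b z x y hT hCr h1 h2 hNx hNy
  obtain ⟨u, u', s, t, hu, hu', hs, ht, he⟩ := hC.1 x y v z hCr
  obtain ⟨hD, hA, hB, hG⟩ := (tri_iff a v b z).1 hT
  have hxyv : det3 x y v ≠ 0 := by
    rcases hCr with ⟨_, _, _, h⟩ | ⟨_, _, _, h⟩
    · exact h.ne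
    · exact h.ne'
  -- the functional `h` is positive at `x` or at `y`
  have hsum : 0 < u * (cB a v b x * (cA a v b z + cG a v b z) -
        cB a v b z * (cA a v b x + cG a v b x)) +
      u' * (cB a v b y * (cA a v b z + cG a v b z) -
        cB a v b z * (cA a v b y + cG a v b y)) := by
    have eA : u * cA a v b x + u' * cA a v b y = t * cA a v b z := by
      have h3 : det3 (u • x + u' • y) v b = det3 (s • v + t • z) v b := by rw [he]
      rw [det3_add1, det3_smul1, det3_smul1, det3_add1, det3_smul1, det3_smul1, det3_aab] at h3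
      unfold cA
      field_simp
      linarith
    have eG : u * cG a v b x + u' * cG a v b y = t * cG a v b z := by
      have h3 : det3 a v (u • x + u' • y) = det3 a v (s • v + t • z) := by rw [he]
      rw [det3_add3, det3_smul3, det3_smul3, det3_add3, det3_smul3, det3_smul3, det3_baa] at h3
      unfold cG
      field_simp
      linarith
    have eB : u * cB a v b x + u' * cB a v b y = s + t * cB a v b z := by
      have h3 : det3 a (u • x + u' • y) b = det3 a (s • v + t • z) b := by rw [he]
      rw [det3_add2, det3_smul2, det3_smul2, det3_add2, det3_smul2, det3_smul2] at h3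
      unfold cB
      field_simp
      linarith
    have e : u * (cB a v b x * (cA a v b z + cG a v b z) -
        cB a v b z * (cA a v b x + cG a v b x)) +
      u' * (cB a v b y * (cA a v b z + cG a v b z) -
        cB a v b z * (cA a v b y + cG a v b y)) =
        (u * cB a v b x + u' * cB a v b y) * (cA a v b z + cG a v b z) -
        cB a v b z * ((u * cA a v b x + u' * cA a v b y) +
          (u * cG a v b x + u' * cG a v b y)) := by ring
    rw [e, eA, eG, eB]
    have : (s + t * cB a v b z) * (cA a v b z + cG a v b z) -
        cB a v b z * (t * cA a v b z + t * cG a v b z) = s * (cA a v b z + cG a v b z) := by ring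
    rw [this]
    positivity
  by_cases hx : 0 < cB a v b x * (cA a v b z + cG a v b z) -
        cB a v b z * (cA a v b x + cG a v b x)
  · left
    exact half hC a v b z x y hT hxyv u u' s t hu hu' hs ht he h1 h2 hNx hx
  · right
    have hy : 0 < cB a v b y * (cA a v b z + cG a v b z) -
        cB a v b z * (cA a v b y + cG a v b y) := by
      have h3 : u * (cB a v b x * (cA a v b z + cG a v b z) -
        cB a v b z * (cA a v b x + cG a v b x)) ≤ 0 :=
        mul_nonpos_of_nonneg_of_nonpos hu.le (not_lt.1 hx)
      have h4 : 0 < u' * (cB a v b y * (cA a v b z + cG a v b z) -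
        cB a v b z * (cA a v b y + cG a v b y)) := by linarith
      exact (pos_iff_pos_of_mul_pos h4).1 hu'
    refine half hC a v b z y x hT ?_ u' u s t hu' hu hs ht ?_ ?_ ?_ hNy hy
    · rw [det3_swap12 x y v]
      exact neg_ne_zero.2 hxyv
    · rw [add_comm]
      exact he
    · rw [Cr_comm]
      exact h1
    · rw [Cr_comm]
      exact h2

end Pool.Agent.TSE
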