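import Pool.Agent.TSE.Stmts

/-!
# TSE, module NZA: a visible vertex inside a left triangle of the part
-/

set_option autoImplicit false

namespace Pool.Agent.TSE

open Pool.Agent.TSM

namespace NZA_

/-- the diagonal `(i, j)` is not crossed by a side -/
theorem ncij {m : ℕ} {p : ℕ → E3} {i j : ℕ} (hS : Simp m p) (hD : LD m p i j) :
    NC m p i j := by
  rcases hD with ⟨h0, hm⟩ | ⟨h, _, _⟩
  · have h1 := side_NC' hS (Nat.zero_le m)
    rw [pv_zero] at h1
    rw [h0, hm]
    exact h1
  · exact h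

/-- a side crosses no side -/
theorem ncsucc {m : ℕ} {p : ℕ → E3} {t : ℕ} (hS : Simp m p) (ht : t < m) :
    NC m p t (t + 1) := by
  have h1 := side_NC hS (le_of_lt ht)
  rw [nx_of_lt ht] at h1
  exact h1

/-- a side of `p` does not cross an arc which is crossed by no side -/
theorem nc_use {m : ℕ} {p : ℕ → E3} {a b t : ℕ} (h : NC m p a b) (ht : t ≤ m) :
    ¬ Cr (p t) (p (nx m t)) (p a) (p b) := fun hc => h t ht ((Cr_symm _ _ _ _).1 hc)

/-- the neighbours of `s` in the part -/
theorem nbr1 {i j s : ℕ} (hij : i + 2 ≤ j) (hs : i ≤ s) (_hsj : s ≤ j) :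
    (s = i ∧ i + pv (j - i) (s - i) = j) ∨ (i < s ∧ i + pv (j - i) (s - i) = s - 1) := by
  unfold pv
  split_ifs with h
  · left; omega
  · right; omega

theorem nbr2 {i j s : ℕ} (hij : i + 2 ≤ j) (hs : i ≤ s) (hsj : s ≤ j) :
    (s = j ∧ i + nx (j - i) (s - i) = i) ∨ (s < j ∧ i + nx (j - i) (s - i) = s + 1) := by
  unfold nx
  split_ifs with h
  · left; omega
  · right; omega

end NZA_

open NZA_ in
theorem nza_proof (h1 : Stmt_VIS) (h2 : Stmt_OUT) (_h3 : Stmt_SUBG) (_h4 : Stmt_W2) :
    Stmt_NZA := by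
  intro m p i j hG hS hij hjm hD s his hsj hT hex
  have hNij : NC m p i j := ncij hS hD
  have hNji : NC m p j i := NC_symm hNij
  have e1 := nbr1 hij his hsj
  have e2 := nbr2 hij his hsj
  have hsub : sub i p (s - i) = p s := by
    unfold sub
    rw [Nat.add_sub_cancel' his]
  unfold Turn at hT
  unfold TriAt at hex ⊢
  rw [hsub] at hT hex
  rw [hsub]
  have hq1 : sub i p (pv (j - i) (s - i)) = p (i + pv (j - i) (s - i)) := rfl
  have hq2 : sub i p (nx (j - i) (s - i)) = p (i + nx (j - i) (s - i)) := rfl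
  rw [hq1, hq2] at hT hex
  rw [hq1, hq2]
  -- the indices of the neighbours
  generalize hi1 : i + pv (j - i) (s - i) = i1 at *
  generalize hi2 : i + nx (j - i) (s - i) = i2 at *
  have hsm : s ≤ m := le_trans hsj hjm
  have b1 : i1 ≤ m := by omega
  have b2 : i2 ≤ m := by omega
  have n1 : s ≠ i1 := by omega
  have n2 : s ≠ i2 := by omega
  have n3 : i1 ≠ i2 := by omega
  have c1 : NC m p s i1 := by
    rcases e1 with ⟨ha, hb⟩ | ⟨ha, hb⟩
    · rw [ha, hb]; exact hNij
    · have h5 := ncsucc (t := s - 1) hS (by omega)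
      have h6 : s - 1 + 1 = s := by omega
      rw [h6] at h5
      rw [hb]
      exact NC_symm h5
  have c2 : NC m p s i2 := by
    rcases e2 with ⟨ha, hb⟩ | ⟨ha, hb⟩
    · rw [ha, hb]; exact hNji
    · rw [hb]; exact ncsucc hS (by omega)
  obtain ⟨l, hlm, hls, hl1, hl2, hTri, hvis⟩ := h1 m p hG s i1 i2 hsm b1 b2 n1 n2 n3 hex
  have hm1 : 1 ≤ m := by omega
  have hNC : NC m p s l := by
    intro t ht hc
    exact hvis t (nx m t) ht (nx_le ht) (fun h => nx_ne hm1 ht h.symm) (nc_use c1 ht)
      (nc_use c2 ht) ((Cr_symm _ _ _ _).1 hc)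
  have hji : ¬ Cr (p j) (p i) (p s) (p l) := by
    apply hvis j i hjm (by omega) (by omega)
    · rcases e1 with ⟨ha, hb⟩ | ⟨ha, hb⟩
      · rw [ha, hb, Cr_comm]; exact Cr_left _ _ _
      · intro hc
        have h5 := hNji (s - 1) (by omega)
        rw [nx_of_lt (show s - 1 < m by omega)] at h5
        have h6 : s - 1 + 1 = s := by omega
        rw [h6] at h5
        rw [hb] at hc
        exact h5 ((Cr_comm2 _ _ _ _).1 hc)
    · rcases e2 with ⟨ha, hb⟩ | ⟨ha, hb⟩
      · rw [ha, hb]; exact Cr_left _ _ _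
      · intro hc
        have h5 := hNji s hsm
        rw [nx_of_lt (show s < m by omega)] at h5
        rw [hb] at hc
        exact h5 hc
  have hin : i ≤ l ∧ l ≤ j := by
    by_contra hcon
    have hout : l < i ∨ j < l := by omega
    have hnw : ¬ (i = 0 ∧ j = m) := by omega
    have h5 := h2 m p i j hG hS hij hjm hnw hD l hlm hout (s - i) (by omega)
    rw [Nat.add_sub_cancel' his] at h5
    have hN : N (j - i) (sub i p) (p s) (p l) = 0 := by
      apply N_zero
      intro t ht hc
      by_cases htM : t = j - i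
      · rw [htM, nx_last] at hc
        have h6 : sub i p (j - i) = p j := by
          unfold sub
          rw [Nat.add_sub_cancel' (by omega)]
        have h7 : sub i p 0 = p i := rfl
        rw [h6, h7] at hc
        exact hji ((Cr_symm _ _ _ _).1 hc)
      · have h6 : nx (j - i) t = t + 1 := nx_of_lt (by omega)
        rw [h6] at hc
        have h7 := hNC (i + t) (by omega)
        rw [nx_of_lt (show i + t < m by omega)] at h7
        exact h7 hc
    rw [hN, zero_add] at h5
    have h8 : LfAt (j - i) (sub i p) (s - i) (p l) := by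
      unfold LfAt
      rw [hsub, hq1, hq2]
      rcases hTri with ⟨t1, t2, t3, _⟩ | ⟨t1, _, _, _⟩
      · left
        exact ⟨t1, t2, t3⟩
      · exact absurd hT (not_lt.2 (le_of_lt t1))
    exact (io_eq_zero.1 h5) h8
  refine ⟨l, hin.1, hin.2, ?_, ?_, ?_, hTri, hNC⟩
  · omega
  · rintro ⟨ha, hb⟩
    omega
  · rintro ⟨ha, hb⟩
    omega

end Pool.Agent.TSE
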