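import Pool.Agent.TSE.Stmts

/-!
# TSE: module NZB (a visible vertex in a left triangle gives a left diagonal)
-/

set_option autoImplicit false

namespace Pool.Agent.TSE

open Pool.Agent.TSM

namespace NZB_

theorem sub_at (p : ℕ → E3) {i s : ℕ} (h : i ≤ s) : sub i p (s - i) = p s := by
  unfold sub
  rw [Nat.add_sub_cancel' h]

theorem pv_mid (p : ℕ → E3) {i j s : ℕ} (h1 : i < s) :
    sub i p (pv (j - i) (s - i)) = p (s - 1) := by
  rw [pv_of_pos (by omega)]
  unfold sub
  rw [show i + (s - i - 1) = s - 1 by omega]

theorem pv_first (p : ℕ → E3) {i j : ℕ} (h : i ≤ j) :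
    sub i p (pv (j - i) (i - i)) = p j := by
  rw [Nat.sub_self, pv_zero]
  exact sub_at p h

theorem nx_mid (p : ℕ → E3) {i j s : ℕ} (h1 : i ≤ s) (h2 : s < j) :
    sub i p (nx (j - i) (s - i)) = p (s + 1) := by
  rw [nx_of_lt (by omega)]
  unfold sub
  rw [show i + (s - i + 1) = s + 1 by omega]

theorem nx_end (p : ℕ → E3) {i j : ℕ} : sub i p (nx (j - i) (j - i)) = p i := by
  rw [nx_last]
  rfl

/-- a left triangle -/
theorem tri_pos {a v b d : E3} (hT : 0 < det3 a v b) (h : Tri a v b d) :
    0 < det3 a v d ∧ 0 < det3 v b d ∧ 0 < det3 b a d := by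
  rcases h with ⟨_, h2, h3, h4⟩ | ⟨h1, _, _, _⟩
  · exact ⟨h2, h3, h4⟩
  · exact absurd h1 (not_lt.2 hT.le)

theorem lf_of_tri {a v b d : E3} (hT : 0 < det3 a v b) (h : Tri a v b d) : Lf a v b d := by
  obtain ⟨h1, h2, _⟩ := tri_pos hT h
  exact Or.inl ⟨hT, h1, h2⟩

/-- the direction `d` between `b` and `y`, where `y` is to the left and left of `b` -/
theorem lf_between1 (hW2 : Stmt_W2) {a v b y d : E3} (h1 : det3 a v b ≠ 0)
    (h2 : det3 a v y ≠ 0) (h3 : det3 a v d ≠ 0) (hL : Lf a v b y) (hy : 0 < det3 v b y)
    (hd : 0 < det3 v b d) (hdy : 0 < det3 v d y) : Lf a v b d := by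
  obtain ⟨_, w2, _, w4, _⟩ := hW2
  have e1 := w2 a v b y h1 h2 (ne_of_gt hy)
  have e2 := w2 a v b d h1 h3 (ne_of_gt hd)
  rw [io_pos hL, io_pos hy] at e1
  have e3 : io (Btw v b a y) = 0 := by
    revert e1
    generalize io (Btw v b a y) = z
    revert z
    decide
  have n1 : ¬ Btw v b a y := io_eq_zero.1 e3
  have n2 : ¬ Btw v b a d := by
    intro h
    exact n1 (w4 a v b d y h (Or.inl ⟨hd, hdy, hy⟩))
  rw [io_pos hd, io_neg n2, add_zero] at e2
  exact io_eq_one.1 e2

/-- the direction `d` between `a` and `y` -/
theorem lf_between2 (hW2 : Stmt_W2) {a v b y d : E3} (h1 : det3 a v b ≠ 0)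
    (h2 : det3 v b y ≠ 0) (h3 : det3 v b d ≠ 0) (hL : Lf a v b y) (hy : 0 < det3 a v y)
    (hd : 0 < det3 a v d) (hdy : 0 < det3 v y d) : Lf a v b d := by
  obtain ⟨_, _, w3, w4, _⟩ := hW2
  have e1 := w3 a v b y h1 (ne_of_gt hy) h2
  have e2 := w3 a v b d h1 (ne_of_gt hd) h3
  rw [io_pos hL, io_pos hy] at e1
  have e3 : io (Btw v a b y) = 0 := by
    revert e1
    generalize io (Btw v a b y) = z
    revert z
    decide
  have n1 : ¬ Btw v a b y := io_eq_zero.1 e3
  have hyv : det3 v a y < 0 := by
    have := det3_swap12 a v y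
    linarith
  have hdv : det3 v a d < 0 := by
    have := det3_swap12 a v d
    linarith
  have hdy' : det3 v d y < 0 := by
    have := det3_swap23 v y d
    linarith
  have n2 : ¬ Btw v a b d := by
    intro h
    exact n1 (w4 b v a d y h (Or.inr ⟨hdv, hdy', hyv⟩))
  rw [io_pos hd, io_neg n2, add_zero] at e2
  exact io_eq_one.1 e2

end NZB_

open NZB_ in
theorem nzb_proof (hW2 : Stmt_W2) (hSH : Stmt_SH) : Stmt_NZB := by
  intro m p i j hm hG hS hij hjm hLD s l his hsj hil hlj hsl hx1 hx2 hT hTri hNC
  have hL1 : LfAt m p s (p l) := by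
    unfold Turn at hT
    unfold TriAt at hTri
    unfold LfAt
    by_cases hwhole : i = 0 ∧ j = m
    · obtain ⟨h1, h2⟩ := hwhole
      subst h1
      subst h2
      have e : ∀ t, sub 0 p t = p t := by
        intro t
        unfold sub
        rw [Nat.zero_add]
      simp only [Nat.sub_zero, e] at hT hTri
      exact lf_of_tri hT hTri
    · have hLD' : NC m p i j ∧ LfAt m p i (p j) ∧ LfAt m p j (p i) := by
        rcases hLD with h | h
        · exact absurd h hwhole
        · exact h
      obtain ⟨_, hLi, hLj⟩ := hLD'
      rcases Nat.lt_or_ge i s with h1 | h1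
      · rcases Nat.lt_or_ge s j with h2 | h2
        · rw [pv_mid p h1, sub_at p his, nx_mid p his h2] at hT hTri
          rw [pv_of_pos (by omega), nx_of_lt (by omega)]
          exact lf_of_tri hT hTri
        · have h3 : s = j := by omega
          subst h3
          rw [pv_mid p h1, sub_at p his, nx_end p] at hT hTri
          obtain ⟨g1, g2, g3⟩ := tri_pos hT hTri
          unfold LfAt at hLj
          have hns : nx m s ≤ m := nx_le hjm
          have hnx : nx m s = s + 1 ∨ (s = m ∧ nx m s = 0) := by
            rcases Nat.lt_or_ge s m with h | h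
            · left; exact nx_of_lt h
            · right
              have : s = m := by omega
              subst this
              exact ⟨rfl, nx_last s⟩
          have hni : nx m s ≠ i := by
            rcases hnx with h | ⟨h, h'⟩
            · omega
            · intro h5
              apply hwhole
              constructor <;> omega
          rw [pv_of_pos (by omega)] at hLj ⊢
          have n1 : det3 (p (s - 1)) (p s) (p (nx m s)) ≠ 0 := by
            apply hG _ _ _ (by omega) hjm hns (by omega)
            · rcases hnx with h | ⟨h, h'⟩ <;> omega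
            · rcases hnx with h | ⟨h, h'⟩ <;> omega
          have n2 : det3 (p s) (p (nx m s)) (p i) ≠ 0 := by
            apply hG _ _ _ hjm hns (by omega)
            · rcases hnx with h | ⟨h, h'⟩ <;> omega
            · omega
            · exact hni
          have n3 : det3 (p s) (p (nx m s)) (p l) ≠ 0 := by
            apply hG _ _ _ hjm hns (by omega)
            · rcases hnx with h | ⟨h, h'⟩ <;> omega
            · omega
            · rcases hnx with h | ⟨h, h'⟩ <;> omega
          exact lf_between2 hW2 n1 n2 n3 hLj hT g1 g2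
      · have h3 : s = i := by omega
        subst h3
        rw [pv_first p (by omega), sub_at p his, nx_mid p his (by omega)] at hT hTri
        obtain ⟨g1, g2, g3⟩ := tri_pos hT hTri
        unfold LfAt at hLi
        have hns : pv m s ≤ m := pv_le (by omega)
        have hpv : (0 < s ∧ pv m s = s - 1) ∨ (s = 0 ∧ pv m s = m) := by
          rcases Nat.eq_zero_or_pos s with h | h
          · right
            subst h
            exact ⟨rfl, pv_zero m⟩
          · left
            exact ⟨h, pv_of_pos h⟩
        have hni : pv m s ≠ j := by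
          rcases hpv with ⟨h, h'⟩ | ⟨h, h'⟩
          · omega
          · intro h5
            apply hwhole
            constructor <;> omega
        rw [nx_of_lt (show s < m by omega)] at hLi ⊢
        have n1 : det3 (p (pv m s)) (p s) (p (s + 1)) ≠ 0 := by
          apply hG _ _ _ hns (by omega) (by omega)
          · rcases hpv with ⟨h, h'⟩ | ⟨h, h'⟩ <;> omega
          · rcases hpv with ⟨h, h'⟩ | ⟨h, h'⟩ <;> omega
          · omega
        have n2 : det3 (p (pv m s)) (p s) (p j) ≠ 0 := by
          apply hG _ _ _ hns (by omega) hjm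
          · rcases hpv with ⟨h, h'⟩ | ⟨h, h'⟩ <;> omega
          · exact hni
          · omega
        have n3 : det3 (p (pv m s)) (p s) (p l) ≠ 0 := by
          apply hG _ _ _ hns (by omega) (by omega)
          · rcases hpv with ⟨h, h'⟩ | ⟨h, h'⟩ <;> omega
          · rcases hpv with ⟨h, h'⟩ | ⟨h, h'⟩ <;> omega
          · omega
        have hy : 0 < det3 (p s) (p (s + 1)) (p j) := by
          rw [det3_cyc (p j) (p s) (p (s + 1))]
          exact hT
        have hdy : 0 < det3 (p s) (p l) (p j) := by
          rw [det3_cyc (p j) (p s) (p l)]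
          exact g1
        exact lf_between1 hW2 n1 n2 n3 hLi hy g2 hdy
  refine ⟨hL1, ?_⟩
  have hNad : Nad m s l := by
    refine ⟨by omega, ?_, ?_⟩
    · rcases Nat.lt_or_ge s m with h | h
      · rw [nx_of_lt h]; omega
      · have h' : s = m := by omega
        rw [h', nx_last]
        intro h5
        apply hx2
        constructor <;> omega
    · rcases Nat.lt_or_ge l m with h | h
      · rw [nx_of_lt h]; omega
      · have h' : l = m := by omega
        rw [h', nx_last]
        intro h5
        apply hx1
        constructor <;> omega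
  have h := hSH m p hm hG hS s l (by omega) (by omega) hNad
  have h0 : N m p (p s) (p l) = 0 := N_zero hNC
  have h1 : Lv m p s (p l) = 1 := io_pos hL1
  rw [h0, h1, zero_add] at h
  have h2 : Lv m p l (p s) = 1 := by
    revert h
    generalize Lv m p l (p s) = z
    revert z
    decide
  exact io_eq_one.1 h2

end Pool.Agent.TSE
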