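import Pool.Agent.TSE.Stmts

/-!
# TSE, module OUT: the other vertices lie on the right side of the part
-/

set_option autoImplicit false

namespace Pool.Agent.TSE

open Pool.Agent.TSM

namespace OUT_

/-- data of a proper left diagonal -/
structure Dat (m : ℕ) (p : ℕ → E3) (i j : ℕ) : Prop where
  gen : Gen m p
  simp : Simp m p
  hij : i + 2 ≤ j
  hjm : j ≤ m
  hw : ¬ (i = 0 ∧ j = m)
  nc : NC m p i j
  lf : LfAt m p j (p i)

variable {m : ℕ} {p : ℕ → E3} {i j : ℕ}

/-- index in the part -/
def InR (i j : ℕ) (l : ℕ) : Prop := l < i ∨ j < l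

lemma genP (h : Dat m p i j) {l : ℕ} (hl : l ≤ m) (ho : InR i j l) :
    GenP (j - i) (sub i p) (p l) := by
  intro a b ha hb hab
  have h1 := h.hij
  have h2 := h.hjm
  have ho' : l < i ∨ j < l := ho
  exact h.gen (i + a) (i + b) l (by omega) (by omega) hl (by omega) (by omega) (by omega)

/-- the arc of a side of `p` crosses no side of the part except possibly the closing side -/
lemma N_side_zero (h : Dat m p i j) {l : ℕ} (hl : l ≤ m)
    (hc : ¬ Cr (p l) (p (nx m l)) (p j) (p i)) :
    N (j - i) (sub i p) (p l) (p (nx m l)) = 0 := by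
  have h1 := h.hij
  have h2 := h.hjm
  apply N_zero
  intro t ht
  rcases Nat.lt_or_ge t (j - i) with h3 | h3
  · have h4 := side_NC h.simp hl (i + t) (by omega)
    rw [nx_of_lt (by omega : i + t < m)] at h4
    rw [nx_of_lt h3]
    exact h4
  · have h4 : t = j - i := by omega
    subst h4
    rw [nx_last]
    have h5 : sub i p (j - i) = p j := by unfold sub; congr 1; omega
    have h6 : sub i p 0 = p i := rfl
    rw [h5, h6]
    exact hc

lemma sig_first (hW : Stmt_W2) (h : Dat m p i j) :
    N (j - i) (sub i p) (sub i p (j - i)) (p (nx m j)) +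
      Lv (j - i) (sub i p) (j - i) (p (nx m j)) = 0 := by
  have h1 := h.hij
  have h2 := h.hjm
  have h5 : sub i p (j - i) = p j := by unfold sub; congr 1; omega
  have h6 : sub i p 0 = p i := rfl
  have h7 : sub i p (j - i - 1) = p (j - 1) := by unfold sub; congr 1; omega
  have hN : N (j - i) (sub i p) (sub i p (j - i)) (p (nx m j)) = 0 := by
    rw [h5]
    exact N_side_zero h h.hjm (Cr_left _ _ _)
  have hL : Lv (j - i) (sub i p) (j - i) (p (nx m j)) = 0 := by
    unfold Lv LfAt
    rw [nx_last, pv_of_pos (by omega : 0 < j - i), h5, h6, h7]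
    apply io_neg
    have h8 := h.lf
    unfold LfAt at h8
    rw [pv_of_pos (by omega : 0 < j)] at h8
    exact hW.2.2.2.2 _ _ _ _ h8
  rw [hN, hL, add_zero]

lemma sig_step (hS : Stmt_SG2) (hsub : Gen (j - i) (sub i p)) (h : Dat m p i j) {l : ℕ}
    (hl : l ≤ m) (ho : InR i j l) (ho' : InR i j (nx m l)) :
    N (j - i) (sub i p) (sub i p (j - i)) (p l) + Lv (j - i) (sub i p) (j - i) (p l) =
    N (j - i) (sub i p) (sub i p (j - i)) (p (nx m l)) +
      Lv (j - i) (sub i p) (j - i) (p (nx m l)) := by
  have h1 := h.hij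
  have h2 := h.hjm
  have hnl : nx m l ≤ m := nx_le hl
  have hne : nx m l ≠ l := nx_ne (by omega) hl
  have hg : ∀ a, a ≤ j - i → det3 (sub i p a) (p l) (p (nx m l)) ≠ 0 := by
    intro a ha
    have ho1 : l < i ∨ j < l := ho
    have ho2 : nx m l < i ∨ j < nx m l := ho'
    exact h.gen (i + a) l (nx m l) (by omega) hl hnl (by omega) (by omega) (Ne.symm hne)
  have h3 := hS (j - i) (sub i p) (p l) (p (nx m l)) (by omega) hsub (genP h hl ho)
    (genP h hnl ho') hg (j - i) le_rfl
  have h4 : N (j - i) (sub i p) (p l) (p (nx m l)) = 0 := by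
    apply N_side_zero h hl
    intro hc
    apply h.nc l hl
    rw [Cr_symm, Cr_comm2]
    exact hc
  rw [h4] at h3
  exact eq_of_add h3.symm

end OUT_

open OUT_ in
theorem out_proof (h1 : Stmt_SG2) (h2 : Stmt_SIG) (h3 : Stmt_W2) (h4 : Stmt_SUBG) : Stmt_OUT := by
  intro m p i j hG hS hij hjm hw hLD l hl ho s hs
  have hnc : NC m p i j ∧ LfAt m p i (p j) ∧ LfAt m p j (p i) := by
    rcases hLD with h | h
    · exact absurd h hw
    · exact h
  have hd : Dat m p i j := ⟨hG, hS, hij, hjm, hw, hnc.1, hnc.2.2⟩
  obtain ⟨hg, hsi⟩ := h4 m p i j hG hS hij hjm (Or.inr hnc.1)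
  -- the sum does not depend on `s`
  have hsig := h2 (j - i) (sub i p) (p l) (by omega) hg hsi (genP hd hl ho) s (j - i) hs le_rfl
  have hsub : sub i p s = p (i + s) := rfl
  rw [hsub] at hsig
  rw [hsig]
  -- vertices after `j`
  have hA : ∀ d, j + 1 + d ≤ m →
      N (j - i) (sub i p) (sub i p (j - i)) (p (j + 1 + d)) +
        Lv (j - i) (sub i p) (j - i) (p (j + 1 + d)) = 0 := by
    intro d
    induction d with
    | zero =>
      intro hd1
      have h5 := sig_first h3 hd
      rw [nx_of_lt (by omega : j < m)] at h5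
      exact h5
    | succ d ih =>
      intro hd1
      have h5 := ih (by omega)
      have h6 := sig_step h1 hg hd (l := j + 1 + d) (by omega) (Or.inr (by omega))
        (by rw [nx_of_lt (by omega : j + 1 + d < m)]; exact Or.inr (by omega))
      rw [nx_of_lt (by omega : j + 1 + d < m), h5] at h6
      exact h6.symm
  rcases ho with ho | ho
  · -- vertices before `i`
    have hB : ∀ d, d < i →
        N (j - i) (sub i p) (sub i p (j - i)) (p d) + Lv (j - i) (sub i p) (j - i) (p d) = 0 := by
      intro d
      induction d with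
      | zero =>
        intro hd1
        rcases Nat.lt_or_ge j m with hjm' | hjm'
        · have h5 := hA (m - (j + 1)) (by omega)
          have h7 : j + 1 + (m - (j + 1)) = m := by omega
          rw [h7] at h5
          have h6 := sig_step h1 hg hd (l := m) le_rfl (Or.inr (by omega))
            (by rw [nx_last]; exact Or.inl (by omega))
          rw [nx_last, h5] at h6
          exact h6.symm
        · have h5 := sig_first h3 hd
          have h7 : j = m := by omega
          rw [h7, nx_last] at h5
          rw [h7]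
          exact h5
      | succ d ih =>
        intro hd1
        have h5 := ih (by omega)
        have h6 := sig_step h1 hg hd (l := d) (by omega) (Or.inl (by omega))
          (by rw [nx_of_lt (by omega : d < m)]; exact Or.inl (by omega))
        rw [nx_of_lt (by omega : d < m), h5] at h6
        exact h6.symm
    exact hB l ho
  · have h5 := hA (l - (j + 1)) (by omega)
    have h7 : j + 1 + (l - (j + 1)) = l := by omega
    rw [h7] at h5
    exact h5

end Pool.Agent.TSE
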