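import Pool.Agent.TSE.Stmts

/-!
# TSE.PTB: small perturbations of a corner polygon are balanced
-/

set_option autoImplicit false

open scoped RealInnerProductSpace

namespace Pool.Agent.TSE

open Pool.Agent.TSM

namespace PTB_

theorem crs_comb (a b : ℝ) (P W : E3) : crs (-(a • P + b • W)) W = -(a • crs P W) := by
  apply ext3 <;>
    simp only [crs_zero, crs_one, crs_two, PiLp.neg_apply, PiLp.add_apply, PiLp.smul_apply,
      smul_eq_mul] <;> ring

theorem crs_inner_left (P W : E3) : (inner ℝ (crs P W) P : ℝ) = 0 := by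
  rw [inner_crs]; simp

theorem crs_inner_right (P W : E3) : (inner ℝ (crs P W) W : ℝ) = 0 := by
  rw [inner_crs]; simp

/-- the analytic core -/
theorem core (P W n Q : E3) (a b σ : ℝ) (ha : 0 < a) (hb : 0 < b) (hσ : σ = 1 ∨ σ = -1)
    (hn : n = -(a • crs P W)) (hQ : σ * (inner ℝ n Q : ℝ) < 0) :
    ∃ ε0 : ℝ, 0 < ε0 ∧ ∀ ε : ℝ, 0 < ε → ε < ε0 → ∀ ν : E3,
      (inner ℝ ν P : ℝ) ≤ 0 → (inner ℝ ν W : ℝ) ≤ 0 →
      (inner ℝ ν (-(a • P + b • W) + (ε * σ) • n) : ℝ) ≤ 0 → (inner ℝ ν Q : ℝ) ≤ 0 → ν = 0 := by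
  have hnP : (inner ℝ n P : ℝ) = 0 := by
    rw [hn, inner_neg_left, inner_smul_left, crs_inner_left]; simp
  have hnW : (inner ℝ n W : ℝ) = 0 := by
    rw [hn, inner_neg_left, inner_smul_left, crs_inner_right]; simp
  have hn0 : n ≠ 0 := by
    intro h
    rw [h, inner_zero_left, mul_zero] at hQ
    exact lt_irrefl _ hQ
  have hnn : (0 : ℝ) < inner ℝ n n := real_inner_self_pos.2 hn0
  have hD : det3 P W n ≠ 0 := by
    intro h
    have h1 : (inner ℝ n n : ℝ) = -(a * det3 P W n) := by
      conv_lhs => rw [hn]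
      rw [inner_neg_left, inner_smul_left, ← hn, inner_crs]
      simp
    rw [h1, h] at hnn
    simp at hnn
  obtain ⟨al, be, c, hc⟩ : ∃ al be c : ℝ, Q = al • P + be • W + c • n :=
    ⟨_, _, _, coords P W n Q hD⟩
  have hcn : (inner ℝ n Q : ℝ) = c * inner ℝ n n := by
    rw [hc, inner_add_right, inner_add_right, inner_smul_right, inner_smul_right,
      inner_smul_right, hnP, hnW]
    ring
  have hga : 0 < -(σ * c) := by
    rw [hcn] at hQ
    by_contra hcon
    have h2 : 0 ≤ σ * c := by linarith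
    have h3 : 0 ≤ σ * c * inner ℝ n n := mul_nonneg h2 hnn.le
    have h4 : σ * c * (inner ℝ n n : ℝ) = σ * (c * inner ℝ n n) := by ring
    rw [h4] at h3
    linarith
  have hss : σ * σ = 1 := by rcases hσ with h | h <;> rw [h] <;> norm_num
  set ga : ℝ := -(σ * c) with hgadef
  refine ⟨min (ga * a / (|al| + 1)) (ga * b / (|be| + 1)), ?_, ?_⟩
  · have h1 : 0 < |al| + 1 := by positivity
    have h2 : 0 < |be| + 1 := by positivity
    exact lt_min (by positivity) (by positivity)
  intro ε hε hε0 ν h1 h2 h3 h4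
  have e1 : ε * (|al| + 1) < ga * a := by
    rw [← lt_div_iff₀ (by positivity)]
    exact lt_of_lt_of_le hε0 (min_le_left _ _)
  have e2 : ε * (|be| + 1) < ga * b := by
    rw [← lt_div_iff₀ (by positivity)]
    exact lt_of_lt_of_le hε0 (min_le_right _ _)
  rw [inner_add_right, inner_neg_right, inner_add_right, inner_smul_right, inner_smul_right,
    inner_smul_right] at h3
  rw [hc, inner_add_right, inner_add_right, inner_smul_right, inner_smul_right,
    inner_smul_right] at h4
  set x : ℝ := -(inner ℝ ν P : ℝ) with hx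
  set y : ℝ := -(inner ℝ ν W : ℝ) with hy
  set w : ℝ := -(σ * (inner ℝ ν n : ℝ)) with hw
  have hxP : (inner ℝ ν P : ℝ) = -x := by rw [hx]; ring
  have hyW : (inner ℝ ν W : ℝ) = -y := by rw [hy]; ring
  have hwn : (inner ℝ ν n : ℝ) = -(σ * w) := by
    rw [hw]
    have : -(σ * -(σ * (inner ℝ ν n : ℝ))) = (σ * σ) * inner ℝ ν n := by ring
    rw [this, hss, one_mul]
  have hx0 : 0 ≤ x := by rw [hx]; linarith
  have hy0 : 0 ≤ y := by rw [hy]; linarith
  rw [hxP, hyW, hwn] at h3 h4
  have h5 : a * x + b * y ≤ ε * w := by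
    have : -(a * -x + b * -y) + ε * σ * -(σ * w) = a * x + b * y - ε * (σ * σ) * w := by ring
    rw [this, hss] at h3
    linarith
  have h6 : ga * w ≤ al * x + be * y := by
    have : al * -x + be * -y + c * -(σ * w) = -(al * x + be * y) + ga * w := by
      rw [hgadef]; ring
    rw [this] at h4
    linarith
  have h7 : al * x + be * y ≤ |al| * x + |be| * y := by
    have i1 : al * x ≤ |al| * x := mul_le_mul_of_nonneg_right (le_abs_self _) hx0
    have i2 : be * y ≤ |be| * y := mul_le_mul_of_nonneg_right (le_abs_self _) hy0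
    linarith
  have h8 : ga * (a * x + b * y) ≤ ε * (|al| * x + |be| * y) := by
    calc ga * (a * x + b * y) ≤ ga * (ε * w) := mul_le_mul_of_nonneg_left h5 hga.le
      _ = ε * (ga * w) := by ring
      _ ≤ ε * (|al| * x + |be| * y) := mul_le_mul_of_nonneg_left (h6.trans h7) hε.le
  have h9 : (ga * a - ε * |al|) * x + (ga * b - ε * |be|) * y ≤ 0 := by
    have : (ga * a - ε * |al|) * x + (ga * b - ε * |be|) * y =
        ga * (a * x + b * y) - ε * (|al| * x + |be| * y) := by ring
    rw [this]; linarith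
  have k1 : 0 < ga * a - ε * |al| := by
    have : ε * (|al| + 1) = ε * |al| + ε := by ring
    linarith
  have k2 : 0 < ga * b - ε * |be| := by
    have : ε * (|be| + 1) = ε * |be| + ε := by ring
    linarith
  have k3 : 0 ≤ (ga * a - ε * |al|) * x := mul_nonneg k1.le hx0
  have k4 : 0 ≤ (ga * b - ε * |be|) * y := mul_nonneg k2.le hy0
  have x0 : x = 0 := by
    have : (ga * a - ε * |al|) * x = 0 := by linarith
    rcases mul_eq_zero.1 this with h | h
    · linarith
    · exact h
  have y0 : y = 0 := by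
    have : (ga * b - ε * |be|) * y = 0 := by linarith
    rcases mul_eq_zero.1 this with h | h
    · linarith
    · exact h
  have w0 : w = 0 := by
    rw [x0, y0] at h5 h6
    have i1 : 0 ≤ ε * w := by linarith
    have i2 : ga * w ≤ 0 := by linarith
    have i3 : 0 ≤ w := by
      by_contra hcon
      have : ε * w < 0 := mul_neg_of_pos_of_neg hε (not_le.1 hcon)
      linarith
    have i4 : w ≤ 0 := by
      by_contra hcon
      have : 0 < ga * w := mul_pos hga (not_le.1 hcon)
      linarith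
    linarith
  apply eq_zero_of_inner P W n ν hD
  · rw [hxP, x0, neg_zero]
  · rw [hyW, y0, neg_zero]
  · rw [hwn, w0]; simp

end PTB_

theorem ptb_proof : Stmt_PTB := by
  intro V _ L m0 q0 a b σ hL _ hC
  -- a fourth vertex
  obtain ⟨i, hi, hi2⟩ : ∃ i ∈ L.S, i ∉ ({q0, m0, L.s m0} : Finset V) := by
    apply Finset.exists_mem_notMem_of_card_lt_card
    calc ({q0, m0, L.s m0} : Finset V).card ≤ 3 := Finset.card_le_three
      _ < 4 := by norm_num
      _ ≤ L.S.card := hL.card
  simp only [Finset.mem_insert, Finset.mem_singleton, not_or] at hi2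
  obtain ⟨i1, i2, i3⟩ := hi2
  have hM : L.p m0 = -(a • L.p q0 + b • L.p (L.s m0)) := by
    have := hC.flat
    rw [add_comm] at this
    exact eq_neg_of_add_eq_zero_left this
  have hn : L.nor m0 = -(a • crs (L.p q0) (L.p (L.s m0))) := by
    unfold Pg.nor
    rw [hM]
    exact PTB_.crs_comb a b _ _
  -- different labels
  have hneg := hC.neg i hi i1 i2 i3
  have hqm : q0 ≠ m0 := by
    intro h
    have hs : L.s q0 = q0 := by rw [hC.hs, h]
    obtain ⟨k, hk⟩ := hL.trans q0 hC.hq i hi
    have : L.s^[k] q0 = q0 := Function.iterate_fixed hs k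
    rw [this] at hk
    exact i1 hk.symm
  have hsm : L.s m0 ≠ m0 := by
    intro hs
    obtain ⟨k, hk⟩ := hL.trans m0 hC.hm i hi
    have : L.s^[k] m0 = m0 := Function.iterate_fixed hs k
    rw [this] at hk
    exact i2 hk.symm
  obtain ⟨ε0, he0, hε⟩ := PTB_.core (L.p q0) (L.p (L.s m0)) (L.nor m0) (L.p i) a b σ hC.ha hC.hb
    hC.hσ hn hneg
  refine ⟨ε0, he0, fun ε h1 h2 ν hν => ?_⟩
  by_contra hcon
  push Not at hcon
  apply hν
  have p1 : (pert L m0 (ε * σ)).p q0 = L.p q0 := Function.update_of_ne hqm _ _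
  have p2 : (pert L m0 (ε * σ)).p (L.s m0) = L.p (L.s m0) := Function.update_of_ne hsm _ _
  have p3 : (pert L m0 (ε * σ)).p i = L.p i := Function.update_of_ne i2 _ _
  have p4 : (pert L m0 (ε * σ)).p m0 =
      -(a • L.p q0 + b • L.p (L.s m0)) + (ε * σ) • L.nor m0 := by
    have : (pert L m0 (ε * σ)).p m0 = L.p m0 + (ε * σ) • L.nor m0 :=
      Function.update_self _ _ _
    rw [this, hM]
  apply hε ε h1 h2 ν
  · rw [← p1]; exact hcon q0 hC.hq
  · rw [← p2]; exact hcon _ (hL.maps _ hC.hm)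
  · rw [← p4]; exact hcon m0 hC.hm
  · rw [← p3]; exact hcon i hi

end Pool.Agent.TSE
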