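import Pool.Agent.TSE.Stmts

/-!
# TSE, module PTG: generic for small perturbations
-/

set_option autoImplicit false

namespace Pool.Agent.TSE

open Pool.Agent.TSM Filter Topology

namespace PTG_

lemma cont_det3 {f g h : ℝ → E3} (hf : Continuous f) (hg : Continuous g) (hh : Continuous h) :
    Continuous fun x => det3 (f x) (g x) (h x) := by
  unfold det3
  fun_prop

section

variable {V : Type} [DecidableEq V]

lemma pert_p (L : Pg V) (m0 : V) (r : ℝ) (i : V) :
    (pert L m0 r).p i = if i = m0 then L.p m0 + r • L.nor m0 else L.p i := by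
  simp [pert, Function.update_apply]

lemma cont_pert (L : Pg V) (m0 : V) (σ : ℝ) (i : V) :
    Continuous fun ε : ℝ => (pert L m0 (ε * σ)).p i := by
  simp only [pert_p]
  split_ifs
  · fun_prop
  · fun_prop

/-- the normal of the flat sector is not zero -/
lemma nor_ne {L : Pg V} {m0 q0 : V} {a b σ : ℝ} (hL : L.Ok) (hC : Cor L m0 q0 a b σ) :
    L.nor m0 ≠ 0 := by
  intro h0
  have h1 : ∃ i ∈ L.S, i ∉ ({q0, m0, L.s m0} : Finset V) := by
    by_contra hcon
    push Not at hcon
    have h2 : L.S.card ≤ ({q0, m0, L.s m0} : Finset V).card := Finset.card_le_card hcon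
    have h3 : ({q0, m0, L.s m0} : Finset V).card ≤ 3 := Finset.card_le_three
    have h4 := hL.card
    omega
  obtain ⟨i, hi, hni⟩ := h1
  simp only [Finset.mem_insert, Finset.mem_singleton, not_or] at hni
  have h5 := hC.neg i hi hni.1 hni.2.1 hni.2.2
  rw [h0, inner_zero_left, mul_zero] at h5
  exact lt_irrefl _ h5

/-- the determinant of the lifted flat triple -/
lemma flat_det {L : Pg V} {m0 q0 : V} {a b σ : ℝ} (hC : Cor L m0 q0 a b σ) (r : ℝ) :
    a * det3 (L.p q0) (L.p m0 + r • L.nor m0) (L.p (L.s m0)) =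
      r * (inner ℝ (L.nor m0) (L.nor m0) : ℝ) := by
  have h1 : L.p m0 = -(a • L.p q0 + b • L.p (L.s m0)) := by
    have h2 := hC.flat
    exact (neg_eq_of_add_eq_zero_right h2).symm
  have h3 : L.nor m0 = -a • crs (L.p q0) (L.p (L.s m0)) := by
    unfold Pg.nor
    rw [h1]
    apply ext3 <;>
      simp only [crs_zero, crs_one, crs_two, PiLp.smul_apply, PiLp.neg_apply, PiLp.add_apply,
        smul_eq_mul] <;> ring
  rw [inner3, h3, h1]
  simp only [det3, crs_zero, crs_one, crs_two, PiLp.smul_apply, PiLp.neg_apply, PiLp.add_apply,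
    smul_eq_mul]
  ring

end

end PTG_

open PTG_

theorem ptg_proof : Stmt_PTG := by
  intro V _ L m0 q0 a b σ hL hX hC
  have hσ0 : σ ≠ 0 := by
    rcases hC.hσ with h | h <;> rw [h] <;> norm_num
  -- the flat triple
  have hflat : ∀ ε : ℝ, 0 < ε → q0 ≠ m0 → L.s m0 ≠ m0 →
      det3 ((pert L m0 (ε * σ)).p q0) ((pert L m0 (ε * σ)).p m0)
        ((pert L m0 (ε * σ)).p (L.s m0)) ≠ 0 := by
    intro ε hε h1 h2 h3
    rw [pert_p, pert_p, pert_p, if_neg h1, if_pos rfl, if_neg h2] at h3
    have h4 := flat_det hC (ε * σ)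
    rw [h3, mul_zero] at h4
    have h5 : (inner ℝ (L.nor m0) (L.nor m0) : ℝ) ≠ 0 := by
      intro h6
      exact nor_ne hL hC (inner_self_eq_zero.1 h6)
    have h6 : ε * σ ≠ 0 := mul_ne_zero hε.ne' hσ0
    exact mul_ne_zero h6 h5 h4.symm
  -- one triple
  have hone : ∀ i ∈ L.S, ∀ j ∈ L.S, ∀ k ∈ L.S, ∀ᶠ ε : ℝ in 𝓝[>] 0, i ≠ j → i ≠ k → j ≠ k →
      det3 ((pert L m0 (ε * σ)).p i) ((pert L m0 (ε * σ)).p j) ((pert L m0 (ε * σ)).p k) ≠ 0 := by
    intro i hi j hj k hk
    by_cases hF : L.Flat i j k
    · filter_upwards [self_mem_nhdsWithin] with ε hε hij hik hjk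
      obtain ⟨m, q, hm, hq, hsq, hset⟩ := hF
      have hmm : m = m0 := by
        rw [hX] at hm
        exact (Option.some.inj hm).symm
      subst hmm
      have hqq : q = q0 := hL.inj q hq q0 hC.hq (by rw [hsq, hC.hs])
      subst hqq
      have hcard : ({i, j, k} : Finset V).card = 3 := by
        rw [Finset.card_eq_three]
        exact ⟨i, j, k, hij, hik, hjk, rfl⟩
      rw [hset] at hcard
      have hd : q ≠ m ∧ q ≠ L.s m ∧ m ≠ L.s m := by
        refine ⟨?_, ?_, ?_⟩
        · intro h
          rw [h] at hcard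
          have : ({m, m, L.s m} : Finset V).card ≤ 2 := by
            rw [Finset.insert_eq_of_mem (by simp)]
            exact Finset.card_le_two
          omega
        · intro h
          have : ({q, m, L.s m} : Finset V).card ≤ 2 := by
            rw [← h, Finset.insert_eq_of_mem (by simp)]
            exact Finset.card_le_two
          omega
        · intro h
          have : ({q, m, L.s m} : Finset V).card ≤ 2 := by
            rw [← h]
            have h8 : ({q, m, m} : Finset V) = {q, m} := by
              ext x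
              simp
            rw [h8]
            exact Finset.card_le_two
          omega
      have hbase := hflat ε hε hd.1 (Ne.symm hd.2.2)
      have hi' : i ∈ ({q, m, L.s m} : Finset V) := by rw [← hset]; simp
      have hj' : j ∈ ({q, m, L.s m} : Finset V) := by rw [← hset]; simp
      have hk' : k ∈ ({q, m, L.s m} : Finset V) := by rw [← hset]; simp
      simp only [Finset.mem_insert, Finset.mem_singleton] at hi' hj' hk'
      generalize (pert L m (ε * σ)).p = P at hbase ⊢
      generalize L.s m = z at hbase hi' hj' hk' hd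
      rcases hi' with rfl | rfl | rfl <;> rcases hj' with rfl | rfl | rfl <;>
        rcases hk' with rfl | rfl | rfl <;> first
        | exact absurd rfl hij
        | exact absurd rfl hik
        | exact absurd rfl hjk
        | exact hbase
        | (rw [det3_cyc]; exact hbase)
        | (rw [det3_cyc2]; exact hbase)
        | (rw [det3_swap12]; exact neg_ne_zero.2 hbase)
        | (rw [det3_swap23]; exact neg_ne_zero.2 hbase)
        | (rw [det3_swap13]; exact neg_ne_zero.2 hbase)
    · by_cases hd : i ≠ j ∧ i ≠ k ∧ j ≠ k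
      · have h0 := hL.gen i hi j hj k hk hd.1 hd.2.1 hd.2.2 hF
        have hc : Continuous fun ε : ℝ => det3 ((pert L m0 (ε * σ)).p i)
            ((pert L m0 (ε * σ)).p j) ((pert L m0 (ε * σ)).p k) :=
          cont_det3 (cont_pert L m0 σ i) (cont_pert L m0 σ j) (cont_pert L m0 σ k)
        have hz : ∀ v : V, (pert L m0 (0 * σ)).p v = L.p v := by
          intro v
          rw [pert_p, zero_mul, zero_smul, add_zero]
          split_ifs with h
          · rw [h]
          · rfl
        have h1 : ∀ᶠ ε : ℝ in 𝓝 0, det3 ((pert L m0 (ε * σ)).p i)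
            ((pert L m0 (ε * σ)).p j) ((pert L m0 (ε * σ)).p k) ≠ 0 := by
          refine hc.continuousAt.eventually_ne ?_
          simp only [hz]
          exact h0
        filter_upwards [nhdsWithin_le_nhds h1] with ε hε _ _ _
        exact hε
      · refine Eventually.of_forall fun ε h1 h2 h3 => absurd ⟨h1, h2, h3⟩ hd
  -- all triples
  have hall : ∀ᶠ ε : ℝ in 𝓝[>] 0, ∀ i ∈ L.S, ∀ j ∈ L.S, ∀ k ∈ L.S, i ≠ j → i ≠ k → j ≠ k →
      det3 ((pert L m0 (ε * σ)).p i) ((pert L m0 (ε * σ)).p j) ((pert L m0 (ε * σ)).p k) ≠ 0 := by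
    rw [Filter.eventually_all_finset]
    intro i hi
    rw [Filter.eventually_all_finset]
    intro j hj
    rw [Filter.eventually_all_finset]
    intro k hk
    exact hone i hi j hj k hk
  obtain ⟨ε0, hε0, hsub⟩ := mem_nhdsGT_iff_exists_Ioo_subset.1 hall
  refine ⟨ε0, hε0, ?_⟩
  intro ε h1 h2
  exact hsub ⟨h1, h2⟩

end Pool.Agent.TSE
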