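import Pool.Agent.TSE.Stmts

/-!
# TSE module PTS: simplicity of all perturbations
-/

set_option autoImplicit false

namespace Pool.Agent.TSE

open Pool.Agent.TSM

namespace PTS_

variable {V : Type} [DecidableEq V]

theorem iter_mem_one (s : V → V) (m0 : V) (h : s m0 = m0) (k : ℕ) : s^[k] m0 = m0 := by
  induction k with
  | zero => rfl
  | succ n ih => rw [Function.iterate_succ_apply, h, ih]

theorem iter_mem_two (s : V → V) (m0 q0 : V) (h : s m0 = q0) (h2 : s q0 = m0) (k : ℕ) :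
    s^[k] m0 = m0 ∨ s^[k] m0 = q0 := by
  induction k with
  | zero => left; rfl
  | succ n ih =>
    rw [Function.iterate_succ_apply']
    rcases ih with ih | ih
    · right; rw [ih, h]
    · left; rw [ih, h2]

theorem dist_q (L : Pg V) (hL : L.Ok) (m0 q0 : V) (a b σ : ℝ) (hc : Cor L m0 q0 a b σ) :
    q0 ≠ m0 ∧ L.s m0 ≠ m0 ∧ L.s m0 ≠ q0 := by
  have h1 : q0 ≠ m0 := by
    intro h
    have hs : L.s m0 = m0 := by
      have := hc.hs
      rwa [h] at this
    have hsub : L.S ⊆ {m0} := by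
      intro j hj
      obtain ⟨k, hk⟩ := hL.trans m0 hc.hm j hj
      rw [iter_mem_one L.s m0 hs] at hk
      rw [← hk]
      exact Finset.mem_singleton_self _
    have h3 := Finset.card_le_card hsub
    rw [Finset.card_singleton] at h3
    have := hL.card
    omega
  refine ⟨h1, ?_, ?_⟩
  · intro h
    exact h1 (hL.inj q0 hc.hq m0 hc.hm (by rw [hc.hs, h]))
  · intro h
    have hsub : L.S ⊆ {m0, q0} := by
      intro j hj
      obtain ⟨k, hk⟩ := hL.trans m0 hc.hm j hj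
      rcases iter_mem_two L.s m0 q0 h hc.hs k with h4 | h4
      · rw [← hk, h4]; simp
      · rw [← hk, h4]; simp
    have h3 := Finset.card_le_card hsub
    have h5 : ({m0, q0} : Finset V).card ≤ 2 := Finset.card_le_two
    have := hL.card
    omega

theorem inner_q (L : Pg V) (m0 q0 : V) (a b σ : ℝ) (hc : Cor L m0 q0 a b σ) :
    (inner ℝ (L.nor m0) (L.p q0) : ℝ) = 0 := by
  have h1 : (inner ℝ (L.nor m0) (a • L.p q0 + b • L.p (L.s m0) + L.p m0) : ℝ) = 0 := by
    rw [hc.flat, inner_zero_right]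
  rw [inner_add_right, inner_add_right, inner_smul_right, inner_smul_right, Pg.nor, inner_crs,
    inner_crs, inner_crs, det3_aba, det3_baa] at h1
  rw [Pg.nor, inner_crs]
  have h2 : a * det3 (L.p m0) (L.p (L.s m0)) (L.p q0) = 0 := by linarith
  rcases mul_eq_zero.1 h2 with h3 | h3
  · exact absurd h3 (ne_of_gt hc.ha)
  · exact h3

theorem inner_m (L : Pg V) (m0 : V) : (inner ℝ (L.nor m0) (L.p m0) : ℝ) = 0 := by
  rw [Pg.nor, inner_crs, det3_aba]

theorem inner_s (L : Pg V) (m0 : V) : (inner ℝ (L.nor m0) (L.p (L.s m0)) : ℝ) = 0 := by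
  rw [Pg.nor, inner_crs, det3_baa]

theorem nor_pos (L : Pg V) (hL : L.Ok) (m0 q0 : V) (a b σ : ℝ) (hc : Cor L m0 q0 a b σ) :
    0 < (inner ℝ (L.nor m0) (L.nor m0) : ℝ) := by
  have h1 : ¬ L.S ⊆ {q0, m0, L.s m0} := by
    intro h
    have h2 := Finset.card_le_card h
    have h3 : ({q0, m0, L.s m0} : Finset V).card ≤ 3 := Finset.card_le_three
    have := hL.card
    omega
  rw [Finset.not_subset] at h1
  obtain ⟨i, hi, hi2⟩ := h1
  simp only [Finset.mem_insert, Finset.mem_singleton, not_or] at hi2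
  have h4 := hc.neg i hi hi2.1 hi2.2.1 hi2.2.2
  have h5 : L.nor m0 ≠ 0 := by
    intro h
    rw [h, inner_zero_left, mul_zero] at h4
    exact lt_irrefl _ h4
  exact real_inner_self_pos.2 h5

theorem pp (L : Pg V) (m0 : V) (r : ℝ) (i : V) (h : i ≠ m0) : (pert L m0 r).p i = L.p i := by
  show Function.update L.p m0 (L.p m0 + r • L.nor m0) i = L.p i
  exact Function.update_of_ne h _ _

theorem pm (L : Pg V) (m0 : V) (r : ℝ) : (pert L m0 r).p m0 = L.p m0 + r • L.nor m0 := by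
  show Function.update L.p m0 (L.p m0 + r • L.nor m0) m0 = _
  exact Function.update_self _ _ _

theorem le_other (L : Pg V) (m0 q0 : V) (a b σ : ℝ) (hc : Cor L m0 q0 a b σ) (i : V)
    (hi : i ∈ L.S) (him : i ≠ m0) : σ * (inner ℝ (L.nor m0) (L.p i) : ℝ) ≤ 0 := by
  by_cases h1 : i = q0
  · rw [h1, inner_q L m0 q0 a b σ hc, mul_zero]
  · by_cases h2 : i = L.s m0
    · rw [h2, inner_s, mul_zero]
    · exact (hc.neg i hi h1 him h2).le

/-- a face away from `m0` -/
theorem face_same (L : Pg V) (m0 : V) (r : ℝ) (j : V) (hj : j ≠ m0) (hj2 : L.s j ≠ m0) (x : E3) :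
    x ∈ (pert L m0 r).face j ↔ x ∈ L.face j := by
  have h1 : (pert L m0 r).p (L.s j) = L.p (L.s j) := pp L m0 r _ hj2
  have h2 : (pert L m0 r).p j = L.p j := pp L m0 r _ hj
  constructor
  · rintro ⟨u, v, hu, hv, hx⟩
    refine ⟨u, v, hu, hv, ?_⟩
    rw [hx]
    show u • (pert L m0 r).p j + v • (pert L m0 r).p (L.s j) = _
    rw [h1, h2]
  · rintro ⟨u, v, hu, hv, hx⟩
    refine ⟨u, v, hu, hv, ?_⟩
    show x = u • (pert L m0 r).p j + v • (pert L m0 r).p (L.s j)
    rw [h1, h2, hx]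

theorem face_le (L : Pg V) (hL : L.Ok) (m0 q0 : V) (a b σ : ℝ) (hc : Cor L m0 q0 a b σ) (j : V)
    (hj : j ∈ L.S) (hjm : j ≠ m0) (hjs : L.s j ≠ m0) (x : E3) (hx : x ∈ L.face j) :
    σ * (inner ℝ (L.nor m0) x : ℝ) ≤ 0 := by
  obtain ⟨u, v, hu, hv, hx⟩ := hx
  rw [hx, inner_add_right, inner_smul_right, inner_smul_right]
  have h1 := le_other L m0 q0 a b σ hc j hj hjm
  have h2 := le_other L m0 q0 a b σ hc (L.s j) (hL.maps j hj) hjs
  have h3 := mul_nonneg hu (neg_nonneg.2 h1)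
  have h4 := mul_nonneg hv (neg_nonneg.2 h2)
  nlinarith

theorem inner_pm (L : Pg V) (m0 : V) (σ ε : ℝ) (hσ : σ = 1 ∨ σ = -1) :
    σ * (inner ℝ (L.nor m0) (L.p m0 + (ε * σ) • L.nor m0) : ℝ) =
      ε * (inner ℝ (L.nor m0) (L.nor m0) : ℝ) := by
  rw [inner_add_right, inner_smul_right, inner_m]
  have : σ * σ = 1 := by rcases hσ with h | h <;> rw [h] <;> norm_num
  calc σ * (0 + ε * σ * (inner ℝ (L.nor m0) (L.nor m0) : ℝ))
      = (σ * σ) * (ε * (inner ℝ (L.nor m0) (L.nor m0) : ℝ)) := by ring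
    _ = _ := by rw [this, one_mul]

/-- a point of a lifted face which lies below the plane lies in the old face -/
theorem lifted (L : Pg V) (hL : L.Ok) (m0 q0 : V) (a b σ ε : ℝ) (hc : Cor L m0 q0 a b σ)
    (hε : 0 < ε) (i : V) (hi : i = q0 ∨ i = m0) (x : E3)
    (hx : x ∈ (pert L m0 (ε * σ)).face i) (hle : σ * (inner ℝ (L.nor m0) x : ℝ) ≤ 0) :
    x ∈ L.face i := by
  obtain ⟨hqm, hsm, hsq⟩ := dist_q L hL m0 q0 a b σ hc
  have hn := nor_pos L hL m0 q0 a b σ hc
  obtain ⟨u, v, hu, hv, hx⟩ := hx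
  have hx' : x = u • (pert L m0 (ε * σ)).p i + v • (pert L m0 (ε * σ)).p (L.s i) := hx
  have hk := inner_pm L m0 σ ε hc.hσ
  have hpos : 0 < ε * (inner ℝ (L.nor m0) (L.nor m0) : ℝ) := mul_pos hε hn
  rcases hi with rfl | rfl
  · rw [hc.hs, pm, pp L m0 _ i hqm] at hx'
    rw [hx', inner_add_right, inner_smul_right, inner_smul_right,
      inner_q L m0 i a b σ hc] at hle
    have h1 : v * (σ * (inner ℝ (L.nor m0) (L.p m0 + (ε * σ) • L.nor m0) : ℝ)) ≤ 0 := by
      nlinarith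
    rw [hk] at h1
    have h2 : v ≤ 0 := by
      by_contra h3
      push Not at h3
      have := mul_pos h3 hpos
      linarith
    have h3 : v = 0 := le_antisymm h2 hv
    refine ⟨u, 0, hu, le_refl _, ?_⟩
    rw [hx', h3]
    simp
  · rw [pm, pp L i _ (L.s i) hsm] at hx'
    rw [hx', inner_add_right, inner_smul_right, inner_smul_right, inner_s] at hle
    have h1 : u * (σ * (inner ℝ (L.nor i) (L.p i + (ε * σ) • L.nor i) : ℝ)) ≤ 0 := by
      nlinarith
    rw [hk] at h1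
    have h2 : u ≤ 0 := by
      by_contra h3
      push Not at h3
      have := mul_pos h3 hpos
      linarith
    have h3 : u = 0 := le_antisymm h2 hu
    refine ⟨0, v, le_refl _, hv, ?_⟩
    rw [hx', h3]
    simp

theorem det_flat (L : Pg V) (hL : L.Ok) (m0 q0 : V) (a b σ ε : ℝ) (hc : Cor L m0 q0 a b σ)
    (hε : 0 < ε) :
    det3 (L.p q0) (L.p m0 + (ε * σ) • L.nor m0) (L.p (L.s m0)) ≠ 0 := by
  have hn := nor_pos L hL m0 q0 a b σ hc
  have h1 : a * det3 (L.p q0) (L.p m0 + (ε * σ) • L.nor m0) (L.p (L.s m0)) =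
      (ε * σ) * (inner ℝ (L.nor m0) (L.nor m0) : ℝ) := by
    have e1 : a • L.p q0 = -(L.p m0) - b • L.p (L.s m0) := by
      have := hc.flat
      rw [add_assoc] at this
      rw [eq_neg_of_add_eq_zero_left this]
      module
    have e2 : (inner ℝ (L.nor m0) (L.nor m0) : ℝ) = det3 (L.p m0) (L.p (L.s m0)) (L.nor m0) := by
      conv_lhs => rw [Pg.nor]
      rw [inner_crs, Pg.nor]
    rw [← det3_smul1, e1, e2]
    simp only [det3, PiLp.add_apply, PiLp.smul_apply, PiLp.sub_apply, PiLp.neg_apply, smul_eq_mul]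
    ring
  intro h
  rw [h, mul_zero] at h1
  have hσ : σ ≠ 0 := by rcases hc.hσ with h | h <;> rw [h] <;> norm_num
  have h2 : (ε * σ) * (inner ℝ (L.nor m0) (L.nor m0) : ℝ) ≠ 0 :=
    mul_ne_zero (mul_ne_zero hε.ne' hσ) hn.ne'
  exact h2 h1.symm

/-- the two lifted faces -/
theorem two_lifted (L : Pg V) (hL : L.Ok) (m0 q0 : V) (a b σ ε : ℝ) (hc : Cor L m0 q0 a b σ)
    (hε : 0 < ε) (x : E3) (h1 : x ∈ (pert L m0 (ε * σ)).face q0)
    (h2 : x ∈ (pert L m0 (ε * σ)).face m0) :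
    ∃ c : ℝ, 0 ≤ c ∧ x = c • (pert L m0 (ε * σ)).p m0 := by
  obtain ⟨hqm, hsm, hsq⟩ := dist_q L hL m0 q0 a b σ hc
  obtain ⟨u, v, hu, hv, hx⟩ := h1
  obtain ⟨w, z, hw, hz, hy⟩ := h2
  have hx' : x = u • (pert L m0 (ε * σ)).p q0 + v • (pert L m0 (ε * σ)).p (L.s q0) := hx
  have hy' : x = w • (pert L m0 (ε * σ)).p m0 + z • (pert L m0 (ε * σ)).p (L.s m0) := hy
  rw [hc.hs, pm, pp L m0 _ q0 hqm] at hx'
  rw [pm, pp L m0 _ (L.s m0) hsm] at hy'
  have hd := det_flat L hL m0 q0 a b σ ε hc hε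
  have he : u • L.p q0 + (v - w) • (L.p m0 + (ε * σ) • L.nor m0) + (-z) • L.p (L.s m0) = 0 := by
    have : u • L.p q0 + (v - w) • (L.p m0 + (ε * σ) • L.nor m0) + (-z) • L.p (L.s m0) =
      (u • L.p q0 + v • (L.p m0 + (ε * σ) • L.nor m0)) -
      (w • (L.p m0 + (ε * σ) • L.nor m0) + z • L.p (L.s m0)) := by module
    rw [this, ← hx', ← hy', sub_self]
  obtain ⟨r1, r2, r3⟩ := indep3 _ _ _ hd he
  refine ⟨v, hv, ?_⟩
  rw [hx', r1, pm]
  simp

end PTS_

open PTS_ in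
theorem pts_proof : Stmt_PTS := by
  intro V _ L m0 q0 a b σ ε hL hX hc hε i hi j hj hij x hxi hxj
  obtain ⟨hqm, hsm, hsq⟩ := dist_q L hL m0 q0 a b σ hc
  have key : ∀ k ∈ L.S, k ≠ q0 → L.s k ≠ m0 := by
    intro k hk hkq h
    exact hkq (hL.inj k hk q0 hc.hq (by rw [h, hc.hs]))
  -- one lifted face and one old face
  have mixed : ∀ i ∈ L.S, ∀ j ∈ L.S, i ≠ j → (i = q0 ∨ i = m0) → j ≠ q0 → j ≠ m0 →
      x ∈ (pert L m0 (ε * σ)).face i → x ∈ (pert L m0 (ε * σ)).face j →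
      (j = L.s i ∧ ∃ a : ℝ, 0 ≤ a ∧ x = a • (pert L m0 (ε * σ)).p j) ∨
      (i = L.s j ∧ ∃ a : ℝ, 0 ≤ a ∧ x = a • (pert L m0 (ε * σ)).p i) ∨ x = 0 := by
    intro i hi j hj hij h1 hjq hjm hxi hxj
    have hjs := key j hj hjq
    rw [face_same L m0 _ j hjm hjs] at hxj
    have hle := face_le L hL m0 q0 a b σ hc j hj hjm hjs x hxj
    have hxi2 := lifted L hL m0 q0 a b σ ε hc hε i h1 x hxi hle
    rcases hL.simple i hi j hj hij x hxi2 hxj with ⟨h2, c, h3, h4⟩ | ⟨h2, c, h3, h4⟩ | h2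
    · left
      exact ⟨h2, c, h3, by rw [pp L m0 _ j hjm, h4]⟩
    · right; left
      refine ⟨h2, c, h3, ?_⟩
      have him : i ≠ m0 := by
        rw [h2]; exact hjs
      rw [pp L m0 _ i him, h4]
    · right; right; exact h2
  by_cases hiA : i = q0 ∨ i = m0
  · by_cases hjA : j = q0 ∨ j = m0
    · rcases hiA with rfl | rfl
      · rcases hjA with h | rfl
        · exact absurd h.symm hij
        · left
          exact ⟨hc.hs.symm, two_lifted L hL j i a b σ ε hc hε x hxi hxj⟩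
      · rcases hjA with rfl | h
        · right; left
          exact ⟨hc.hs.symm, two_lifted L hL i j a b σ ε hc hε x hxj hxi⟩
        · exact absurd h.symm hij
    · push Not at hjA
      exact mixed i hi j hj hij hiA hjA.1 hjA.2 hxi hxj
  · push Not at hiA
    by_cases hjA : j = q0 ∨ j = m0
    · rcases mixed j hj i hi hij.symm hjA hiA.1 hiA.2 hxj hxi with h | h | h
      · right; left; exact h
      · left; exact h
      · right; right; exact h
    · push Not at hjA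
      have h1 := key i hi hiA.1
      have h2 := key j hj hjA.1
      rw [face_same L m0 _ i hiA.2 h1] at hxi
      rw [face_same L m0 _ j hjA.2 h2] at hxj
      rcases hL.simple i hi j hj hij x hxi hxj with ⟨h2, c, h3, h4⟩ | ⟨h2, c, h3, h4⟩ | h2
      · left
        exact ⟨h2, c, h3, by rw [pp L m0 _ j hjA.2, h4]⟩
      · right; left
        exact ⟨h2, c, h3, by rw [pp L m0 _ i hiA.2, h4]⟩
      · right; right; exact h2

end Pool.Agent.TSE
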