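import Pool.Agent.TSE.Stmts

set_option autoImplicit false

namespace Pool.Agent.TSE

open Pool.Agent.TSM

theorem rem_proof (h1 : Stmt_LT) : Stmt_REM := by
  intro m p hm hG hS k hk hE
  have ha := pv_le (m := m) hk
  have hb := nx_le (m := m) hk
  have hnxa : nx m (pv m k) = k := nx_pv hk
  intro t ht hC
  have ht' := nx_le (m := m) ht
  have hak : pv m k ≠ k := pv_ne (by omega) hk
  have hbk : nx m k ≠ k := nx_ne (by omega) hk
  have hba : nx m k ≠ pv m k := nx_ne_pv (by omega) hk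
  have htt : nx m t ≠ t := nx_ne (by omega) ht
  by_cases c1 : t = pv m k
  · rw [← c1] at hC; exact Cr_left _ _ _ hC
  by_cases c2 : t = nx m k
  · rw [← c2] at hC; exact Cr_right _ _ _ hC
  by_cases c3 : nx m t = pv m k
  · rw [← c3] at hC; exact Cr_left' _ _ _ hC
  by_cases c4 : nx m t = nx m k
  · rw [← c4] at hC; exact Cr_right' _ _ _ hC
  have c5 : t ≠ k := by
    intro h
    exact c4 (by rw [h])
  have c6 : nx m t ≠ k := by
    intro h
    apply c1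
    rw [← h, pv_nx ht]
  -- the two sides at `k`
  have s1 : ¬ Cr (p t) (p (nx m t)) (p (pv m k)) (p k) := by
    intro h
    have h2 := hS (pv m k) t ha ht (Ne.symm c1) (by rw [hnxa]; exact c5) (Ne.symm c3)
    rw [hnxa] at h2
    exact h2 ((Cr_symm _ _ _ _).1 h)
  have s2 : ¬ Cr (p t) (p (nx m t)) (p k) (p (nx m k)) := by
    intro h
    have h2 := hS k t hk ht (Ne.symm c5) c2 (Ne.symm c6)
    exact h2 ((Cr_symm _ _ _ _).1 h)
  have s3 : Cr (p t) (p (nx m t)) (p (nx m k)) (p (pv m k)) :=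
    (Cr_comm2 _ _ _ _).1 ((Cr_symm _ _ _ _).1 hC)
  have e1 : ¬ Tri (p (pv m k)) (p k) (p (nx m k)) (p t) := hE t ht
  have e2 : ¬ Tri (p (pv m k)) (p k) (p (nx m k)) (p (nx m t)) := hE _ ht'
  have key := h1 (p (pv m k)) (p k) (p (nx m k)) (p t) (p (nx m t))
    (hG _ _ _ ha hk hb hak (Ne.symm hba) (Ne.symm hbk))
    (hG _ _ _ ha hk ht hak (Ne.symm c1) (Ne.symm c5))
    (hG _ _ _ hk hb ht (Ne.symm hbk) (Ne.symm c5) (Ne.symm c2))
    (hG _ _ _ hb ha ht hba (Ne.symm c2) (Ne.symm c1))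
    (hG _ _ _ ha hk ht' hak (Ne.symm c3) (Ne.symm c6))
    (hG _ _ _ hk hb ht' (Ne.symm hbk) (Ne.symm c6) (Ne.symm c4))
    (hG _ _ _ hb ha ht' hba (Ne.symm c4) (Ne.symm c3))
    (hG _ _ _ ht ht' ha (Ne.symm htt) c1 c3)
    (hG _ _ _ ht ht' hk (Ne.symm htt) c5 c6)
    (hG _ _ _ ht ht' hb (Ne.symm htt) c2 c4)
  rw [io_neg s1, io_neg s2, io_pos s3, io_neg e1, io_neg e2] at key
  revert key
  decide

end Pool.Agent.TSE
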