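import Pool.Agent.TSE.Stmts

/-!
# TSE: module ROT (rotation of the numbering)
-/

set_option autoImplicit false

namespace Pool.Agent.TSE.ROT_

open Pool.Agent.TSM

/-- the rotated index -/
def ro (m k t : ℕ) : ℕ := (t + k) % (m + 1)

theorem ro_eq (m k : ℕ) : ∃ c, c ≤ m ∧ ∀ t, t ≤ m →
    ro m k t = if t + c ≤ m then t + c else t + c - (m + 1) := by
  refine ⟨k % (m + 1), Nat.le_of_lt_succ (Nat.mod_lt _ (Nat.succ_pos m)), ?_⟩
  intro t ht
  have h0 : k % (m + 1) < m + 1 := Nat.mod_lt _ (Nat.succ_pos m)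
  have h1 : ro m k t = (t + k % (m + 1)) % (m + 1) := by
    unfold ro
    rw [Nat.add_mod_mod]
  rw [h1]
  split_ifs with h
  · exact Nat.mod_eq_of_lt (by omega)
  · rw [Nat.mod_eq_sub_mod (by omega)]
    exact Nat.mod_eq_of_lt (by omega)

theorem ro_le {m k t : ℕ} (_ht : t ≤ m) : ro m k t ≤ m :=
  Nat.le_of_lt_succ (Nat.mod_lt _ (Nat.succ_pos m))

theorem ro_inj {m k s t : ℕ} (hs : s ≤ m) (ht : t ≤ m) (h : ro m k s = ro m k t) : s = t := by
  obtain ⟨c, hc, h1⟩ := ro_eq m k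
  rw [h1 s hs, h1 t ht] at h
  split_ifs at h <;> omega

theorem ro_nx {m k t : ℕ} (ht : t ≤ m) : ro m k (nx m t) = nx m (ro m k t) := by
  obtain ⟨c, hc, h1⟩ := ro_eq m k
  rw [h1 _ (nx_le ht), h1 t ht]
  unfold nx
  split_ifs <;> omega

theorem ro_pv {m k t : ℕ} (ht : t ≤ m) : ro m k (pv m t) = pv m (ro m k t) := by
  obtain ⟨c, hc, h1⟩ := ro_eq m k
  rw [h1 _ (pv_le ht), h1 t ht]
  unfold pv
  split_ifs <;> omega

theorem ro_surj {m k s : ℕ} (hs : s ≤ m) : ∃ t, t ≤ m ∧ ro m k t = s := by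
  obtain ⟨c, hc, h1⟩ := ro_eq m k
  by_cases h : c ≤ s
  · refine ⟨s - c, by omega, ?_⟩
    rw [h1 _ (by omega)]
    split_ifs <;> omega
  · refine ⟨s + (m + 1) - c, by omega, ?_⟩
    rw [h1 _ (by omega)]
    split_ifs <;> omega

theorem rot_ro (m k : ℕ) (q : ℕ → E3) (t : ℕ) : rot m k q t = q (ro m k t) := rfl

end Pool.Agent.TSE.ROT_

namespace Pool.Agent.TSE

open Pool.Agent.TSM

open ROT_ in
/-- ROT. -/
theorem rot_proof : Stmt_ROT := by
  intro m k q
  have hturn : ∀ t, t ≤ m → Turn m (rot m k q) t = Turn m q ((t + k) % (m + 1)) := by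
    intro t ht
    unfold Turn
    rw [rot_ro, rot_ro, rot_ro, ro_nx ht, ro_pv ht]
    rfl
  refine ⟨?_, ?_, ?_, ?_, ?_, hturn, ?_⟩
  · intro h i j l hi hj hl hij hil hjl
    exact h _ _ _ (ro_le hi) (ro_le hj) (ro_le hl) (fun e => hij (ro_inj hi hj e))
      (fun e => hil (ro_inj hi hl e)) (fun e => hjl (ro_inj hj hl e))
  · intro h s t hs ht hst h1 h2
    rw [rot_ro, rot_ro, rot_ro, rot_ro, ro_nx hs, ro_nx ht]
    refine h _ _ (ro_le hs) (ro_le ht) (fun e => hst (ro_inj hs ht e)) ?_ ?_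
    · intro e
      rw [← ro_nx hs] at e
      exact h1 (ro_inj ht (nx_le hs) e)
    · intro e
      rw [← ro_nx ht] at e
      exact h2 (ro_inj hs (nx_le ht) e)
  · intro h s hs
    rw [hturn s hs]
    exact h _ (ro_le (k := k) hs)
  · intro h ν hν
    obtain ⟨i, hi, h1⟩ := h ν hν
    obtain ⟨t, ht, h2⟩ := ro_surj (k := k) hi
    refine ⟨t, ht, ?_⟩
    rw [rot_ro, h2]
    exact h1
  · intro h s t hs ht h1 h2
    obtain ⟨s', hs', e1⟩ := ro_surj (k := k) hs
    obtain ⟨t', ht', e2⟩ := ro_surj (k := k) ht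
    have h3 := h s' t' hs' ht' (by rintro rfl; exact h1 (e2.symm.trans e1)) (by
      rintro rfl
      apply h2
      rw [← e2, ← e1, ro_nx hs'])
    rw [rot_ro, rot_ro, rot_ro, ro_nx hs', e1, e2] at h3
    exact h3
  · intro t ht
    have e0 : (t + k) % (m + 1) = ro m k t := rfl
    rw [e0]
    constructor
    · intro h j hj hT
      obtain ⟨j', hj', e1⟩ := ro_surj (k := k) hj
      apply h j' hj'
      unfold TriAt at hT ⊢
      rw [rot_ro, rot_ro, rot_ro, rot_ro, ro_nx ht, ro_pv ht, e1]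
      exact hT
    · intro h j hj hT
      apply h _ (ro_le (k := k) hj)
      unfold TriAt at hT ⊢
      rw [rot_ro, rot_ro, rot_ro, rot_ro, ro_nx ht, ro_pv ht] at hT
      exact hT

end Pool.Agent.TSE
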