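import Pool.Agent.TSE.Stmts

/-!
# TSE, module SG1
-/

set_option autoImplicit false

namespace Pool.Agent.TSE

open Pool.Agent.TSM

namespace SG1_

theorem fin2 (n0 n1 n2 l1 l2 p b1 b2 : ZMod 2) (h0 : n0 = 0) (h1 : n0 + n2 + n1 = b1 + (0 + b2))
    (h2 : l1 = p + b1) (h3 : l2 = p + b2) : n1 + l1 = n2 + l2 := by
  subst h0 h2 h3
  revert h1
  revert n1 n2 p b1 b2
  decide

theorem sum3 (a b c : ℕ) (hab : a ≠ b) (hac : a ≠ c) (hbc : b ≠ c) (g : ℕ → ZMod 2) :
    ∑ t ∈ ({a, b, c} : Finset ℕ), g t = g a + (g b + g c) := by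
  rw [Finset.sum_insert (by simp [hab, hac]), Finset.sum_insert (by simp [hbc]),
    Finset.sum_singleton]

end SG1_

theorem sg1_proof (h1 : Stmt_W2) (h2 : Stmt_FV) : Stmt_SG1 := by
  intro m q y hm hG hS hP s hs
  obtain ⟨-, w2, w3, -, -⟩ := h1
  obtain ⟨f1, f2, f3⟩ := h2
  have hn : nx m s ≤ m := nx_le hs
  have hp : pv m s ≤ m := pv_le hs
  have hnn : nx m (nx m s) ≤ m := nx_le hn
  have e1 : pv m s ≠ s := pv_ne (by omega) hs
  have e2 : nx m s ≠ s := nx_ne (by omega) hs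
  have e3 : nx m s ≠ pv m s := nx_ne_pv hm hs
  have e4 : nx m (nx m s) ≠ nx m s := nx_ne (by omega) hn
  have e5 : nx m (nx m s) ≠ s := by
    intro h
    apply e3
    rw [← pv_nx hn, h]
  have e6 : nx m (pv m s) = s := nx_pv hs
  have e7 : pv m (nx m s) = s := pv_nx hs
  have hnin : pv m (nx m s) = s := pv_nx hs
  -- genericity
  have g1 : det3 (q s) (q (nx m s)) y ≠ 0 := hP s (nx m s) hs hn e2.symm
  have hG4 : ∀ t, t ≤ m → t ≠ s → t ≠ nx m s → G4 (q s) (q (nx m s)) y (q t) := by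
    intro t ht ht1 ht2
    refine ⟨g1, hG s (nx m s) t hs hn ht e2.symm ht1.symm ht2.symm, ?_, ?_⟩
    · rw [det3_swap23, neg_ne_zero]
      exact hP (nx m s) t hn ht ht2.symm
    · rw [← det3_cyc]
      exact hP s t hs ht ht1.symm
  have hsum := N_tri m q (q s) (q (nx m s)) y
  rw [sum_eq_sub ({pv m s, s, nx m s} : Finset ℕ) (by
      intro t ht
      simp only [Finset.mem_insert, Finset.mem_singleton] at ht
      rcases ht with rfl | rfl | rfl
      · exact hp
      · exact hs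
      · exact hn) _ (by
      intro t ht hnot
      simp only [Finset.mem_insert, Finset.mem_singleton, not_or] at hnot
      obtain ⟨n1, n2, n3⟩ := hnot
      have hnt : nx m t ≤ m := nx_le ht
      have k1 : nx m t ≠ s := by
        intro h
        apply n1
        rw [← pv_nx ht, h]
      have k2 : nx m t ≠ nx m s := by
        intro h
        exact n2 (nx_inj ht hs h)
      have k3 : nx m t ≠ t := nx_ne (by omega) ht
      apply f1 _ _ _ _ _ (hG4 t ht n2 n3) (hG4 (nx m t) hnt k1 k2)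
      · exact hG t (nx m t) s ht hnt hs k3.symm n2 k1
      · exact hG t (nx m t) (nx m s) ht hnt hn k3.symm n3 k2
      · exact hP t (nx m t) ht hnt k3.symm),
    SG1_.sum3 _ _ _ e1 e3.symm e2.symm] at hsum
  have t1 : Fv (q s) (q (nx m s)) y (q (pv m s)) (q (nx m (pv m s))) =
      io (Btw (q s) (q (nx m s)) (q (pv m s)) y) := by
    rw [e6]
    exact (f2 _ _ _ _ (hG4 (pv m s) hp e1 e3.symm)).2.1
  have t2 : Fv (q s) (q (nx m s)) y (q s) (q (nx m s)) = 0 := (f3 _ _ _).1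
  have t3 : Fv (q s) (q (nx m s)) y (q (nx m s)) (q (nx m (nx m s))) =
      io (Btw (q (nx m s)) y (q (nx m (nx m s))) (q s)) :=
    (f2 _ _ _ _ (hG4 (nx m (nx m s)) hnn e5 e4)).2.2.1
  rw [t1, t2, t3, N_comm m q y (q s)] at hsum
  have hN0 : N m q (q s) (q (nx m s)) = 0 := N_side hS hs
  have l1 : Lv m q s y = io (0 < det3 (q s) (q (nx m s)) y) +
      io (Btw (q s) (q (nx m s)) (q (pv m s)) y) := by
    unfold Lv LfAt
    apply w2
    · exact hG _ _ _ hp hs hn e1 e3.symm e2.symm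
    · exact hP _ _ hp hs e1
    · exact g1
  have l2 : Lv m q (nx m s) y = io (0 < det3 (q s) (q (nx m s)) y) +
      io (Btw (q (nx m s)) y (q (nx m (nx m s))) (q s)) := by
    unfold Lv LfAt
    rw [e7, io_congr (Btw_symm (q (nx m s)) y (q (nx m (nx m s))) (q s))]
    apply w3
    · exact hG _ _ _ hs hn hnn e2.symm e5.symm e4.symm
    · exact g1
    · exact hP _ _ hn hnn e4.symm
  exact SG1_.fin2 _ _ _ _ _ _ _ _ hN0 hsum l1 l2

end Pool.Agent.TSE
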