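import Pool.Agent.TSE.Stmts

set_option autoImplicit false

namespace Pool.Agent.TSE

open Pool.Agent.TSM

namespace SG2_

theorem p132 {a b c : E3} (h : det3 a b c ≠ 0) : det3 a c b ≠ 0 := by
  rw [det3_swap23 a b c]; exact neg_ne_zero.2 h
theorem p213 {a b c : E3} (h : det3 a b c ≠ 0) : det3 b a c ≠ 0 := by
  rw [det3_swap12 a b c]; exact neg_ne_zero.2 h
theorem p231 {a b c : E3} (h : det3 a b c ≠ 0) : det3 b c a ≠ 0 := by
  rw [det3_cyc a b c]; exact h
theorem p312 {a b c : E3} (h : det3 a b c ≠ 0) : det3 c a b ≠ 0 := by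
  rw [det3_cyc2 a b c]; exact h

theorem g4 {m : ℕ} {q : ℕ → E3} {y z : E3} (hy : GenP m q y) (hz : GenP m q z)
    (hyz : ∀ i, i ≤ m → det3 (q i) y z ≠ 0) {s t : ℕ} (hs : s ≤ m) (ht : t ≤ m) (hst : s ≠ t) :
    G4 (q s) y z (q t) :=
  ⟨hyz s hs, p132 (hy s t hs ht hst), p231 (hyz t ht), p312 (hz s t hs ht hst)⟩

end SG2_

open SG2_ in
theorem sg2_proof (hW : Stmt_W2) (hF : Stmt_FV) : Stmt_SG2 := by
  intro m q y z hm hG hy hz hyz s hs
  have hpv := pv_le (m := m) hs
  have hnx := nx_le (m := m) hs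
  have hpvne : pv m s ≠ s := pv_ne (by omega) hs
  have hnxne : nx m s ≠ s := nx_ne (by omega) hs
  have hnp : nx m s ≠ pv m s := nx_ne_pv hm hs
  have h1 := N_tri m q (q s) y z
  have h2 : ∑ t ∈ Finset.range (m + 1), Fv (q s) y z (q t) (q (nx m t)) =
      ∑ t ∈ ({s, pv m s} : Finset ℕ), Fv (q s) y z (q t) (q (nx m t)) := by
    apply sum_eq_sub
    · intro t ht
      simp only [Finset.mem_insert, Finset.mem_singleton] at ht
      rcases ht with rfl | rfl
      · exact hs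
      · exact hpv
    · intro t ht hn
      simp only [Finset.mem_insert, Finset.mem_singleton, not_or] at hn
      have hnt : nx m t ≤ m := nx_le ht
      have hnts : nx m t ≠ s := by
        intro h
        apply hn.2
        rw [← h, pv_nx ht]
      have htt : t ≠ nx m t := (nx_ne (by omega) ht).symm
      refine hF.1 _ _ _ _ _ (g4 hy hz hyz hs ht (Ne.symm hn.1))
        (g4 hy hz hyz hs hnt (Ne.symm hnts)) (hG t (nx m t) s ht hnt hs htt hn.1 hnts)
        (hy t (nx m t) ht hnt htt) (hz t (nx m t) ht hnt htt)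
  rw [h2, Finset.sum_pair (Ne.symm hpvne), nx_pv hs] at h1
  have e1 := (hF.2.1 (q s) y z (q (nx m s)) (g4 hy hz hyz hs hnx (Ne.symm hnxne))).1
  have e2 := (hF.2.1 (q s) y z (q (pv m s)) (g4 hy hz hyz hs hpv (Ne.symm hpvne))).2.1
  rw [e1, e2] at h1
  have e3 := hW.1 (q (pv m s)) (q s) (q (nx m s)) y z
    (hG s (pv m s) (nx m s) hs hpv hnx (Ne.symm hpvne) (Ne.symm hnxne) (Ne.symm hnp))
    (hy s (pv m s) hs hpv (Ne.symm hpvne)) (hz s (pv m s) hs hpv (Ne.symm hpvne))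
    (hy s (nx m s) hs hnx (Ne.symm hnxne)) (hz s (nx m s) hs hnx (Ne.symm hnxne)) (hyz s hs)
  rw [add_comm (io _) (io _), e3] at h1
  have e4 : Lv m q s y = io (Lf (q (pv m s)) (q s) (q (nx m s)) y) := rfl
  have e5 : Lv m q s z = io (Lf (q (pv m s)) (q s) (q (nx m s)) z) := rfl
  rw [← e4, ← e5, N_comm m q z (q s)] at h1
  apply eq_of_add
  have e6 : N m q y z + (N m q (q s) y + Lv m q s y + (N m q (q s) z + Lv m q s z)) =
      (N m q (q s) y + N m q y z + N m q (q s) z) + (Lv m q s y + Lv m q s z) := by ring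
  rw [e6, h1]
  exact add_self2 _

end Pool.Agent.TSE
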