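import Pool.Agent.TSE.Stmts

/-!
# TSE, module SH: parity of a diagonal
-/

set_option autoImplicit false

namespace Pool.Agent.TSE

open Pool.Agent.TSM

namespace SH_

/-- cyclic induction away from the vertex `j` -/
theorem cyc {m j : ℕ} (hm : 3 ≤ m) (hj : j ≤ m) (F : ℕ → ZMod 2)
    (h0 : F (nx m (nx m j)) = 0)
    (hstep : ∀ s, s ≤ m → Nad m s j → Nad m (nx m s) j → F s = F (nx m s)) :
    ∀ d i, d + 3 ≤ m → i ≤ m → Nad m i j → (i = j + 2 + d ∨ i + m + 1 = j + 2 + d) →
      F i = 0 := by
  intro d
  induction d with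
  | zero =>
    intro i hdm hi hn hd
    have h1 : i = nx m (nx m j) := by
      unfold nx
      split_ifs <;> omega
    rw [h1]
    exact h0
  | succ d ih =>
    intro i hdm hi hn hd
    have h1 : nx m (pv m i) = i := nx_pv hi
    have h2 : pv m i ≤ m := pv_le hi
    have h3 : Nad m (pv m i) j := by
      refine ⟨?_, ?_, ?_⟩
      · intro h
        have h7 : i = nx m j := by rw [← h, h1]
        exact hn.2.2 h7
      · rw [h1]
        exact fun h => hn.1 h.symm
      · intro h
        have h7 : i = nx m (nx m j) := by rw [← h, h1]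
        unfold nx at h7
        split_ifs at h7 <;> omega
    have h4 : pv m i = j + 2 + d ∨ pv m i + m + 1 = j + 2 + d := by
      unfold pv
      split_ifs <;> omega
    have h5 := ih (pv m i) (by omega) h2 h3 h4
    have h6 := hstep (pv m i) h2 h3 (by rw [h1]; exact hn)
    rw [h1] at h6
    rw [← h6]
    exact h5

end SH_

theorem sh_proof (h1 : Stmt_SHB) (h2 : Stmt_SHS) : Stmt_SH := by
  intro m q hm hG hS i j hi hj hn
  have h3 := SH_.cyc hm hj (fun i => N m q (q i) (q j) + Lv m q i (q j) + Lv m q j (q i))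
    (h1 m q hm hG hS j hj)
    (fun s hs ha hb => h2 m q hm hG hS s j hs hj ha hb)
  have h4 : i ≠ j := hn.1
  have h5 : i ≠ nx m j := hn.2.2
  have h9 : j ≠ nx m i := hn.2.1
  rcases Nat.lt_or_ge j i with h | h
  · have h6 : i ≠ j + 1 := by
      intro h7
      apply h5
      rw [nx_of_lt (by omega), h7]
    have h8 : i = m → j ≠ 0 := by
      intro h7 h8
      apply h9
      rw [h7, nx_last, h8]
    exact h3 (i - j - 2) i (by omega) hi hn (Or.inl (by omega))
  · have h6 : j = m → i ≠ 0 := by
      intro h7 h8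
      apply h5
      rw [h7, nx_last, h8]
    have h8 : j ≠ i + 1 := by
      intro h7
      apply h9
      rw [nx_of_lt (by omega), h7]
    exact h3 (i + m + 1 - j - 2) i (by omega) hi hn (Or.inr (by omega))

end Pool.Agent.TSE
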