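import Pool.Agent.TSE.Stmts

/-!
# TSE.SHB: parity of a diagonal between second neighbours
-/

set_option autoImplicit false

namespace Pool.Agent.TSE

open Pool.Agent.TSM

theorem shb_proof (h1 : Stmt_W2) (h2 : Stmt_FV) : Stmt_SHB := by
  intro m q hm hG hS j hj
  obtain ⟨-, hW2, hW3, -, -⟩ := h1
  obtain ⟨hF1, hF2, hF3⟩ := h2
  have hu : nx m j ≤ m := nx_le hj
  have hw : nx m (nx m j) ≤ m := nx_le hu
  have hg : nx m (nx m (nx m j)) ≤ m := nx_le hw
  have he : pv m j ≤ m := pv_le hj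
  have d1 : j ≠ nx m j := by unfold nx; split_ifs <;> omega
  have d2 : j ≠ nx m (nx m j) := by unfold nx; split_ifs <;> omega
  have d3 : nx m j ≠ nx m (nx m j) := by unfold nx; split_ifs <;> omega
  have d4 : pv m j ≠ j := by unfold pv; split_ifs <;> omega
  have d5 : pv m j ≠ nx m j := by unfold nx pv; split_ifs <;> omega
  have d6 : pv m j ≠ nx m (nx m j) := by unfold nx pv; split_ifs <;> omega
  have d7 : nx m (nx m (nx m j)) ≠ j := by unfold nx; split_ifs <;> omega
  have d8 : nx m (nx m (nx m j)) ≠ nx m j := by unfold nx; split_ifs <;> omega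
  have d9 : nx m (nx m (nx m j)) ≠ nx m (nx m j) := by unfold nx; split_ifs <;> omega
  have n1 : nx m (pv m j) = j := nx_pv hj
  have n2 : pv m (nx m (nx m j)) = nx m j := pv_nx hu
  have hN1 : N m q (q j) (q (nx m j)) = 0 := N_side hS hj
  have hN2 : N m q (q (nx m j)) (q (nx m (nx m j))) = 0 := N_side hS hu
  have hT := N_tri m q (q j) (q (nx m j)) (q (nx m (nx m j)))
  rw [hN1, hN2, zero_add, zero_add] at hT
  -- generic quadruples
  have hG4 : ∀ t, t ≤ m → t ≠ j → t ≠ nx m j → t ≠ nx m (nx m j) →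
      G4 (q j) (q (nx m j)) (q (nx m (nx m j))) (q t) := by
    intro t ht t1 t2 t3
    refine ⟨hG _ _ _ hj hu hw d1 d2 d3, hG _ _ _ hj hu ht d1 t1.symm t2.symm,
      hG _ _ _ hu hw ht d3 t2.symm t3.symm, hG _ _ _ hw hj ht d2.symm t3.symm t1.symm⟩
  have hsum : ∑ t ∈ Finset.range (m + 1),
      Fv (q j) (q (nx m j)) (q (nx m (nx m j))) (q t) (q (nx m t)) =
      ∑ t ∈ ({pv m j, j, nx m j, nx m (nx m j)} : Finset ℕ),
      Fv (q j) (q (nx m j)) (q (nx m (nx m j))) (q t) (q (nx m t)) := by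
    apply sum_eq_sub
    · intro t ht
      simp only [Finset.mem_insert, Finset.mem_singleton] at ht
      rcases ht with rfl | rfl | rfl | rfl
      · exact he
      · exact hj
      · exact hu
      · exact hw
    · intro t ht hn
      simp only [Finset.mem_insert, Finset.mem_singleton, not_or] at hn
      obtain ⟨t0, t1, t2, t3⟩ := hn
      have s1 : nx m t ≠ j := by
        intro h
        apply t0
        rw [← h, pv_nx ht]
      have s2 : nx m t ≠ nx m j := fun h => t1 (nx_inj ht hj h)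
      have s3 : nx m t ≠ nx m (nx m j) := fun h => t2 (nx_inj ht hu h)
      have hnt : nx m t ≤ m := nx_le ht
      have htn : t ≠ nx m t := (nx_ne (by omega) ht).symm
      exact hF1 _ _ _ _ _ (hG4 t ht t1 t2 t3) (hG4 _ hnt s1 s2 s3)
        (hG _ _ _ ht hnt hj htn t1 s1) (hG _ _ _ ht hnt hu htn t2 s2)
        (hG _ _ _ ht hnt hw htn t3 s3)
  rw [hsum, Finset.sum_insert, Finset.sum_insert, Finset.sum_insert, Finset.sum_singleton,
    n1] at hT
  · rw [(hF3 _ _ _).1, (hF3 _ _ _).2.2.1,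
      (hF2 _ _ _ _ (hG4 _ he d4 d5 d6)).2.1,
      (hF2 _ _ _ _ (hG4 _ hg d7 d8 d9)).2.2.2.2.1, zero_add, zero_add] at hT
    have hL1 : Lv m q (nx m (nx m j)) (q j) =
        io (0 < det3 (q (nx m j)) (q (nx m (nx m j))) (q j)) +
          io (Btw (q (nx m (nx m j))) (q (nx m j)) (q (nx m (nx m (nx m j)))) (q j)) := by
      unfold Lv LfAt
      rw [n2]
      exact hW3 _ _ _ _ (hG _ _ _ hu hw hg d3 d8.symm d9.symm)
        (hG _ _ _ hu hw hj d3 d1.symm d2.symm) (hG _ _ _ hw hg hj d9.symm d2.symm d7)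
    have hL2 : Lv m q j (q (nx m (nx m j))) =
        io (0 < det3 (q j) (q (nx m j)) (q (nx m (nx m j)))) +
          io (Btw (q j) (q (nx m j)) (q (pv m j)) (q (nx m (nx m j)))) := by
      unfold Lv LfAt
      exact hW2 _ _ _ _ (hG _ _ _ he hj hu d4 d5 d1) (hG _ _ _ he hj hw d4 d6 d2)
        (hG _ _ _ hj hu hw d1 d2 d3)
    have hb : io (Btw (q (nx m (nx m j))) (q j) (q (nx m (nx m (nx m j)))) (q (nx m j))) =
        io (Btw (q (nx m (nx m j))) (q (nx m j)) (q (nx m (nx m (nx m j)))) (q j)) :=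
      io_congr (Btw_symm _ _ _ _)
    rw [hT, hL1, hL2, hb, det3_cyc (q j) (q (nx m j)) (q (nx m (nx m j)))]
    generalize io (Btw (q j) (q (nx m j)) (q (pv m j)) (q (nx m (nx m j)))) = A
    generalize io (Btw (q (nx m (nx m j))) (q (nx m j)) (q (nx m (nx m (nx m j)))) (q j)) = B
    generalize io (0 < det3 (q j) (q (nx m j)) (q (nx m (nx m j)))) = D
    revert A B D
    decide
  · simp only [Finset.mem_singleton]
    exact d3
  · simp only [Finset.mem_insert, Finset.mem_singleton, not_or]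
    exact ⟨d1, d2⟩
  · simp only [Finset.mem_insert, Finset.mem_singleton, not_or]
    exact ⟨d4, d5, d6⟩

end Pool.Agent.TSE
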