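import Pool.Agent.TSE.Stmts

/-!
# TSE, module SHS: step of the parity of a diagonal
-/

set_option autoImplicit false

namespace Pool.Agent.TSE

open Pool.Agent.TSM

namespace SHS_

theorem zmod_fin (n1 n2 l1 l2 k1 k2 b1 b2 b3 b4 p : ZMod 2)
    (h1 : 0 + n2 + n1 = b1 + (0 + (b2 + (b3 + b4))))
    (h2 : b3 + b4 = k1 + k2) (h3 : l1 = p + b1) (h4 : l2 = p + b2) :
    n1 + l1 + k1 = n2 + l2 + k2 := by
  subst h3 h4
  revert h1 h2
  revert n1 n2 k1 k2 b1 b2 b3 b4 p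
  decide

end SHS_

open SHS_ in
theorem shs_proof (hW2 : Stmt_W2) (hFV : Stmt_FV) : Stmt_SHS := by
  intro m q hm hG hS s j hs hj h1 h2
  obtain ⟨hW1, hW2', hW3, -, -⟩ := hW2
  obtain ⟨hF1, hF2, hF3⟩ := hFV
  obtain ⟨h1a, h1b, h1c⟩ := h1
  obtain ⟨h2a, h2b, h2c⟩ := h2
  have hns : nx m s ≤ m := nx_le hs
  have hps : pv m s ≤ m := pv_le hs
  have hnns : nx m (nx m s) ≤ m := nx_le hns
  have hpj : pv m j ≤ m := pv_le hj
  have hnj : nx m j ≤ m := nx_le hj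
  -- index inequalities
  have e1 : nx m s ≠ s := nx_ne (by omega) hs
  have e2 : pv m s ≠ s := pv_ne (by omega) hs
  have e3 : nx m s ≠ pv m s := nx_ne_pv (by omega) hs
  have e4 : nx m (nx m s) ≠ nx m s := nx_ne (by omega) hns
  have e5 : nx m (nx m s) ≠ s := by
    intro h
    apply e3
    have := (eq_nx_iff hns hs).1 h.symm
    exact this
  have e6 : pv m j ≠ j := pv_ne (by omega) hj
  have e7 : nx m j ≠ j := nx_ne (by omega) hj
  have e8 : nx m j ≠ pv m j := nx_ne_pv (by omega) hj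
  have e9 : pv m j ≠ s := by
    intro h
    exact h1b ((eq_nx_iff hs hj).2 h.symm)
  have e10 : pv m j ≠ nx m s := by
    intro h
    exact h2b ((eq_nx_iff hns hj).2 h.symm)
  have e11 : nx m j ≠ s := fun h => h1c h.symm
  have e12 : nx m j ≠ nx m s := fun h => h2c h.symm
  have e13 : pv m s ≠ j := by
    intro h
    exact h1c ((eq_nx_iff hj hs).2 h.symm)
  have e14 : pv m s ≠ pv m j := fun h => h1a (pv_inj hs hj h)
  have e15 : nx m (nx m s) ≠ j := fun h => h2b h.symm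
  -- genericity of the triangle
  have G4of : ∀ t, t ≤ m → t ≠ s → t ≠ nx m s → t ≠ j →
      G4 (q s) (q (nx m s)) (q j) (q t) := by
    intro t ht t1 t2 t3
    exact ⟨hG _ _ _ hs hns hj (Ne.symm e1) h1a h2a,
      hG _ _ _ hs hns ht (Ne.symm e1) (Ne.symm t1) (Ne.symm t2),
      hG _ _ _ hns hj ht h2a (Ne.symm t2) (Ne.symm t3),
      hG _ _ _ hj hs ht (Ne.symm h1a) (Ne.symm t3) (Ne.symm t1)⟩
  have hT := N_tri m q (q s) (q (nx m s)) (q j)
  rw [N_side hS hs] at hT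
  have hsum : ∑ t ∈ Finset.range (m + 1), Fv (q s) (q (nx m s)) (q j) (q t) (q (nx m t)) =
      ∑ t ∈ ({pv m s, s, nx m s, pv m j, j} : Finset ℕ),
        Fv (q s) (q (nx m s)) (q j) (q t) (q (nx m t)) := by
    apply sum_eq_sub
    · intro t ht
      simp only [Finset.mem_insert, Finset.mem_singleton] at ht
      rcases ht with rfl | rfl | rfl | rfl | rfl <;> assumption
    · intro t ht hn
      simp only [Finset.mem_insert, Finset.mem_singleton, not_or] at hn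
      obtain ⟨n1, n2, n3, n4, n5⟩ := hn
      have hnt : nx m t ≤ m := nx_le ht
      have m1 : nx m t ≠ s := fun h => n1 ((eq_nx_iff ht hs).1 h.symm)
      have m2 : nx m t ≠ nx m s := fun h => n2 (nx_inj ht hs h)
      have m3 : nx m t ≠ j := fun h => n4 ((eq_nx_iff ht hj).1 h.symm)
      have m4 : nx m t ≠ t := nx_ne (by omega) ht
      exact hF1 _ _ _ _ _ (G4of t ht n2 n3 n5) (G4of _ hnt m1 m2 m3)
        (hG _ _ _ ht hnt hs (Ne.symm m4) n2 m1) (hG _ _ _ ht hnt hns (Ne.symm m4) n3 m2)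
        (hG _ _ _ ht hnt hj (Ne.symm m4) n5 m3)
  rw [hsum, Finset.sum_insert (by simp [e2, e3.symm, e13, e14]),
    Finset.sum_insert (by simp [e1.symm, e9.symm, h1a]),
    Finset.sum_insert (by simp [e10.symm, h2a]),
    Finset.sum_insert (by simp [e6]), Finset.sum_singleton] at hT
  rw [nx_pv hs, nx_pv hj] at hT
  rw [(hF2 _ _ _ _ (G4of _ hps e2 e3.symm e13)).2.1, (hF3 _ _ _).1,
    (hF2 _ _ _ _ (G4of _ hnns e5 e4 e15)).2.2.1,
    (hF2 _ _ _ _ (G4of _ hpj e9 e10 e6)).2.2.2.2.2,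
    (hF2 _ _ _ _ (G4of _ hnj e11 e12 e7)).2.2.2.2.1] at hT
  -- the three relations
  have r1 := hW1 (q (pv m j)) (q j) (q (nx m j)) (q s) (q (nx m s))
    (hG _ _ _ hj hpj hnj (Ne.symm e6) (Ne.symm e7) (Ne.symm e8))
    (hG _ _ _ hj hpj hs (Ne.symm e6) (Ne.symm h1a) e9)
    (hG _ _ _ hj hpj hns (Ne.symm e6) (Ne.symm h2a) e10)
    (hG _ _ _ hj hnj hs (Ne.symm e7) (Ne.symm h1a) e11)
    (hG _ _ _ hj hnj hns (Ne.symm e7) (Ne.symm h2a) e12)
    (hG _ _ _ hj hs hns (Ne.symm h1a) (Ne.symm h2a) (Ne.symm e1))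
  have r2 := hW2' (q (pv m s)) (q s) (q (nx m s)) (q j)
    (hG _ _ _ hps hs hns e2 (Ne.symm e3) (Ne.symm e1))
    (hG _ _ _ hps hs hj e2 e13 h1a)
    (hG _ _ _ hs hns hj (Ne.symm e1) h1a h2a)
  have r3 := hW3 (q s) (q (nx m s)) (q (nx m (nx m s))) (q j)
    (hG _ _ _ hs hns hnns (Ne.symm e1) (Ne.symm e5) (Ne.symm e4))
    (hG _ _ _ hs hns hj (Ne.symm e1) h1a h2a)
    (hG _ _ _ hns hnns hj (Ne.symm e4) h2a e15)
  rw [io_congr (Btw_symm (q (nx m s)) (q s) (q (nx m (nx m s))) (q j))] at r3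
  have r4 : Lv m q (nx m s) (q j) =
      io (Lf (q s) (q (nx m s)) (q (nx m (nx m s))) (q j)) := by
    unfold Lv LfAt
    rw [pv_nx hs]
  have r5 : N m q (q s) (q j) = N m q (q j) (q s) := N_comm _ _ _ _
  rw [r4, r5]
  exact zmod_fin _ _ _ _ _ _ _ _ _ _ _ hT r1 r2 r3

end Pool.Agent.TSE
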