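import Pool.Agent.TSE.Stmts

set_option autoImplicit false

namespace Pool.Agent.TSE

open Pool.Agent.TSM

theorem sig_proof (h1 : Stmt_SG1) : Stmt_SIG := by
  intro m q y hm hG hS hP
  have key : ∀ s, s ≤ m → N m q (q s) y + Lv m q s y = N m q (q 0) y + Lv m q 0 y := by
    intro s
    induction s with
    | zero => intro _; rfl
    | succ s ih =>
      intro hs
      have h := h1 m q y hm hG hS hP s (by omega)
      rw [nx_of_lt (show s < m by omega)] at h
      rw [← h]
      exact ih (by omega)
  intro s t hs ht
  rw [key s hs, key t ht]

end Pool.Agent.TSE
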