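import Pool.Agent.TSE.Stmts

/-!
# TSE.SUBG: the part of a polygon cut off by a diagonal
-/

set_option autoImplicit false

namespace Pool.Agent.TSE

open Pool.Agent.TSM

theorem subg_proof : Stmt_SUBG := by
  intro m p i j hG hS hij hjm hd
  have hNC : NC m p i j := by
    rcases hd with ⟨h0, hm⟩ | h
    · subst h0
      subst hm
      have h1 := side_NC hS (le_refl j)
      rw [nx_last] at h1
      exact NC_symm h1
    · exact h
  refine ⟨?_, ?_⟩
  · intro a b c ha hb hc hab hac hbc
    exact hG (i + a) (i + b) (i + c) (by omega) (by omega) (by omega) (by omega) (by omega)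
      (by omega)
  · intro s t hs ht hst h1 h2
    rcases Nat.lt_or_ge s (j - i) with hs' | hs'
    · rw [nx_of_lt hs'] at h1 ⊢
      rcases Nat.lt_or_ge t (j - i) with ht' | ht'
      · rw [nx_of_lt ht'] at h2 ⊢
        have h3 := hS (i + s) (i + t) (by omega) (by omega) (by omega)
        have e1 : nx m (i + s) = i + (s + 1) := by rw [nx_of_lt (by omega)]; omega
        have e2 : nx m (i + t) = i + (t + 1) := by rw [nx_of_lt (by omega)]; omega
        rw [e1, e2] at h3
        exact h3 (by omega) (by omega)
      · have ht2 : t = j - i := le_antisymm ht ht'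
        subst ht2
        rw [nx_last] at h2 ⊢
        have h3 := hNC (i + s) (by omega)
        have e1 : nx m (i + s) = i + (s + 1) := by rw [nx_of_lt (by omega)]; omega
        rw [e1] at h3
        intro h4
        apply h3
        have h5 := (Cr_symm _ _ _ _).mp h4
        have h6 := (Cr_comm _ _ _ _).mp h5
        have e3 : i + (j - i) = j := by omega
        unfold sub at h6
        rw [e3, add_zero] at h6
        exact h6
    · have hs2 : s = j - i := le_antisymm hs hs'
      subst hs2
      rw [nx_last] at h1 ⊢
      have ht' : t < j - i := lt_of_le_of_ne ht (Ne.symm hst)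
      rw [nx_of_lt ht'] at h2 ⊢
      have h3 := hNC (i + t) (by omega)
      have e1 : nx m (i + t) = i + (t + 1) := by rw [nx_of_lt (by omega)]; omega
      rw [e1] at h3
      intro h4
      apply h3
      have h6 := (Cr_comm _ _ _ _).mp h4
      have e3 : i + (j - i) = j := by omega
      unfold sub at h6
      rw [e3, add_zero] at h6
      exact h6

end Pool.Agent.TSE
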