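import Pool.Agent.TSE.Stmts

/-!
# TSE module TOX: polygons of closed type in index form
-/

set_option autoImplicit false

namespace Pool.Agent.TSE

open Pool.Agent.TSM

namespace TOX_

variable {V : Type} [DecidableEq V]

theorem three_le {L : Pg V} {m : ℕ} {f : ℕ → V} (hL : L.Ok) (hf : Enu L m f) : 3 ≤ m := by
  have h1 := hL.card
  have h2 := hf.card
  omega

theorem gen {L : Pg V} {m : ℕ} {f : ℕ → V} (hL : L.Ok) (hX : L.X = none) (hf : Enu L m f) :
    Gen m (fun t => L.p (f t)) := by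
  intro i j k hi hj hk hij hik hjk
  apply hL.gen (f i) (hf.mem i hi) (f j) (hf.mem j hj) (f k) (hf.mem k hk)
  · exact fun h => hij (hf.inj i j hi hj h)
  · exact fun h => hik (hf.inj i k hi hk h)
  · exact fun h => hjk (hf.inj j k hj hk h)
  · rintro ⟨a, b, hab, _⟩
    rw [hX] at hab
    exact absurd hab (by simp)

end TOX_

theorem tox_proof (h1 : Stmt_CRX) : Stmt_TOX := by
  intro V _ L m f hL hX hf
  have hm : 3 ≤ m := TOX_.three_le hL hf
  have hG := TOX_.gen hL hX hf
  refine ⟨hG, ?_, ?_⟩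
  · intro s t hs ht hst hts hst' hcr
    obtain ⟨u, u', s', t', hu, hu', hs', ht', he⟩ := h1.1 _ _ _ _ hcr
    have hns : nx m s ≤ m := nx_le hs
    have hnt : nx m t ≤ m := nx_le ht
    have hfst : f s ≠ f t := fun h => hst (hf.inj s t hs ht h)
    have hxs : u • L.p (f s) + u' • L.p (f (nx m s)) ∈ L.face (f s) := by
      refine ⟨u, u', hu.le, hu'.le, ?_⟩
      rw [hf.suc s hs]
    have hxt : u • L.p (f s) + u' • L.p (f (nx m s)) ∈ L.face (f t) := by
      refine ⟨s', t', hs'.le, ht'.le, ?_⟩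
      rw [hf.suc t ht]
      exact he
    rcases hL.simple (f s) (hf.mem s hs) (f t) (hf.mem t ht) hfst _ hxs hxt with h | h | h
    · have h2 : f t = f (nx m s) := by rw [← hf.suc s hs]; exact h.1
      exact hts (hf.inj _ _ ht hns h2)
    · have h2 : f s = f (nx m t) := by rw [← hf.suc t ht]; exact h.1
      exact hst' (hf.inj _ _ hs hnt h2)
    · have hd := hG s (nx m s) t hs hns ht (nx_ne (by omega) hs).symm hst (Ne.symm hts)
      have h3 : det3 (u • L.p (f s) + u' • L.p (f (nx m s))) (L.p (f (nx m s))) (L.p (f t)) = 0 := by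
        rw [h]; exact det3_zero1 _ _
      rw [det3_add1, det3_smul1, det3_smul1, det3_aab, mul_zero, add_zero] at h3
      exact (mul_ne_zero hu.ne' hd) h3
  · intro ν hν
    rcases hL.kind with h | ⟨a, ha, _⟩
    · obtain ⟨i, hi, hpos⟩ := h.2 ν hν
      obtain ⟨t, ht, rfl⟩ := hf.surj i hi
      exact ⟨t, ht, hpos⟩
    · rw [hX] at ha
      exact absurd ha (by simp)

end Pool.Agent.TSE
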