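import Pool.Agent.TSE.Stmts

/-!
# TSE, module UN: union of two convex polygons
-/

set_option autoImplicit false

namespace Pool.Agent.TSE

open Pool.Agent.TSM

namespace UN_

lemma sg {a b c d e f : ℝ} (h : a * b - c * d + e * f = 0) (ha : a < 0) (hb : b < 0)
    (hd : d < 0) (he : e < 0) (hf : f < 0) : c < 0 := by
  by_contra hc
  have h1 := mul_pos_of_neg_of_neg ha hb
  have h2 := mul_pos_of_neg_of_neg he hf
  have h3 : c * d ≤ 0 := mul_nonpos_of_nonneg_of_nonpos (not_lt.1 hc) hd.le
  linarith

lemma sg' {a b c d e f : ℝ} (h : a * b - c * d + e * f = 0) (ha : a < 0) (hb : b < 0)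
    (hc : c < 0) (he : e < 0) (hf : f < 0) : d < 0 := by
  refine sg (a := a) (b := b) (c := d) (d := c) (e := e) (f := f) ?_ ha hb hc he hf
  linarith [mul_comm c d]

/-- Cramer's rule, applied to a bracket. -/
lemma cr4 (a b c x y : E3) :
    det3 a b c * det3 c y x = det3 x b c * det3 c y a + det3 a x c * det3 c y b := by
  simp only [det3]
  ring

end UN_

open UN_

theorem un_proof : Stmt_UN := by
  intro m l q hl hlm hA hB hT0 hTl
  -- the part A
  have A1 : ∀ s t, s < l → t ≤ l → t ≠ s → t ≠ s + 1 → det3 (q s) (q (s + 1)) (q t) < 0 := by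
    intro s t hs ht h1 h2
    have h := hA s t hs.le ht h1 (by rw [nx_of_lt hs]; exact h2)
    rwa [nx_of_lt hs] at h
  have A2 : ∀ t, 1 ≤ t → t < l → det3 (q l) (q 0) (q t) < 0 := by
    intro t h1 h2
    have h := hA l t le_rfl h2.le (by omega) (by rw [nx_last]; omega)
    rwa [nx_last] at h
  -- the part B
  have sk0 : sk l q 0 = q 0 := by simp [sk]
  have skt : ∀ t, l ≤ t → sk l q (t - l + 1) = q t := by
    intro t ht
    unfold sk
    rw [if_neg (by omega)]
    congr 1
    omega
  have B0 : ∀ t, l < t → t ≤ m → det3 (q 0) (q l) (q t) < 0 := by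
    intro t h1 h2
    have h := hB 0 (t - l + 1) (by omega) (by omega) (by omega)
      (by rw [nx_of_lt (by omega)]; omega)
    rw [nx_of_lt (by omega), sk0, skt t h1.le] at h
    have h3 := skt l le_rfl
    rw [Nat.sub_self] at h3
    rwa [h3] at h
  have B1 : ∀ s t, l ≤ s → s < m → l ≤ t → t ≤ m → t ≠ s → t ≠ s + 1 →
      det3 (q s) (q (s + 1)) (q t) < 0 := by
    intro s t h1 h2 h3 h4 h5 h6
    have h := hB (s - l + 1) (t - l + 1) (by omega) (by omega) (by omega)
      (by rw [nx_of_lt (by omega)]; omega)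
    rw [nx_of_lt (by omega), skt s h1, skt t h3] at h
    have h7 := skt (s + 1) (by omega)
    rw [show s + 1 - l + 1 = s - l + 1 + 1 by omega] at h7
    rwa [h7] at h
  have B1' : ∀ s, l ≤ s → s < m → det3 (q s) (q (s + 1)) (q 0) < 0 := by
    intro s h1 h2
    have h := hB (s - l + 1) 0 (by omega) (by omega) (by omega)
      (by rw [nx_of_lt (by omega)]; omega)
    rw [nx_of_lt (by omega), skt s h1, sk0] at h
    have h7 := skt (s + 1) (by omega)
    rw [show s + 1 - l + 1 = s - l + 1 + 1 by omega] at h7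
    rwa [h7] at h
  have B2 : ∀ t, l ≤ t → t < m → det3 (q m) (q 0) (q t) < 0 := by
    intro t h1 h2
    have h := hB (m - l + 1) (t - l + 1) le_rfl (by omega) (by omega)
      (by rw [nx_last]; omega)
    rw [nx_last, sk0, skt t h1, skt m (by omega)] at h
    exact h
  -- the turns
  have T0 : det3 (q m) (q 0) (q 1) < 0 := by
    unfold Turn at hT0
    rwa [pv_zero, nx_of_lt (by omega)] at hT0
  have Tl : det3 (q (l - 1)) (q l) (q (l + 1)) < 0 := by
    unfold Turn at hTl
    rwa [pv_of_pos (by omega), nx_of_lt (by omega)] at hTl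
  -- (i)
  have I0 : ∀ t, l < t → t ≤ m → det3 (q 0) (q 1) (q t) < 0 := by
    intro t h1 h2
    rcases Nat.lt_or_ge t m with h3 | h3
    · have hg := gp (q 0) (q 1) (q l) (q t) (q m)
      refine sg hg (A1 0 l (by omega) le_rfl (by omega) (by omega)) ?_ ?_ ?_ (B0 t h1 h2)
      · rw [← det3_cyc]
        rw [← det3_cyc]
        exact B2 t h1.le h3
      · rw [← det3_cyc]
        rw [← det3_cyc]
        exact B2 l le_rfl (by omega)
      · rw [← det3_cyc]
        rw [← det3_cyc]
        exact T0
    · have h4 : t = m := by omega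
      rw [h4, ← det3_cyc, ← det3_cyc]
      exact T0
  have I : ∀ s t, 1 ≤ s → s < l → l < t → t ≤ m → det3 (q 0) (q s) (q t) < 0 := by
    intro s t h1 h2 h3 h4
    rcases Nat.lt_or_ge 1 s with h5 | h5
    · have hg := gp (q 0) (q 1) (q s) (q l) (q t)
      refine sg' hg (A1 0 s (by omega) h2.le (by omega) (by omega)) (B0 t h3 h4)
        (A1 0 l (by omega) le_rfl (by omega) (by omega)) (I0 t h3 h4) ?_
      rw [← det3_cyc]
      rw [← det3_cyc]
      exact A2 s h1 h2
    · have h6 : s = 1 := by omega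
      rw [h6]
      exact I0 t h3 h4
  -- (ii)
  have J0 : ∀ s, 1 ≤ s → s < l → det3 (q l) (q (l + 1)) (q s) < 0 := by
    intro s h1 h2
    rcases Nat.lt_or_ge s (l - 1) with h3 | h3
    · have hg := gp (q l) (q (l + 1)) (q 0) (q s) (q (l - 1))
      have hs1 := A1 (l - 1) s (by omega) h2.le (by omega) (by omega)
      rw [show l - 1 + 1 = l by omega] at hs1
      refine sg hg (B1' l le_rfl (by omega)) ?_ (A2 (l - 1) (by omega) (by omega)) ?_
        (A2 s h1 h2)
      · rw [← det3_cyc]
        rw [← det3_cyc]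
        exact hs1
      · rw [← det3_cyc]
        rw [← det3_cyc]
        exact Tl
    · have h4 : s = l - 1 := by omega
      rw [h4, ← det3_cyc, ← det3_cyc]
      exact Tl
  have J : ∀ s t, 1 ≤ s → s < l → l < t → t ≤ m → det3 (q l) (q t) (q s) < 0 := by
    intro s t h1 h2 h3 h4
    rcases Nat.lt_or_ge (l + 1) t with h5 | h5
    · have hg := gp (q l) (q (l + 1)) (q t) (q 0) (q s)
      refine sg' hg (B1 l t le_rfl (by omega) (by omega) h4 (by omega) (by omega)) (A2 s h1 h2)
        (B1' l le_rfl (by omega)) (J0 s h1 h2) ?_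
      rw [← det3_cyc]
      rw [← det3_cyc]
      exact B0 t h3 h4
    · have h6 : t = l + 1 := by omega
      rw [h6]
      exact J0 s h1 h2
  -- (iii)
  have K : ∀ s t, 1 ≤ s → s < l → l < t → t ≤ m → det3 (q s) (q (s + 1)) (q t) < 0 := by
    intro s t h1 h2 h3 h4
    have hc := cr4 (q 0) (q l) (q s) (q t) (q (s + 1))
    have hD : 0 < det3 (q 0) (q l) (q s) := by
      have h5 := A2 s h1 h2
      rw [det3_swap12] at h5
      linarith
    have h6 : 0 < det3 (q t) (q l) (q s) := by
      have h5 := J s t h1 h2 h3 h4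
      rw [det3_swap12] at h5
      linarith
    have h7 : 0 < det3 (q 0) (q t) (q s) := by
      have h5 := I s t h1 h2 h3 h4
      rw [det3_swap23] at h5
      linarith
    have h8 : det3 (q s) (q (s + 1)) (q 0) < 0 :=
      A1 s 0 h2 (by omega) (by omega) (by omega)
    have h9 : det3 (q s) (q (s + 1)) (q l) ≤ 0 := by
      rcases Nat.lt_or_ge (s + 1) l with h | h
      · exact (A1 s l h2 le_rfl (by omega) (by omega)).le
      · have h10 : s + 1 = l := by omega
        rw [h10]
        simp
    by_contra hcon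
    have h11 := mul_nonneg hD.le (not_lt.1 hcon)
    have h12 := mul_neg_of_pos_of_neg h6 h8
    have h13 := mul_nonpos_of_nonneg_of_nonpos h7.le h9
    linarith
  -- (iv)
  have L : ∀ s t, l < s → s < m → 1 ≤ t → t < l → det3 (q s) (q (s + 1)) (q t) < 0 := by
    intro s t h1 h2 h3 h4
    have hc := cr4 (q 0) (q l) (q s) (q t) (q (s + 1))
    have hD : det3 (q 0) (q l) (q s) < 0 := B0 s h1 h2.le
    have h6 : det3 (q t) (q l) (q s) < 0 := by
      have h5 := J t s h3 h4 h1 h2.le
      rw [← det3_cyc, ← det3_cyc] at h5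
      rwa [← det3_cyc, ← det3_cyc, ← det3_cyc] at h5
    have h7 : det3 (q 0) (q t) (q s) < 0 := I t s h3 h4 h1 h2.le
    have h8 : det3 (q s) (q (s + 1)) (q 0) < 0 := B1' s h1.le h2
    have h9 : det3 (q s) (q (s + 1)) (q l) < 0 :=
      B1 s l h1.le h2 le_rfl (by omega) (by omega) (by omega)
    by_contra hcon
    have h11 := mul_nonpos_of_nonpos_of_nonneg hD.le (not_lt.1 hcon)
    have h12 := mul_pos_of_neg_of_neg h6 h8
    have h13 := mul_pos_of_neg_of_neg h7 h9
    linarith
  -- the conclusion
  intro s t hs ht hts htn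
  rcases Nat.lt_or_ge s m with hsm | hsm
  · rw [nx_of_lt hsm] at htn ⊢
    rcases Nat.lt_or_ge s l with hsl | hsl
    · rcases Nat.lt_or_ge l t with htl | htl
      · rcases Nat.eq_zero_or_pos s with h0 | h0
        · rw [h0]
          exact I0 t htl ht
        · exact K s t h0 hsl htl ht
      · exact A1 s t hsl htl hts htn
    · rcases Nat.lt_or_ge t l with htl | htl
      · rcases Nat.eq_zero_or_pos t with h0 | h0
        · rw [h0]
          exact B1' s hsl hsm
        · rcases Nat.eq_or_lt_of_le hsl with h | h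
          · rw [← h]
            exact J0 t h0 htl
          · exact L s t h hsm h0 htl
      · exact B1 s t hsl hsm htl ht hts htn
  · have hsm' : s = m := by omega
    rw [hsm', nx_last] at htn
    rw [hsm', nx_last]
    rcases Nat.lt_or_ge t l with htl | htl
    · rw [← det3_cyc]
      exact I t m (by omega) htl (by omega) le_rfl
    · exact B2 t htl (by omega)

end Pool.Agent.TSE
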