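import Pool.Agent.TSE.Stmts

/-!
# TSE: module VIS (the uppermost vertex of a triangle is visible)
-/

set_option autoImplicit false

namespace Pool.Agent.TSE

open Pool.Agent.TSM

namespace VIS_

/-- denominators of two points of the triangle have the same sign -/
theorem den_pos {a v b x z : E3} (hx : Tri a v b x) (hz : Tri a v b z) :
    0 < (det3 x v b + det3 a v x) * (det3 z v b + det3 a v z) := by
  have e1 : det3 x v b = det3 v b x := (det3_cyc x v b).symm
  have e2 : det3 z v b = det3 v b z := (det3_cyc z v b).symm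
  rw [e1, e2]
  rcases hx with ⟨h0, h1, h2, _⟩ | ⟨h0, h1, h2, _⟩
  · rcases hz with ⟨g0, g1, g2, _⟩ | ⟨g0, g1, g2, _⟩
    · exact mul_pos (by linarith) (by linarith)
    · linarith
  · rcases hz with ⟨g0, g1, g2, _⟩ | ⟨g0, g1, g2, _⟩
    · linarith
    · exact mul_pos_of_neg_of_neg (by linarith) (by linarith)

theorem not_up {a v b x z : E3} (hx : Tri a v b x) (hz : Tri a v b z)
    (hle : det3 a x b / (det3 x v b + det3 a v x) ≤ det3 a z b / (det3 z v b + det3 a v z)) :
    ¬ Up a v b z x := by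
  intro hup
  have hlt := hup.2
  have hpos := den_pos hx hz
  have hdx : det3 x v b + det3 a v x ≠ 0 := left_ne_zero_of_mul hpos.ne'
  have hdz : det3 z v b + det3 a v z ≠ 0 := right_ne_zero_of_mul hpos.ne'
  have h1 := mul_le_mul_of_nonneg_right hle hpos.le
  have e1 : det3 a x b / (det3 x v b + det3 a v x) *
      ((det3 x v b + det3 a v x) * (det3 z v b + det3 a v z)) =
      det3 a x b * (det3 z v b + det3 a v z) := by
    field_simp
  have e2 : det3 a z b / (det3 z v b + det3 a v z) *
      ((det3 x v b + det3 a v x) * (det3 z v b + det3 a v z)) =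
      det3 a z b * (det3 x v b + det3 a v x) := by
    field_simp
  rw [e1, e2] at h1
  exact absurd hlt (not_lt.2 h1)

end VIS_

open VIS_ in
theorem vis_proof (hMEI : Stmt_MEI) : Stmt_VIS := by
  classical
  intro m p hG s i1 i2 hs hi1 hi2 h1 h2 h12 ⟨l0, hl0, hT0⟩
  obtain ⟨l, hlF, hmax⟩ := Finset.exists_max_image
    ((Finset.range (m + 1)).filter (fun l => Tri (p i1) (p s) (p i2) (p l)))
    (fun l => det3 (p i1) (p l) (p i2) / (det3 (p l) (p s) (p i2) + det3 (p i1) (p s) (p l)))
    ⟨l0, Finset.mem_filter.2 ⟨Finset.mem_range.2 (by omega), hT0⟩⟩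
  obtain ⟨hlr, hT⟩ := Finset.mem_filter.1 hlF
  have hl : l ≤ m := Nat.le_of_lt_succ (Finset.mem_range.1 hlr)
  refine ⟨l, hl, ?_, ?_, ?_, hT, ?_⟩
  · rintro rfl
    exact Tri_corner2 _ _ _ hT
  · rintro rfl
    exact Tri_corner1 _ _ _ hT
  · rintro rfl
    exact Tri_corner3 _ _ _ hT
  · intro c d hc hd hcd n1 n2 hcr
    have hcs : c ≠ s := by
      rintro rfl
      exact Cr_left _ _ _ hcr
    have hds : d ≠ s := by
      rintro rfl
      exact Cr_right _ _ _ hcr
    have hN : ∀ e, e ≤ m → e ≠ s → Ndg (p i1) (p s) (p i2) (p e) := by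
      intro e he hes
      refine ⟨?_, ?_⟩
      · intro h
        by_contra hne
        have hei : e ≠ i2 := fun h' => hne (by rw [h'])
        exact hG e s i2 he hs hi2 hes hei h2 h
      · intro h
        by_contra hne
        have hei : e ≠ i1 := fun h' => hne (by rw [h'])
        exact hG i1 s e hi1 hs he (Ne.symm h1) (Ne.symm hei) (Ne.symm hes) h
    rcases hMEI _ _ _ _ _ _ hT hcr n1 n2 (hN c hc hcs) (hN d hd hds) with h | h
    · exact not_up h.1 hT (hmax c (Finset.mem_filter.2 ⟨Finset.mem_range.2 (by omega), h.1⟩)) h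
    · exact not_up h.1 hT (hmax d (Finset.mem_filter.2 ⟨Finset.mem_range.2 (by omega), h.1⟩)) h

end Pool.Agent.TSE
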