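import Pool.Agent.TSE.Stmts

/-!
# TSE: module W2 (directions at a vertex)
-/

set_option autoImplicit false

namespace Pool.Agent.TSE.W2_

open Pool.Agent.TSM

theorem sgb {x : ℝ} (h : x ≠ 0) : ∃ b : Bool, (0 < x ↔ b = true) ∧ (x < 0 ↔ b = false) := by
  rcases lt_or_gt_of_ne h with h1 | h1
  · exact ⟨false, by simp [h1.le], by simp [h1]⟩
  · exact ⟨true, by simp [h1], by simp [h1.le]⟩

theorem prod_sign {x y : ℝ} {b c : Bool} (hx1 : 0 < x ↔ b = true) (hx2 : x < 0 ↔ b = false)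
    (hy1 : 0 < y ↔ c = true) (hy2 : y < 0 ↔ c = false) :
    (b = c → 0 < x * y) ∧ (b ≠ c → x * y < 0) := by
  constructor
  · intro h
    subst h
    cases b
    · exact mul_pos_of_neg_of_neg (hx2.2 rfl) (hy2.2 rfl)
    · exact mul_pos (hx1.2 rfl) (hy1.2 rfl)
  · intro h
    cases b
    · cases c
      · exact absurd rfl h
      · exact mul_neg_of_neg_of_pos (hx2.2 rfl) (hy1.2 rfl)
    · cases c
      · exact mul_neg_of_pos_of_neg (hx1.2 rfl) (hy2.2 rfl)
      · exact absurd rfl h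

theorem io_dec (P : Prop) [Decidable P] : io P = if P then 1 else 0 := by
  by_cases h : P
  · rw [io_pos h, if_pos h]
  · rw [io_neg h, if_neg h]

theorem bool1 : ∀ ab au aw bu bw uw : Bool,
    ¬ (ab = uw ∧ au ≠ bw ∧ aw = bu) → ¬ (ab ≠ uw ∧ au = bw ∧ aw ≠ bu) →
    (if ((au = false ∧ aw = true ∧ uw = true) ∨ (au = true ∧ aw = false ∧ uw = false))
      then (1 : ZMod 2) else 0) +
    (if ((bu = false ∧ bw = true ∧ uw = true) ∨ (bu = true ∧ bw = false ∧ uw = false))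
      then (1 : ZMod 2) else 0) =
    (if ((ab = false ∧ au = false ∧ bu = true) ∨ (ab = true ∧ (au = false ∨ bu = true)))
      then (1 : ZMod 2) else 0) +
    (if ((ab = false ∧ aw = false ∧ bw = true) ∨ (ab = true ∧ (aw = false ∨ bw = true)))
      then (1 : ZMod 2) else 0) := by
  decide

theorem bool2 : ∀ p q r : Bool,
    (if ((p = true ∧ q = true ∧ r = true) ∨ (p = false ∧ (q = true ∨ r = true)))
      then (1 : ZMod 2) else 0) =
    (if r = true then (1 : ZMod 2) else 0) +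
    (if ((p = true ∧ q = false ∧ r = true) ∨ (p = false ∧ q = true ∧ r = false))
      then (1 : ZMod 2) else 0) := by
  decide

theorem bool3 : ∀ p q r : Bool,
    (if ((p = true ∧ q = true ∧ r = true) ∨ (p = false ∧ (q = true ∨ r = true)))
      then (1 : ZMod 2) else 0) =
    (if q = true then (1 : ZMod 2) else 0) +
    (if ((p = false ∧ r = true ∧ q = false) ∨ (p = true ∧ r = false ∧ q = true))
      then (1 : ZMod 2) else 0) := by
  decide

theorem part1 (a v b u w : E3) (h1 : det3 v a b ≠ 0) (h2 : det3 v a u ≠ 0)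
    (h3 : det3 v a w ≠ 0) (h4 : det3 v b u ≠ 0) (h5 : det3 v b w ≠ 0) (h6 : det3 v u w ≠ 0) :
    io (Btw v u a w) + io (Btw v u b w) = io (Lf a v b u) + io (Lf a v b w) := by
  obtain ⟨ab, ab1, ab2⟩ := sgb h1
  obtain ⟨au, au1, au2⟩ := sgb h2
  obtain ⟨aw, aw1, aw2⟩ := sgb h3
  obtain ⟨bu, bu1, bu2⟩ := sgb h4
  obtain ⟨bw, bw1, bw2⟩ := sgb h5
  obtain ⟨uw, uw1, uw2⟩ := sgb h6
  have hgp := gp v a b u w
  have p1 := prod_sign ab1 ab2 uw1 uw2
  have p2 := prod_sign au1 au2 bw1 bw2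
  have p3 := prod_sign aw1 aw2 bu1 bu2
  have e1 : ¬ (ab = uw ∧ au ≠ bw ∧ aw = bu) := by
    rintro ⟨x1, x2, x3⟩
    linarith [p1.1 x1, p2.2 x2, p3.1 x3]
  have e2 : ¬ (ab ≠ uw ∧ au = bw ∧ aw ≠ bu) := by
    rintro ⟨x1, x2, x3⟩
    linarith [p1.2 x1, p2.1 x2, p3.2 x3]
  have i1 : Btw v u a w ↔
      ((au = false ∧ aw = true ∧ uw = true) ∨ (au = true ∧ aw = false ∧ uw = false)) := by
    rw [Btw, det3_swap23 v a u, neg_pos, neg_lt_zero, au1, au2, aw1, aw2, uw1, uw2]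
  have i2 : Btw v u b w ↔
      ((bu = false ∧ bw = true ∧ uw = true) ∨ (bu = true ∧ bw = false ∧ uw = false)) := by
    rw [Btw, det3_swap23 v b u, neg_pos, neg_lt_zero, bu1, bu2, bw1, bw2, uw1, uw2]
  have i3 : Lf a v b u ↔
      ((ab = false ∧ au = false ∧ bu = true) ∨ (ab = true ∧ (au = false ∨ bu = true))) := by
    rw [Lf, det3_swap12 v a b, det3_swap12 v a u, neg_pos, neg_lt_zero, neg_pos, ab1, ab2, au2,
      bu1]
  have i4 : Lf a v b w ↔
      ((ab = false ∧ aw = false ∧ bw = true) ∨ (ab = true ∧ (aw = false ∨ bw = true))) := by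
    rw [Lf, det3_swap12 v a b, det3_swap12 v a w, neg_pos, neg_lt_zero, neg_pos, ab1, ab2, aw2,
      bw1]
  rw [io_congr i1, io_congr i2, io_congr i3, io_congr i4, io_dec, io_dec, io_dec, io_dec]
  exact bool1 ab au aw bu bw uw e1 e2

theorem part2 (a v b y : E3) (h1 : det3 a v b ≠ 0) (h2 : det3 a v y ≠ 0)
    (h3 : det3 v b y ≠ 0) : io (Lf a v b y) = io (0 < det3 v b y) + io (Btw v b a y) := by
  obtain ⟨p, p1, p2⟩ := sgb h1
  obtain ⟨q, q1, q2⟩ := sgb h2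
  obtain ⟨r, r1, r2⟩ := sgb h3
  have i1 : Lf a v b y ↔
      ((p = true ∧ q = true ∧ r = true) ∨ (p = false ∧ (q = true ∨ r = true))) := by
    rw [Lf, p1, p2, q1, r1]
  have i2 : Btw v b a y ↔
      ((p = true ∧ q = false ∧ r = true) ∨ (p = false ∧ q = true ∧ r = false)) := by
    rw [Btw, det3_cyc a v b, det3_swap12 a v y, neg_pos, neg_lt_zero, p1, p2, q1, q2, r1, r2]
  rw [io_congr i1, io_congr i2, io_congr r1, io_dec, io_dec, io_dec]
  exact bool2 p q r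

theorem part3 (a v b y : E3) (h1 : det3 a v b ≠ 0) (h2 : det3 a v y ≠ 0)
    (h3 : det3 v b y ≠ 0) : io (Lf a v b y) = io (0 < det3 a v y) + io (Btw v a b y) := by
  obtain ⟨p, p1, p2⟩ := sgb h1
  obtain ⟨q, q1, q2⟩ := sgb h2
  obtain ⟨r, r1, r2⟩ := sgb h3
  have i1 : Lf a v b y ↔
      ((p = true ∧ q = true ∧ r = true) ∨ (p = false ∧ (q = true ∨ r = true))) := by
    rw [Lf, p1, p2, q1, r1]
  have i2 : Btw v a b y ↔
      ((p = false ∧ r = true ∧ q = false) ∨ (p = true ∧ r = false ∧ q = true)) := by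
    rw [Btw, det3_swap12 a v b, det3_swap12 a v y, neg_pos, neg_lt_zero, neg_pos, neg_lt_zero,
      p1, p2, q1, q2, r1, r2]
  rw [io_congr i1, io_congr i2, io_congr q1, io_dec, io_dec, io_dec]
  exact bool3 p q r

theorem part4 (a v b y c : E3) (h1 : Btw v b a y) (h2 : Btw v b y c) : Btw v b a c := by
  have hgp := gp v b a y c
  rcases h1 with ⟨x1, x2, x3⟩ | ⟨x1, x2, x3⟩
  · rcases h2 with ⟨y1, y2, y3⟩ | ⟨y1, y2, y3⟩
    · left
      refine ⟨x1, ?_, y3⟩
      have h4 : 0 < det3 v b y * det3 v a c := by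
        linarith [mul_pos x1 y2, mul_pos y3 x2]
      exact (pos_iff_pos_of_mul_pos h4).1 x3
    · exact absurd x3 (not_lt.2 y1.le)
  · rcases h2 with ⟨y1, y2, y3⟩ | ⟨y1, y2, y3⟩
    · exact absurd y1 (not_lt.2 x3.le)
    · right
      refine ⟨x1, ?_, y3⟩
      have h4 : 0 < det3 v b y * det3 v a c := by
        linarith [mul_pos_of_neg_of_neg x1 y2, mul_pos_of_neg_of_neg y3 x2]
      exact (neg_iff_neg_of_mul_pos h4).1 x3

theorem part5 (a v b d : E3) (h1 : Lf a v b d) : ¬ Lf a v d b := by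
  intro h2
  unfold Lf at h1 h2
  rw [det3_swap23 v b d] at h2
  rcases h1 with ⟨x1, x2, x3⟩ | ⟨x1, x2 | x2⟩ <;>
    rcases h2 with ⟨y1, y2, y3⟩ | ⟨y1, y2 | y2⟩ <;> linarith

end Pool.Agent.TSE.W2_

namespace Pool.Agent.TSE

/-- W2. -/
theorem w2_proof : Stmt_W2 :=
  ⟨W2_.part1, W2_.part2, W2_.part3, W2_.part4, W2_.part5⟩

end Pool.Agent.TSE
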