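import Pool.Agent.TSE.ELA
import Pool.Agent.TSE.LT
import Pool.Agent.TSE.LTV
import Pool.Agent.TSE.W2
import Pool.Agent.TSE.CRX
import Pool.Agent.TSE.FV
import Pool.Agent.TSE.SG1
import Pool.Agent.TSE.SIG
import Pool.Agent.TSE.SG2
import Pool.Agent.TSE.SHB
import Pool.Agent.TSE.SHS
import Pool.Agent.TSE.SH
import Pool.Agent.TSE.MEI
import Pool.Agent.TSE.VIS
import Pool.Agent.TSE.REM
import Pool.Agent.TSE.SUBG
import Pool.Agent.TSE.OUT
import Pool.Agent.TSE.EMA
import Pool.Agent.TSE.EMB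
import Pool.Agent.TSE.NZA
import Pool.Agent.TSE.NZB
import Pool.Agent.TSE.INS
import Pool.Agent.TSE.ROT
import Pool.Agent.TSE.CTA
import Pool.Agent.TSE.CTB
import Pool.Agent.TSE.UN
import Pool.Agent.TSE.CV
import Pool.Agent.TSE.CA4
import Pool.Agent.TSE.CLM
import Pool.Agent.TSE.LEF
import Pool.Agent.TSE.FOUR
import Pool.Agent.TSE.CRB
import Pool.Agent.TSE.CRA
import Pool.Agent.TSE.ENU
import Pool.Agent.TSE.TOX
import Pool.Agent.TSE.FAC
import Pool.Agent.TSE.ERC
import Pool.Agent.TSE.BAK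
import Pool.Agent.TSE.PTG
import Pool.Agent.TSE.PTB
import Pool.Agent.TSE.PTS
import Pool.Agent.TSE.BXS
import Pool.Agent.TSE.BXK

/-!
# TSE: the ear theorem
-/

set_option autoImplicit false

namespace Pool.Agent.TSE

open Pool.Agent.TSM

theorem cFV : Stmt_FV := fv_proof lt_proof ltv_proof
theorem cSG1 : Stmt_SG1 := sg1_proof w2_proof cFV
theorem cSIG : Stmt_SIG := sig_proof cSG1
theorem cSG2 : Stmt_SG2 := sg2_proof w2_proof cFV
theorem cSHB : Stmt_SHB := shb_proof w2_proof cFV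
theorem cSHS : Stmt_SHS := shs_proof w2_proof cFV
theorem cSH : Stmt_SH := sh_proof cSHB cSHS
theorem cMEI : Stmt_MEI := mei_proof crx_proof
theorem cVIS : Stmt_VIS := vis_proof cMEI
theorem cREM : Stmt_REM := rem_proof lt_proof
theorem cOUT : Stmt_OUT := out_proof cSG2 cSIG w2_proof subg_proof
theorem cEMA : Stmt_EMA := ema_proof lt_proof ltv_proof w2_proof
theorem cEMB : Stmt_EMB := emb_proof lt_proof ltv_proof w2_proof
theorem cNZA : Stmt_NZA := nza_proof cVIS cOUT subg_proof w2_proof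
theorem cNZB : Stmt_NZB := nzb_proof w2_proof cSH
theorem cINS : Stmt_INS := ins_proof crx_proof
theorem cCTA : Stmt_CTA := cta_proof cREM ltv_proof
theorem cCTB : Stmt_CTB := ctb_proof cVIS cSH
theorem cCV : Stmt_CV := cv_proof rot_proof cCTA cCTB un_proof
theorem cCA4 : Stmt_CA4 := ca4_proof cCV cOUT cINS subg_proof
theorem cCLM : Stmt_CLM := clm_proof subg_proof cEMA cEMB cNZA cNZB cCA4
theorem cLEF : Stmt_LEF := lef_proof rot_proof cCLM
theorem cFOUR : Stmt_FOUR := four_proof cLEF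
theorem cCRA : Stmt_CRA := cra_proof crb_proof
theorem cTOX : Stmt_TOX := tox_proof crx_proof
theorem cFAC : Stmt_FAC := fac_proof crx_proof
theorem cBAK : Stmt_BAK := bak_proof cFAC erc_proof
theorem cBXS : Stmt_BXS := bxs_proof cFAC

/-- the ear theorem -/
theorem el : Stmt_EL :=
  el_of ltv_proof crx_proof cREM cFOUR cCRA enu_proof cTOX erc_proof cBAK ptg_proof ptb_proof pts_proof cBXS bxk_proof

end Pool.Agent.TSE
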