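import Pool.Agent.TSE.Stmts

/-!
# TSE: assembly of the ear theorem `Stmt_EL`
-/

set_option autoImplicit false

namespace Pool.Agent.TSE

open Pool.Agent.TSM

namespace ELA_

theorem pick4 (P : ℕ → Prop) {k1 k2 k3 k4 i j k : ℕ} (h12 : k1 ≠ k2) (h13 : k1 ≠ k3)
    (h14 : k1 ≠ k4) (h23 : k2 ≠ k3) (h24 : k2 ≠ k4) (h34 : k3 ≠ k4) (p1 : P k1) (p2 : P k2)
    (p3 : P k3) (p4 : P k4) : ∃ l, P l ∧ l ≠ i ∧ l ≠ j ∧ l ≠ k := by
  by_cases g1 : k1 ≠ i ∧ k1 ≠ j ∧ k1 ≠ k
  · exact ⟨k1, p1, g1⟩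
  by_cases g2 : k2 ≠ i ∧ k2 ≠ j ∧ k2 ≠ k
  · exact ⟨k2, p2, g2⟩
  by_cases g3 : k3 ≠ i ∧ k3 ≠ j ∧ k3 ≠ k
  · exact ⟨k3, p3, g3⟩
  refine ⟨k4, p4, ?_, ?_, ?_⟩ <;> omega

/-- the chord of an ear in the label form -/
theorem chord (hREM : Stmt_REM) {V : Type} [DecidableEq V] (L : Pg V) (m : ℕ) (f : ℕ → V)
    (hm : 3 ≤ m) (hE : Enu L m f) (hG : Gen m (fun t => L.p (f t)))
    (hS : Simp m (fun t => L.p (f t))) (k : ℕ) (hk : k ≤ m) (hear : Ear m (fun t => L.p (f t)) k) :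
    f (pv m k) ∈ L.S ∧ L.s (f (pv m k)) = f k ∧ L.s (L.s (f (pv m k))) = f (nx m k) ∧
    ∀ j ∈ L.S, ¬ Cr (L.p (f (pv m k))) (L.p (L.s (L.s (f (pv m k))))) (L.p j) (L.p (L.s j)) := by
  have h1 : L.s (f (pv m k)) = f k := by
    rw [hE.suc _ (pv_le hk), nx_pv hk]
  have h2 : L.s (L.s (f (pv m k))) = f (nx m k) := by rw [h1, hE.suc _ hk]
  refine ⟨hE.mem _ (pv_le hk), h1, h2, ?_⟩
  intro j hj
  obtain ⟨t, ht, rfl⟩ := hE.surj j hj
  rw [h2, hE.suc _ ht]
  exact hREM m _ hm hG hS k hk hear t ht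

/-- a point of the open triangle is a positive combination of the corners -/
theorem tri_comb {a b c x : E3} (h : Tri a b c x) : ∃ α β γ : ℝ, 0 < α ∧ 0 < β ∧ 0 < γ ∧
    x = α • a + β • b + γ • c := by
  have hD : det3 a b c ≠ 0 := by
    rcases h with ⟨h0, _⟩ | ⟨h0, _⟩
    · exact h0.ne'
    · exact h0.ne
  have e1 : det3 x b c = det3 b c x := (det3_cyc x b c).symm
  have e2 : det3 a x c = det3 c a x := (det3_cyc2 a x c).symm
  refine ⟨det3 x b c / det3 a b c, det3 a x c / det3 a b c, det3 a b x / det3 a b c, ?_, ?_, ?_,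
    coords a b c x hD⟩
  · rw [e1]
    rcases h with ⟨h0, h1, h2, h3⟩ | ⟨h0, h1, h2, h3⟩
    · exact div_pos h2 h0
    · exact div_pos_of_neg_of_neg h2 h0
  · rw [e2]
    rcases h with ⟨h0, h1, h2, h3⟩ | ⟨h0, h1, h2, h3⟩
    · exact div_pos h3 h0
    · exact div_pos_of_neg_of_neg h3 h0
  · rcases h with ⟨h0, h1, h2, h3⟩ | ⟨h0, h1, h2, h3⟩
    · exact div_pos h1 h0
    · exact div_pos_of_neg_of_neg h1 h0

/-- sides without common end point do not cross -/
theorem no_cr (hCRX : Stmt_CRX) {V : Type} [DecidableEq V] (L : Pg V) (hL : L.Ok) {i j : V}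
    (hi : i ∈ L.S) (hj : j ∈ L.S) (hij : i ≠ j) (h1 : j ≠ L.s i) (h2 : i ≠ L.s j) :
    ¬ Cr (L.p i) (L.p (L.s i)) (L.p j) (L.p (L.s j)) := by
  intro hc
  obtain ⟨u, u', s, t, hu, hu', hs, ht, he⟩ := hCRX.1 _ _ _ _ hc
  have hx := hL.simple i hi j hj hij (u • L.p i + u' • L.p (L.s i))
    ⟨u, u', hu.le, hu'.le, rfl⟩ ⟨s, t, hs.le, ht.le, he⟩
  rcases hx with ⟨h, _⟩ | ⟨h, _⟩ | h
  · exact h1 h
  · exact h2 h
  · have h3 : det3 (L.p j) (L.p (L.s j)) (u • L.p i + u' • L.p (L.s i)) = 0 := by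
      rw [h, det3_zero3]
    have h4 : det3 (u • L.p i + u' • L.p (L.s i)) (L.p (L.s i)) (L.p j) = 0 := by
      rw [h, det3_zero1]
    rw [det3_add1, det3_smul1, det3_smul1, det3_aab, mul_zero, add_zero] at h4
    have h5 : det3 (L.p i) (L.p (L.s i)) (L.p j) ≠ 0 := by
      rcases hc with ⟨_, _, _, g⟩ | ⟨_, _, _, g⟩
      · exact g.ne
      · exact g.ne'
    rcases mul_eq_zero.1 h4 with g | g
    · exact hu.ne' g
    · exact h5 g

/-- two steps of the successor do not return -/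
theorem ss_ne {V : Type} [DecidableEq V] (L : Pg V) (hL : L.Ok) {i : V} (hi : i ∈ L.S) :
    L.s i ≠ i ∧ L.s (L.s i) ≠ i ∧ L.s (L.s (L.s i)) ≠ i := by
  have key : ∀ n : ℕ, 0 < n → n ≤ 3 → L.s^[n] i ≠ i := by
    intro n hn hn3 he
    have hsub : L.S ⊆ (Finset.range n).image (fun r => L.s^[r] i) := by
      intro j hj
      obtain ⟨r, hr⟩ := hL.trans i hi j hj
      have hmod : L.s^[r] i = L.s^[r % n] i := by
        have hper : Function.IsPeriodicPt L.s n i := he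
        exact (Function.IsPeriodicPt.iterate_mod_apply hper r).symm
      rw [Finset.mem_image]
      exact ⟨r % n, Finset.mem_range.2 (Nat.mod_lt _ hn), by rw [← hmod, hr]⟩
    have h1 := Finset.card_le_card hsub
    have h2 := Finset.card_image_le (s := Finset.range n) (f := fun r => L.s^[r] i)
    rw [Finset.card_range] at h2
    have h3 := hL.card
    omega
  refine ⟨?_, ?_, ?_⟩
  · exact key 1 (by omega) (by omega)
  · exact key 2 (by omega) (by omega)
  · exact key 3 (by omega) (by omega)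

/-- four steps of the successor do not return if there are five vertices -/
theorem ssss_ne {V : Type} [DecidableEq V] (L : Pg V) (hL : L.Ok) (hc : 5 ≤ L.S.card) {i : V}
    (hi : i ∈ L.S) : L.s (L.s (L.s (L.s i))) ≠ i := by
  intro he
  have hsub : L.S ⊆ (Finset.range 4).image (fun r => L.s^[r] i) := by
    intro j hj
    obtain ⟨r, hr⟩ := hL.trans i hi j hj
    have hmod : L.s^[r] i = L.s^[r % 4] i := by
      have hper : Function.IsPeriodicPt L.s 4 i := he
      exact (Function.IsPeriodicPt.iterate_mod_apply hper r).symm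
    rw [Finset.mem_image]
    exact ⟨r % 4, Finset.mem_range.2 (Nat.mod_lt _ (by omega)), by rw [← hmod, hr]⟩
  have h1 := Finset.card_le_card hsub
  have h2 := Finset.card_image_le (s := Finset.range 4) (f := fun r => L.s^[r] i)
  rw [Finset.card_range] at h2
  omega

/-- no direction of an empty triangle enters it without crossing the opposite side -/
theorem no_btw (hLTV : Stmt_LTV) {a b c y : E3} (h1 : det3 a b c ≠ 0) (h2 : det3 a b y ≠ 0)
    (h3 : det3 b c y ≠ 0) (h4 : det3 c a y ≠ 0) (hc : ¬ Cr a y b c) (hT : ¬ Tri a b c y) :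
    ¬ Btw a b y c := by
  have h := hLTV a b c y h1 h2 h3 h4
  rw [io_neg hc, io_neg hT, add_zero] at h
  exact io_eq_zero.1 h.symm

theorem no_btw' (hLTV : Stmt_LTV) {a b c y : E3} (h3 : det3 b c y ≠ 0) (hc : ¬ Cr a y b c)
    (hT : ¬ Tri a b c y) : ¬ Btw a b y c := by
  intro hB
  have hB' := hB
  rcases hB' with ⟨g1, g2, g3⟩ | ⟨g1, g2, g3⟩
  · refine no_btw hLTV g3.ne' g1.ne' h3 ?_ hc hT hB
    have e := det3_cyc2 a y c
    rw [e]
    exact g2.ne'
  · refine no_btw hLTV g3.ne g1.ne h3 ?_ hc hT hB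
    have e := det3_cyc2 a y c
    rw [e]
    exact g2.ne

/-- the side conditions of a genuine ear -/
theorem earC_of (hLTV : Stmt_LTV) (hCRX : Stmt_CRX) {V : Type} [DecidableEq V] (L : Pg V)
    (hL : L.Ok) (hc : 5 ≤ L.S.card) {u : V} (hu : u ∈ L.S)
    (hF : ∀ i j, ¬ L.Flat (L.s u) i j)
    (hT : ∀ j ∈ L.S, ¬ Tri (L.p u) (L.p (L.s u)) (L.p (L.s (L.s u))) (L.p j)) :
    L.EarC (L.s u) := by
  intro t ht u' hu' htu huk
  have e0 : u' = u := hL.inj u' hu' u hu huk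
  subst e0
  -- names
  have hk : L.s u' ∈ L.S := hL.maps _ hu'
  have hw : L.s (L.s u') ∈ L.S := hL.maps _ hk
  have hw' : L.s (L.s (L.s u')) ∈ L.S := hL.maps _ hw
  have hgen : ∀ i ∈ L.S, ∀ j ∈ L.S, L.s u' ≠ i → L.s u' ≠ j → i ≠ j →
      det3 (L.p (L.s u')) (L.p i) (L.p j) ≠ 0 := by
    intro i hi j hj h1 h2 h3
    exact hL.gen _ hk i hi j hj h1 h2 h3 (hF i j)
  obtain ⟨a1, a2, a3⟩ := ss_ne L hL ht
  obtain ⟨b1, b2, b3⟩ := ss_ne L hL hu'
  obtain ⟨c1, c2, c3⟩ := ss_ne L hL hk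
  have a4 := ssss_ne L hL hc ht
  have b4 := ssss_ne L hL hc hu'
  rw [htu] at a1 a2 a3 a4
  have d1 : det3 (L.p (L.s u')) (L.p (L.s (L.s u'))) (L.p t) ≠ 0 :=
    hgen _ hw t ht c1.symm a2 a3
  have d2 : det3 (L.p (L.s u')) (L.p t) (L.p u') ≠ 0 :=
    hgen t ht u' hu' a2 b1 a1.symm
  have d3 : det3 (L.p (L.s u')) (L.p (L.s (L.s (L.s u')))) (L.p u') ≠ 0 :=
    hgen _ hw' u' hu' c2.symm b1 b3
  have d4 : det3 (L.p (L.s u')) (L.p (L.s (L.s u'))) (L.p (L.s (L.s (L.s u')))) ≠ 0 := by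
    refine hgen _ hw _ hw' c1.symm c2.symm ?_
    intro h
    exact c1 (hL.inj _ hw _ hk h.symm)
  have hcr1 : ¬ Cr (L.p u') (L.p t) (L.p (L.s u')) (L.p (L.s (L.s u'))) := by
    have h := no_cr hCRX L hL ht hk a2.symm (by rw [htu]; exact b1) (by exact a3.symm)
    rw [htu] at h
    intro h5
    exact h ((Cr_comm _ _ _ _).1 h5)
  have hcr2 : ¬ Cr (L.p (L.s (L.s u'))) (L.p (L.s (L.s (L.s u')))) (L.p u') (L.p (L.s u')) :=
    no_cr hCRX L hL hw hu' b2 b3.symm c1
  have hB1 : ¬ Btw (L.p u') (L.p (L.s u')) (L.p t) (L.p (L.s (L.s u'))) :=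
    no_btw' hLTV d1 hcr1 (hT t ht)
  have hB2 : ¬ Btw (L.p (L.s (L.s u'))) (L.p u') (L.p (L.s (L.s (L.s u')))) (L.p (L.s u')) := by
    refine no_btw' hLTV ?_ hcr2 ?_
    · intro h
      apply d3
      have e := det3_cyc2 (L.p (L.s u')) (L.p (L.s (L.s (L.s u')))) (L.p u')
      rw [e] at h
      exact h
    · intro h
      exact hT _ hw' ((Tri_cyc _ _ _ _).1 h)
  have eT : L.turn u' = det3 (L.p u') (L.p (L.s u')) (L.p (L.s (L.s u'))) := rfl
  rw [eT]
  constructor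
  · intro h
    have e1 : det3 (L.p t) (L.p u') (L.p (L.s (L.s u'))) =
        -det3 (L.p u') (L.p t) (L.p (L.s (L.s u'))) := by
      rw [det3_swap12]
    have e2 : det3 (L.p t) (L.p u') (L.p (L.s u')) =
        det3 (L.p u') (L.p (L.s u')) (L.p t) := (det3_cyc _ _ _).symm
    have e3 : det3 (L.p u') (L.p (L.s u')) (L.p t) =
        det3 (L.p (L.s u')) (L.p t) (L.p u') := (det3_cyc _ _ _).symm
    rw [e1] at h
    rw [e2]
    have hne : det3 (L.p u') (L.p (L.s u')) (L.p t) ≠ 0 := by rw [e3]; exact d2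
    by_contra hcon
    push Not at hcon
    apply hB1
    rcases lt_trichotomy (det3 (L.p u') (L.p (L.s u')) (L.p (L.s (L.s u')))) 0 with g | g | g
    · right
      refine ⟨?_, ?_, g⟩
      · rcases lt_or_gt_of_ne hne with g2 | g2
        · exact g2
        · nlinarith
      · nlinarith
    · rw [g] at h
      simp at h
    · left
      refine ⟨?_, ?_, g⟩
      · rcases lt_or_gt_of_ne hne with g2 | g2
        · nlinarith
        · exact g2
      · nlinarith
  · intro h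
    have e0 : det3 (L.p u') (L.p (L.s u')) (L.p (L.s (L.s u'))) =
        det3 (L.p (L.s (L.s u'))) (L.p u') (L.p (L.s u')) := (det3_cyc2 _ _ _).symm
    have e1 : det3 (L.p u') (L.p (L.s (L.s u'))) (L.p (L.s (L.s (L.s u')))) =
        -det3 (L.p (L.s (L.s u'))) (L.p u') (L.p (L.s (L.s (L.s u')))) := by
      rw [det3_swap12]
    have e2 : det3 (L.p (L.s u')) (L.p (L.s (L.s u'))) (L.p (L.s (L.s (L.s u')))) =
        det3 (L.p (L.s (L.s u'))) (L.p (L.s (L.s (L.s u')))) (L.p (L.s u')) :=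
      (det3_cyc _ _ _).symm
    rw [e0, e1] at h
    have hne := d4
    rw [e2] at hne
    rw [e0, e2]
    by_contra hcon
    push Not at hcon
    apply hB2
    rcases lt_trichotomy (det3 (L.p (L.s (L.s u'))) (L.p u') (L.p (L.s u'))) 0 with g | g | g
    · right
      refine ⟨?_, ?_, g⟩
      · nlinarith
      · rcases lt_or_gt_of_ne hne with g2 | g2
        · exact g2
        · nlinarith
    · rw [g] at h
      simp at h
    · left
      refine ⟨?_, ?_, g⟩
      · nlinarith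
      · rcases lt_or_gt_of_ne hne with g2 | g2
        · nlinarith
        · exact g2

theorem closed_case (hLTV : Stmt_LTV) (hCRX : Stmt_CRX)
    (hREM : Stmt_REM) (hFOUR : Stmt_FOUR) (hCRA : Stmt_CRA) (hENU : Stmt_ENU)
    (hTOX : Stmt_TOX) (hBAK : Stmt_BAK) (V : Type) [DecidableEq V] (L : Pg V) (hL : L.Ok)
    (hX : L.X = none) (hc : 5 ≤ L.S.card) : ∃ k ∈ L.S, (L.erase k).Ok ∧ L.EarC k := by
  obtain ⟨m, f, hE⟩ := hENU V L hL
  have hm : 4 ≤ m := by have := hE.card; omega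
  obtain ⟨hG, hS, hB⟩ := hTOX V L m f hL hX hE
  obtain ⟨k1, k2, k3, k4, h1, h2, h3, h4, h12, h13, h14, h23, h24, h34, e1, e2, e3, e4⟩ :=
    hFOUR m _ (by omega) hG hS hB
  obtain ⟨i, j, k, hess⟩ := hCRA m _ hm hG hB
  obtain ⟨l, ⟨hl, hel⟩, hli, hlj, hlk⟩ := pick4
    (fun l => l ≤ m ∧ Ear m (fun t => L.p (f t)) l) (i := i) (j := j) (k := k)
    h12 h13 h14 h23 h24 h34 ⟨h1, e1⟩ ⟨h2, e2⟩ ⟨h3, e3⟩ ⟨h4, e4⟩
  obtain ⟨hu, hs1, hs2, hcr⟩ := chord hREM L m f (by omega) hE hG hS l hl hel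
  have hEC : L.EarC (L.s (f (pv m l))) := by
    apply earC_of hLTV hCRX L hL hc hu
    · rintro i' j' ⟨m', q', h5, _⟩
      rw [hX] at h5
      exact absurd h5 (by simp)
    · intro j' hj'
      obtain ⟨t, ht, rfl⟩ := hE.surj j' hj'
      rw [hs2, hs1]
      exact hel t ht
  refine ⟨f l, hE.mem l hl, ?_⟩
  rw [← hs1]
  refine ⟨?_, hEC⟩
  apply hBAK V L (f (pv m l)) hL hX hc hu hcr
  intro ν hν
  obtain ⟨t, ht, htl, hpos⟩ := hess l hl hli hlj hlk ν hν
  refine ⟨f t, hE.mem t ht, ?_, hpos⟩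
  rw [hs1]
  intro h
  exact htl (hE.inj t l ht hl h)

theorem pert_ok (hPTG : Stmt_PTG) (hPTB : Stmt_PTB) (hPTS : Stmt_PTS) (V : Type) [DecidableEq V]
    (L : Pg V) (m0 q0 : V) (a b σ : ℝ) (hL : L.Ok) (hX : L.X = some m0)
    (hC : Cor L m0 q0 a b σ) : ∃ r : ℝ, (pert L m0 r).Ok := by
  obtain ⟨ε1, h1, g1⟩ := hPTG V L m0 q0 a b σ hL hX hC
  obtain ⟨ε2, h2, g2⟩ := hPTB V L m0 q0 a b σ hL hX hC
  have hε : 0 < min ε1 ε2 / 2 := by
    have := lt_min h1 h2
    linarith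
  have l1 : min ε1 ε2 / 2 < ε1 := by
    have := min_le_left ε1 ε2
    linarith
  have l2 : min ε1 ε2 / 2 < ε2 := by
    have := min_le_right ε1 ε2
    linarith
  refine ⟨(min ε1 ε2 / 2) * σ, ?_⟩
  refine ⟨hL.maps, hL.inj, hL.trans, hL.card, ?_, ?_, ?_⟩
  · intro i hi j hj k hk hij hik hjk _
    exact g1 _ hε l1 i hi j hj k hk hij hik hjk
  · intro i hi j hj hij x hx hy
    exact hPTS V L m0 q0 a b σ _ hL hX hC hε i hi j hj hij x hx hy
  · left
    exact ⟨rfl, g2 _ hε l2⟩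

theorem corner_case (hLTV : Stmt_LTV) (hCRX : Stmt_CRX) (hREM : Stmt_REM) (hFOUR : Stmt_FOUR) (hENU : Stmt_ENU)
    (hTOX : Stmt_TOX) (hERC : Stmt_ERC) (hPTG : Stmt_PTG) (hPTB : Stmt_PTB) (hPTS : Stmt_PTS)
    (hBXS : Stmt_BXS) (hBXK : Stmt_BXK) (V : Type) [DecidableEq V] (L : Pg V) (hL : L.Ok)
    (m0 : V) (hX : L.X = some m0) (hcor : L.CornerAt m0)
    (hc : 5 ≤ L.S.card) : ∃ k ∈ L.S, (L.erase k).Ok ∧ L.EarC k := by
  obtain ⟨hm0, q0, hq0, hs0, ⟨a, b, ha, hb, hflat⟩, σ, hσ, hneg⟩ := hcor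
  have hC : Cor L m0 q0 a b σ := ⟨hm0, hq0, hs0, ha, hb, hflat, hσ, hneg⟩
  obtain ⟨r, hP⟩ := pert_ok hPTG hPTB hPTS V L m0 q0 a b σ hL hX hC
  obtain ⟨m, f, hE⟩ := hENU V (pert L m0 r) hP
  have hm : 4 ≤ m := by
    have h1 := hE.card
    have h2 : (pert L m0 r).S.card = L.S.card := rfl
    omega
  obtain ⟨hG, hS, hB⟩ := hTOX V (pert L m0 r) m f hP rfl hE
  obtain ⟨k1, k2, k3, k4, h1, h2, h3, h4, h12, h13, h14, h23, h24, h34, e1, e2, e3, e4⟩ :=
    hFOUR m _ (by omega) hG hS hB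
  obtain ⟨i, hi, hif⟩ := hE.surj q0 hq0
  obtain ⟨j, hj, hjf⟩ := hE.surj m0 hm0
  obtain ⟨k, hk, hkf⟩ := hE.surj (L.s m0) (hL.maps m0 hm0)
  obtain ⟨l, ⟨hl, hel⟩, hli, hlj, hlk⟩ := pick4
    (fun l => l ≤ m ∧ Ear m (fun t => (pert L m0 r).p (f t)) l) (i := i) (j := j) (k := k)
    h12 h13 h14 h23 h24 h34 ⟨h1, e1⟩ ⟨h2, e2⟩ ⟨h3, e3⟩ ⟨h4, e4⟩
  obtain ⟨hu, hs1, hs2, hcr⟩ := chord hREM (pert L m0 r) m f (by omega) hE hG hS l hl hel
  have hu' : f (pv m l) ∈ L.S := hu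
  have hs1' : L.s (f (pv m l)) = f l := hs1
  have hs2' : L.s (L.s (f (pv m l))) = f (nx m l) := hs2
  have hlq : L.s (f (pv m l)) ≠ q0 := by
    rw [hs1', ← hif]
    intro h
    exact hli (hE.inj l i hl hi h)
  have hlm : L.s (f (pv m l)) ≠ m0 := by
    rw [hs1', ← hjf]
    intro h
    exact hlj (hE.inj l j hl hj h)
  have hls : L.s (f (pv m l)) ≠ L.s m0 := by
    rw [hs1', ← hkf]
    intro h
    exact hlk (hE.inj l k hl hk h)
  have hum : f (pv m l) ≠ m0 := by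
    intro h
    exact hls (by rw [h])
  have hwm : L.s (L.s (f (pv m l))) ≠ m0 := by
    intro h
    rw [← hs0] at h
    exact hlq (hL.inj _ (hL.maps _ hu') _ hq0 h)
  have hcr' : ∀ j ∈ L.S, j ≠ q0 → j ≠ m0 →
      ¬ Cr (L.p (f (pv m l))) (L.p (L.s (L.s (f (pv m l))))) (L.p j) (L.p (L.s j)) := by
    intro j hj hjq hjm
    have hsj : L.s j ≠ m0 := by
      intro h
      rw [← hs0] at h
      exact hjq (hL.inj _ hj _ hq0 h)
    have h5 := hcr j hj
    have e1 : (pert L m0 r).p (f (pv m l)) = L.p (f (pv m l)) := by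
      show Function.update L.p m0 _ _ = _
      exact Function.update_of_ne hum _ _
    have e2 : (pert L m0 r).p (L.s (L.s (f (pv m l)))) = L.p (L.s (L.s (f (pv m l)))) := by
      show Function.update L.p m0 _ _ = _
      exact Function.update_of_ne hwm _ _
    have e3 : (pert L m0 r).p j = L.p j := by
      show Function.update L.p m0 _ _ = _
      exact Function.update_of_ne hjm _ _
    have e4 : (pert L m0 r).p (L.s j) = L.p (L.s j) := by
      show Function.update L.p m0 _ _ = _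
      exact Function.update_of_ne hsj _ _
    rw [← e1, ← e2, ← e3, ← e4]
    exact h5
  have hk' : L.s (f (pv m l)) ∈ L.S := hL.maps _ hu'
  have hw' : L.s (L.s (f (pv m l))) ∈ L.S := hL.maps _ hk'
  have hle : ∀ i ∈ L.S, i ≠ m0 → σ * (inner ℝ (L.nor m0) (L.p i) : ℝ) ≤ 0 := by
    intro i hi him
    by_cases h5 : i = q0
    · have h6 : (inner ℝ (L.nor m0) (L.p i) : ℝ) = 0 := by
        show (inner ℝ (crs (L.p m0) (L.p (L.s m0))) (L.p i) : ℝ) = 0
        rw [inner_crs, h5]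
        have h7 : det3 (L.p m0) (L.p (L.s m0)) (a • L.p q0 + b • L.p (L.s m0) + L.p m0) = 0 := by
          rw [hflat, det3_zero3]
        rw [det3_add3, det3_add3, det3_smul3, det3_smul3, det3_baa, det3_aba, mul_zero, add_zero,
          add_zero] at h7
        rcases mul_eq_zero.1 h7 with h8 | h8
        · exact absurd h8 ha.ne'
        · exact h8
      rw [h6, mul_zero]
    · by_cases h6 : i = L.s m0
      · have h7 : (inner ℝ (L.nor m0) (L.p i) : ℝ) = 0 := by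
          show (inner ℝ (crs (L.p m0) (L.p (L.s m0))) (L.p i) : ℝ) = 0
          rw [inner_crs, h6, det3_baa]
        rw [h7, mul_zero]
      · exact (hneg i hi h5 him h6).le
  have hEC : L.EarC (L.s (f (pv m l))) := by
    apply earC_of hLTV hCRX L hL hc hu'
    · rintro i' j' ⟨m', q', h5, h6, h7, h8⟩
      rw [hX] at h5
      have h9 : m0 = m' := Option.some.inj h5
      subst h9
      have h10 : q' = q0 := hL.inj _ h6 _ hq0 (by rw [h7, hs0])
      subst h10
      have h11 : L.s (f (pv m l)) ∈ ({q', m0, L.s m0} : Finset V) := by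
        rw [← h8]
        exact Finset.mem_insert_self _ _
      rw [Finset.mem_insert, Finset.mem_insert, Finset.mem_singleton] at h11
      rcases h11 with h12 | h12 | h12
      · exact hlq h12
      · exact hlm h12
      · exact hls h12
    · intro j' hj'
      by_cases hjm : j' = m0
      · subst hjm
        intro hTri
        obtain ⟨α, β, γ, hα, hβ, hγ, he⟩ := tri_comb hTri
        have h5 : (inner ℝ (L.nor j') (L.p j') : ℝ) = 0 := by
          show (inner ℝ (crs (L.p j') (L.p (L.s j'))) (L.p j') : ℝ) = 0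
          rw [inner_crs, det3_aba]
        have h6 : σ * (inner ℝ (L.nor j') (L.p j') : ℝ) =
            α * (σ * (inner ℝ (L.nor j') (L.p (f (pv m l))) : ℝ)) +
            β * (σ * (inner ℝ (L.nor j') (L.p (L.s (f (pv m l)))) : ℝ)) +
            γ * (σ * (inner ℝ (L.nor j') (L.p (L.s (L.s (f (pv m l))))) : ℝ)) := by
          calc σ * (inner ℝ (L.nor j') (L.p j') : ℝ) = σ * (inner ℝ (L.nor j')
                (α • L.p (f (pv m l)) + β • L.p (L.s (f (pv m l))) +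
                  γ • L.p (L.s (L.s (f (pv m l))))) : ℝ) := by rw [← he]
            _ = _ := by
              rw [inner_add_right, inner_add_right, inner_smul_right, inner_smul_right,
                inner_smul_right]
              ring
        have h7 := hle _ hu' hum
        have h8 := hneg _ hk' hlq hlm hls
        have h9 := hle _ hw' hwm
        have h10 := mul_nonpos_of_nonneg_of_nonpos hα.le h7
        have h11 := mul_neg_of_pos_of_neg hβ h8
        have h12 := mul_nonpos_of_nonneg_of_nonpos hγ.le h9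
        rw [h5, mul_zero] at h6
        linarith
      · obtain ⟨t, ht, h5⟩ := hE.surj j' hj'
        have h6 := hel t ht
        have e1 : (pert L m0 r).p (f (pv m l)) = L.p (f (pv m l)) := by
          show Function.update L.p m0 _ _ = _
          exact Function.update_of_ne hum _ _
        have e2 : (pert L m0 r).p (f (nx m l)) = L.p (L.s (L.s (f (pv m l)))) := by
          rw [← hs2']
          show Function.update L.p m0 _ _ = _
          exact Function.update_of_ne hwm _ _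
        have e3 : (pert L m0 r).p (f t) = L.p j' := by
          rw [h5]
          show Function.update L.p m0 _ _ = _
          exact Function.update_of_ne hjm _ _
        have e4 : (pert L m0 r).p (f l) = L.p (L.s (f (pv m l))) := by
          rw [← hs1']
          show Function.update L.p m0 _ _ = _
          exact Function.update_of_ne hlm _ _
        unfold TriAt at h6
        simp only [e1, e2, e3, e4] at h6
        exact h6
  refine ⟨L.s (f (pv m l)), hL.maps _ hu', ?_, hEC⟩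
  obtain ⟨c1, c2, c3, c4⟩ := hERC V L (L.s (f (pv m l))) hL hc (hL.maps _ hu')
  obtain ⟨d1, d2⟩ := hBXK V L m0 q0 (L.s (f (pv m l))) a b σ hL hX hC (hL.maps _ hu') hlq hlm hls
  refine ⟨c1, c2, c3, c4, d1, ?_, ?_⟩
  · exact hBXS V L m0 q0 (f (pv m l)) a b σ hL hX hC hc hu' hlq hlm hls hcr'
  · right
    exact ⟨m0, hX, d2⟩

end ELA_

/-- the ear theorem from the modules -/
theorem el_of (hLTV : Stmt_LTV) (hCRX : Stmt_CRX) (hREM : Stmt_REM) (hFOUR : Stmt_FOUR) (hCRA : Stmt_CRA) (hENU : Stmt_ENU)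
    (hTOX : Stmt_TOX) (hERC : Stmt_ERC) (hBAK : Stmt_BAK) (hPTG : Stmt_PTG) (hPTB : Stmt_PTB)
    (hPTS : Stmt_PTS) (hBXS : Stmt_BXS) (hBXK : Stmt_BXK) : Stmt_EL := by
  intro V _ L hL hc
  rcases hL.kind with ⟨hX, _⟩ | ⟨m0, hX, hcor⟩
  · exact ELA_.closed_case hLTV hCRX hREM hFOUR hCRA hENU hTOX hBAK V L hL hX hc
  · exact ELA_.corner_case hLTV hCRX hREM hFOUR hENU hTOX hERC hPTG hPTB hPTS hBXS hBXK V L hL m0 hX hcor hc

end Pool.Agent.TSE
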