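import Pool.Agent.TSE.Stmts

set_option autoImplicit false

/-!
# EMB: an empty left triangle at the end
-/

namespace Pool.Agent.TSE

open Pool.Agent.TSM

namespace EMB_

theorem Tri_perm1 {a b c x : E3} (h : ¬ Tri a b c x) : ¬ Tri b a c x := by
  rw [← Tri_swap]; exact h

theorem Tri_perm2 {a b c x : E3} (h : ¬ Tri a b c x) : ¬ Tri c a b x := by
  rw [Tri_cyc]; exact h

theorem Tri_perm3 {a b c x : E3} (h : ¬ Tri a b c x) : ¬ Tri c b a x := by
  rw [← Tri_swap, ← Tri_cyc]; exact h

/-- the new diagonal crosses no side -/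
theorem nc (h1 : Stmt_LT) (h2 : Stmt_LTV) (h3 : Stmt_W2) (m : ℕ) (p : ℕ → E3) (i j : ℕ)
    (hG : Gen m p) (hS : Simp m p) (hij : i + 3 ≤ j) (hj : j ≤ m)
    (hN : NC m p i j) (hL : (i = 0 ∧ j = m) ∨ LfAt m p j (p i))
    (hD : 0 < det3 (p (j - 1)) (p j) (p i))
    (hT : ∀ l, l ≤ m → ¬ Tri (p (j - 1)) (p j) (p i) (p l)) : NC m p i (j - 1) := by
  intro t ht
  have hnj : nx m (j - 1) = j := by
    rw [nx_of_lt (by omega)]
    omega
  have hpj : pv m j = j - 1 := pv_of_pos (by omega)
  have hnt := nx_le ht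
  have hntt := nx_ne (show 1 ≤ m by omega) ht
  by_cases e1 : t = i
  · subst e1
    exact Cr_left _ _ _
  by_cases e2 : nx m t = i
  · rw [e2]
    exact Cr_left' _ _ _
  by_cases e3 : t = j - 1
  · rw [e3]
    exact Cr_right _ _ _
  by_cases e4 : nx m t = j - 1
  · rw [e4]
    exact Cr_right' _ _ _
  by_cases e5 : t = j
  · subst e5
    have hw : ¬ (i = 0 ∧ t = m) := by
      rintro ⟨h0, h0'⟩
      apply e2
      rw [h0', nx_last, h0]
    have hLf : LfAt m p t (p i) := by
      rcases hL with h | h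
      · exact absurd h hw
      · exact h
    unfold LfAt at hLf
    rw [hpj] at hLf
    have h5 := h3.2.2.1 (p (t - 1)) (p t) (p (nx m t)) (p i)
      (hG _ _ _ (by omega) ht hnt (by omega) (Ne.symm e4) (Ne.symm hntt))
      (hG _ _ _ (by omega) ht (by omega) (by omega) (by omega) (by omega))
      (hG _ _ _ ht hnt (by omega) (Ne.symm hntt) (by omega) e2)
    rw [io_pos hLf, io_pos hD] at h5
    have h6 : io (Btw (p t) (p (t - 1)) (p (nx m t)) (p i)) = 0 := by
      have : (1 : ZMod 2) + io (Btw (p t) (p (t - 1)) (p (nx m t)) (p i)) = 1 + 0 := by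
        rw [← h5, add_zero]
      exact add_left_cancel this
    have h7 := h2 (p t) (p (t - 1)) (p i) (p (nx m t))
      (hG _ _ _ ht (by omega) (by omega) (by omega) (by omega) (by omega))
      (hG _ _ _ ht (by omega) hnt (by omega) (Ne.symm hntt) (Ne.symm e4))
      (hG _ _ _ (by omega) (by omega) hnt (by omega) (Ne.symm e4) (Ne.symm e2))
      (hG _ _ _ (by omega) ht hnt (by omega) (Ne.symm e2) (Ne.symm hntt))
    rw [h6, io_neg (Tri_perm1 (hT _ hnt)), add_zero] at h7
    rw [io_eq_zero] at h7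
    intro hc
    apply h7
    rw [Cr_comm2, ← Cr_symm]
    exact hc
  · have e6 : nx m t ≠ j := by
      intro h
      apply e3
      rw [← hnj] at h
      exact nx_inj ht (by omega) h
    have h7 := h1 (p i) (p (j - 1)) (p j) (p t) (p (nx m t))
      (hG _ _ _ (by omega) (by omega) hj (by omega) (by omega) (by omega))
      (hG _ _ _ (by omega) (by omega) ht (by omega) (Ne.symm e1) (Ne.symm e3))
      (hG _ _ _ (by omega) hj ht (by omega) (Ne.symm e3) (Ne.symm e5))
      (hG _ _ _ hj (by omega) ht (by omega) (Ne.symm e5) (Ne.symm e1))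
      (hG _ _ _ (by omega) (by omega) hnt (by omega) (Ne.symm e2) (Ne.symm e4))
      (hG _ _ _ (by omega) hj hnt (by omega) (Ne.symm e4) (Ne.symm e6))
      (hG _ _ _ hj (by omega) hnt (by omega) (Ne.symm e6) (Ne.symm e2))
      (hG _ _ _ ht hnt (by omega) (Ne.symm hntt) e1 e2)
      (hG _ _ _ ht hnt (by omega) (Ne.symm hntt) e3 e4)
      (hG _ _ _ ht hnt (by omega) (Ne.symm hntt) e5 e6)
    have t1 : ∀ l, l ≤ m → ¬ Tri (p i) (p (j - 1)) (p j) (p l) := fun l hl => Tri_perm2 (hT l hl)
    have c1 : ¬ Cr (p t) (p (nx m t)) (p (j - 1)) (p j) := by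
      have := side_NC hS ht (j - 1) (by omega)
      rwa [hnj] at this
    have c2 : ¬ Cr (p t) (p (nx m t)) (p j) (p i) := by
      intro hc
      apply hN t ht
      rw [Cr_symm, Cr_comm2]
      exact hc
    rw [io_neg c1, io_neg c2, io_neg (t1 _ ht), io_neg (t1 _ hnt), add_zero, add_zero, add_zero,
      io_eq_zero] at h7
    intro hc
    apply h7
    rw [← Cr_symm]
    exact hc

theorem lf_end (h2 : Stmt_LTV) (h3 : Stmt_W2) (m : ℕ) (p : ℕ → E3) (i j : ℕ)
    (hG : Gen m p) (hij : i + 3 ≤ j) (hj : j ≤ m)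
    (hN : NC m p i j) (hD : 0 < det3 (p (j - 1)) (p j) (p i))
    (hT : ∀ l, l ≤ m → ¬ Tri (p (j - 1)) (p j) (p i) (p l)) : LfAt m p (j - 1) (p i) := by
  have hnj : nx m (j - 1) = j := by
    rw [nx_of_lt (by omega)]
    omega
  have hpj : pv m (j - 1) = j - 2 := by
    rw [pv_of_pos (by omega)]
    omega
  have hnj2 : nx m (j - 2) = j - 1 := by
    rw [nx_of_lt (by omega)]
    omega
  unfold LfAt
  rw [hnj, hpj]
  apply io_eq_one.1
  rw [h3.2.1 (p (j - 2)) (p (j - 1)) (p j) (p i)
    (hG _ _ _ (by omega) (by omega) hj (by omega) (by omega) (by omega))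
    (hG _ _ _ (by omega) (by omega) (by omega) (by omega) (by omega) (by omega))
    (hG _ _ _ (by omega) hj (by omega) (by omega) (by omega) (by omega)), io_pos hD]
  have h7 := h2 (p (j - 1)) (p j) (p i) (p (j - 2))
    (hG _ _ _ (by omega) (by omega) (by omega) (by omega) (by omega) (by omega))
    (hG _ _ _ (by omega) (by omega) (by omega) (by omega) (by omega) (by omega))
    (hG _ _ _ (by omega) (by omega) (by omega) (by omega) (by omega) (by omega))
    (hG _ _ _ (by omega) (by omega) (by omega) (by omega) (by omega) (by omega))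
  have c1 : ¬ Cr (p (j - 1)) (p (j - 2)) (p j) (p i) := by
    intro hc
    apply hN (j - 2) (by omega)
    rw [hnj2, Cr_symm, Cr_comm, Cr_comm2]
    exact hc
  rw [io_neg c1, io_neg (hT _ (by omega)), add_zero] at h7
  rw [← h7, add_zero]

theorem lf_whole (h2 : Stmt_LTV) (h3 : Stmt_W2) (m : ℕ) (p : ℕ → E3)
    (hG : Gen m p) (hS : Simp m p) (hm : 3 ≤ m)
    (hD : 0 < det3 (p (m - 1)) (p m) (p 0))
    (hT : ∀ l, l ≤ m → ¬ Tri (p (m - 1)) (p m) (p 0) (p l)) : LfAt m p 0 (p (m - 1)) := by
  have hn0 : nx m 0 = 1 := nx_of_lt (by omega)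
  have hnm : nx m (m - 1) = m := by
    rw [nx_of_lt (by omega)]
    omega
  unfold LfAt
  rw [pv_zero, hn0]
  apply io_eq_one.1
  have hD' : 0 < det3 (p m) (p 0) (p (m - 1)) := by
    rw [det3_cyc]
    exact hD
  rw [h3.2.2.1 (p m) (p 0) (p 1) (p (m - 1))
    (hG _ _ _ (by omega) (by omega) (by omega) (by omega) (by omega) (by omega))
    (hG _ _ _ (by omega) (by omega) (by omega) (by omega) (by omega) (by omega))
    (hG _ _ _ (by omega) (by omega) (by omega) (by omega) (by omega) (by omega)), io_pos hD']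
  have h7 := h2 (p 0) (p m) (p (m - 1)) (p 1)
    (hG _ _ _ (by omega) (by omega) (by omega) (by omega) (by omega) (by omega))
    (hG _ _ _ (by omega) (by omega) (by omega) (by omega) (by omega) (by omega))
    (hG _ _ _ (by omega) (by omega) (by omega) (by omega) (by omega) (by omega))
    (hG _ _ _ (by omega) (by omega) (by omega) (by omega) (by omega) (by omega))
  have c1 : ¬ Cr (p 0) (p 1) (p m) (p (m - 1)) := by
    intro hc
    have := side_NC hS (Nat.zero_le m) (m - 1) (by omega)
    rw [hn0, hnm] at this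
    apply this
    rw [Cr_comm2]
    exact hc
  rw [io_neg c1, io_neg (Tri_perm3 (hT _ (by omega))), add_zero] at h7
  rw [← h7, add_zero]

theorem lf_start (h2 : Stmt_LTV) (h3 : Stmt_W2) (m : ℕ) (p : ℕ → E3) (i j : ℕ)
    (hG : Gen m p) (hS : Simp m p) (hij : i + 3 ≤ j) (hj : j ≤ m) (hw : ¬ (i = 0 ∧ j = m))
    (hL : LfAt m p i (p j))
    (hT : ∀ l, l ≤ m → ¬ Tri (p (j - 1)) (p j) (p i) (p l)) : LfAt m p i (p (j - 1)) := by
  have hnj : nx m (j - 1) = j := by
    rw [nx_of_lt (by omega)]
    omega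
  have hni : nx m i = i + 1 := nx_of_lt (by omega)
  have hpi := pv_le (show i ≤ m by omega)
  have hpi1 : pv m i ≠ i := pv_ne (by omega) (by omega)
  have hpi2 : pv m i ≠ i + 1 := by
    unfold pv
    split_ifs <;> omega
  have hpi3 : pv m i ≠ j := by
    unfold pv
    split_ifs with h
    · intro h'
      exact hw ⟨h, h'.symm⟩
    · omega
  have hpi4 : pv m i ≠ j - 1 := by
    unfold pv
    split_ifs <;> omega
  have hA : ∀ l, l ≤ m → l ≠ i → l ≠ j → l ≠ j - 1 → ¬ Cr (p i) (p l) (p (j - 1)) (p j) →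
      io (Btw (p i) (p j) (p l) (p (j - 1))) = 0 := by
    intro l hl l1 l2 l3 hc
    have h7 := h2 (p i) (p j) (p (j - 1)) (p l)
      (hG _ _ _ (by omega) (by omega) (by omega) (by omega) (by omega) (by omega))
      (hG _ _ _ (by omega) (by omega) (by omega) (by omega) (by omega) (by omega))
      (hG _ _ _ (by omega) (by omega) (by omega) (by omega) (by omega) (by omega))
      (hG _ _ _ (by omega) (by omega) (by omega) (by omega) (by omega) (by omega))
    rw [← h7, io_neg (Tri_perm3 (hT l hl)), add_zero]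
    apply io_neg
    rw [Cr_comm2]
    exact hc
  have hB1 := hA (pv m i) hpi hpi1 hpi3 hpi4 (by
    have := side_NC' hS (show i ≤ m by omega) (j - 1) (by omega)
    rwa [hnj] at this)
  have hB2 := hA (nx m i) (by omega) (by omega) (by omega) (by omega) (by
    have := side_NC hS (show i ≤ m by omega) (j - 1) (by omega)
    rwa [hnj] at this)
  have h8 := h3.1 (p (pv m i)) (p i) (p (nx m i)) (p j) (p (j - 1))
    (hG _ _ _ (by omega) (by omega) (by omega) (by omega) (by omega) (by omega))
    (hG _ _ _ (by omega) (by omega) (by omega) (by omega) (by omega) (by omega))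
    (hG _ _ _ (by omega) (by omega) (by omega) (by omega) (by omega) (by omega))
    (hG _ _ _ (by omega) (by omega) (by omega) (by omega) (by omega) (by omega))
    (hG _ _ _ (by omega) (by omega) (by omega) (by omega) (by omega) (by omega))
    (hG _ _ _ (by omega) (by omega) (by omega) (by omega) (by omega) (by omega))
  rw [hB1, hB2, add_zero] at h8
  unfold LfAt at hL ⊢
  have h9 := eq_of_add h8.symm
  rw [io_pos hL] at h9
  exact io_eq_one.1 h9.symm

end EMB_

open EMB_

theorem emb_proof (h1 : Stmt_LT) (h2 : Stmt_LTV) (h3 : Stmt_W2) : Stmt_EMB := by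
  intro m p i j hG hS hij hj hL hD hT
  right
  have hN : NC m p i j := by
    rcases hL with ⟨hi, hj'⟩ | h
    · subst hi
      subst hj'
      have := side_NC' hS (Nat.zero_le j)
      rwa [pv_zero] at this
    · exact h.1
  refine ⟨nc h1 h2 h3 m p i j hG hS hij hj hN ?_ hD hT, ?_,
    lf_end h2 h3 m p i j hG hij hj hN hD hT⟩
  · rcases hL with h | h
    · exact Or.inl h
    · exact Or.inr h.2.2
  · by_cases hw : i = 0 ∧ j = m
    · obtain ⟨hi, hj'⟩ := hw
      subst hi
      subst hj'
      exact lf_whole h2 h3 j p hG hS (by omega) hD hT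
    · rcases hL with h | h
      · exact absurd h hw
      · exact lf_start h2 h3 m p i j hG hS hij hj hw h.2.1 hT

end Pool.Agent.TSE
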