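import Pool.Agent.TSE.Base

/-!
# TSE: exact statements of the modules
-/

set_option autoImplicit false

namespace Pool.Agent.TSE

open Pool.Agent.TSM

/-! ## local identities -/

/-- LT: an arc and a triangle -/
def Stmt_LT : Prop := ∀ a b c x y : E3,
  det3 a b c ≠ 0 → det3 a b x ≠ 0 → det3 b c x ≠ 0 → det3 c a x ≠ 0 →
  det3 a b y ≠ 0 → det3 b c y ≠ 0 → det3 c a y ≠ 0 →
  det3 x y a ≠ 0 → det3 x y b ≠ 0 → det3 x y c ≠ 0 →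
  io (Cr x y a b) + io (Cr x y b c) + io (Cr x y c a) = io (Tri a b c x) + io (Tri a b c y)

/-- LTV: an arc which starts at a corner of a triangle -/
def Stmt_LTV : Prop := ∀ a b c y : E3,
  det3 a b c ≠ 0 → det3 a b y ≠ 0 → det3 b c y ≠ 0 → det3 c a y ≠ 0 →
  io (Cr a y b c) + io (Tri a b c y) = io (Btw a b y c)

/-- W2: directions at a vertex -/
def Stmt_W2 : Prop :=
  (∀ a v b u w : E3, det3 v a b ≠ 0 → det3 v a u ≠ 0 → det3 v a w ≠ 0 → det3 v b u ≠ 0 →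
    det3 v b w ≠ 0 → det3 v u w ≠ 0 →
    io (Btw v u a w) + io (Btw v u b w) = io (Lf a v b u) + io (Lf a v b w)) ∧
  (∀ a v b y : E3, det3 a v b ≠ 0 → det3 a v y ≠ 0 → det3 v b y ≠ 0 →
    io (Lf a v b y) = io (0 < det3 v b y) + io (Btw v b a y)) ∧
  (∀ a v b y : E3, det3 a v b ≠ 0 → det3 a v y ≠ 0 → det3 v b y ≠ 0 →
    io (Lf a v b y) = io (0 < det3 a v y) + io (Btw v a b y)) ∧
  (∀ a v b y c : E3, Btw v b a y → Btw v b y c → Btw v b a c) ∧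
  (∀ a v b d : E3, Lf a v b d → ¬ Lf a v d b)

/-- CRX: crossing arcs and positive combinations -/
def Stmt_CRX : Prop :=
  (∀ x y a b : E3, Cr x y a b → ∃ u u' s t : ℝ, 0 < u ∧ 0 < u' ∧ 0 < s ∧ 0 < t ∧
    u • x + u' • y = s • a + t • b) ∧
  (∀ (x y a b : E3) (u u' s t : ℝ), 0 < u → 0 < u' → 0 < s → 0 < t →
    u • x + u' • y = s • a + t • b → det3 x y a ≠ 0 → det3 a b x ≠ 0 → Cr x y a b)

/-- FV: contribution of a side to a triangle -/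
def Stmt_FV : Prop :=
  (∀ x y z c d : E3, G4 x y z c → G4 x y z d → det3 c d x ≠ 0 → det3 c d y ≠ 0 →
    det3 c d z ≠ 0 → Fv x y z c d = 0) ∧
  (∀ x y z d : E3, G4 x y z d →
    Fv x y z x d = io (Btw x y d z) ∧ Fv x y z d x = io (Btw x y d z) ∧
    Fv x y z y d = io (Btw y z d x) ∧ Fv x y z d y = io (Btw y z d x) ∧
    Fv x y z z d = io (Btw z x d y) ∧ Fv x y z d z = io (Btw z x d y)) ∧
  (∀ x y z : E3, Fv x y z x y = 0 ∧ Fv x y z y x = 0 ∧ Fv x y z y z = 0 ∧ Fv x y z z y = 0 ∧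
    Fv x y z z x = 0 ∧ Fv x y z x z = 0)

/-! ## the sides of a polygon -/

/-- SG1 -/
def Stmt_SG1 : Prop := ∀ (m : ℕ) (q : ℕ → E3) (y : E3), 2 ≤ m → Gen m q → Simp m q →
  GenP m q y → ∀ s, s ≤ m →
  N m q (q s) y + Lv m q s y = N m q (q (nx m s)) y + Lv m q (nx m s) y

/-- SIG -/
def Stmt_SIG : Prop := ∀ (m : ℕ) (q : ℕ → E3) (y : E3), 2 ≤ m → Gen m q → Simp m q →
  GenP m q y → ∀ s t, s ≤ m → t ≤ m →
  N m q (q s) y + Lv m q s y = N m q (q t) y + Lv m q t y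

/-- SG2 -/
def Stmt_SG2 : Prop := ∀ (m : ℕ) (q : ℕ → E3) (y z : E3), 2 ≤ m → Gen m q →
  GenP m q y → GenP m q z → (∀ i, i ≤ m → det3 (q i) y z ≠ 0) → ∀ s, s ≤ m →
  N m q y z = N m q (q s) y + Lv m q s y + (N m q (q s) z + Lv m q s z)

/-- SHB: second neighbours -/
def Stmt_SHB : Prop := ∀ (m : ℕ) (q : ℕ → E3), 3 ≤ m → Gen m q → Simp m q → ∀ j, j ≤ m →
  N m q (q (nx m (nx m j))) (q j) + Lv m q (nx m (nx m j)) (q j) +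
    Lv m q j (q (nx m (nx m j))) = 0

/-- SHS: step -/
def Stmt_SHS : Prop := ∀ (m : ℕ) (q : ℕ → E3), 3 ≤ m → Gen m q → Simp m q →
  ∀ s j, s ≤ m → j ≤ m → Nad m s j → Nad m (nx m s) j →
  N m q (q s) (q j) + Lv m q s (q j) + Lv m q j (q s) =
    N m q (q (nx m s)) (q j) + Lv m q (nx m s) (q j) + Lv m q j (q (nx m s))

/-- SH: parity of a diagonal -/
def Stmt_SH : Prop := ∀ (m : ℕ) (q : ℕ → E3), 3 ≤ m → Gen m q → Simp m q →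
  ∀ i j, i ≤ m → j ≤ m → Nad m i j →
  N m q (q i) (q j) + Lv m q i (q j) + Lv m q j (q i) = 0

/-! ## visibility -/

/-- MEI: an arc which crosses `v z` has an end point above `z` -/
def Stmt_MEI : Prop := ∀ a v b z x y : E3, Tri a v b z → Cr x y v z → ¬ Cr x y v a →
  ¬ Cr x y v b → Ndg a v b x → Ndg a v b y → Up a v b z x ∨ Up a v b z y

/-- VIS: the uppermost vertex of a triangle is visible -/
def Stmt_VIS : Prop := ∀ (m : ℕ) (p : ℕ → E3), Gen m p → ∀ s i1 i2, s ≤ m → i1 ≤ m → i2 ≤ m →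
  s ≠ i1 → s ≠ i2 → i1 ≠ i2 → (∃ l, l ≤ m ∧ Tri (p i1) (p s) (p i2) (p l)) →
  ∃ l, l ≤ m ∧ l ≠ s ∧ l ≠ i1 ∧ l ≠ i2 ∧ Tri (p i1) (p s) (p i2) (p l) ∧
    ∀ c d, c ≤ m → d ≤ m → c ≠ d → ¬ Cr (p c) (p d) (p s) (p i1) →
      ¬ Cr (p c) (p d) (p s) (p i2) → ¬ Cr (p c) (p d) (p s) (p l)

/-- REM: the chord of an ear crosses nothing -/
def Stmt_REM : Prop := ∀ (m : ℕ) (p : ℕ → E3), 3 ≤ m → Gen m p → Simp m p →
  ∀ k, k ≤ m → Ear m p k → NC m p (pv m k) (nx m k)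

/-! ## left diagonals -/

/-- SUBG: the part of a polygon cut off by a diagonal -/
def Stmt_SUBG : Prop := ∀ (m : ℕ) (p : ℕ → E3) (i j : ℕ), Gen m p → Simp m p →
  i + 2 ≤ j → j ≤ m → ((i = 0 ∧ j = m) ∨ NC m p i j) →
  Gen (j - i) (sub i p) ∧ Simp (j - i) (sub i p)

/-- OUT: the other vertices lie on the right side of the part -/
def Stmt_OUT : Prop := ∀ (m : ℕ) (p : ℕ → E3) (i j : ℕ), Gen m p → Simp m p →
  i + 2 ≤ j → j ≤ m → ¬ (i = 0 ∧ j = m) → LD m p i j →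
  ∀ l, l ≤ m → (l < i ∨ j < l) → ∀ s, s ≤ j - i →
  N (j - i) (sub i p) (p (i + s)) (p l) + Lv (j - i) (sub i p) s (p l) = 0

/-- EMA: an empty left triangle at the start -/
def Stmt_EMA : Prop := ∀ (m : ℕ) (p : ℕ → E3) (i j : ℕ), Gen m p → Simp m p →
  i + 3 ≤ j → j ≤ m → LD m p i j → 0 < det3 (p j) (p i) (p (i + 1)) →
  (∀ l, l ≤ m → ¬ Tri (p j) (p i) (p (i + 1)) (p l)) → LD m p (i + 1) j

/-- EMB: an empty left triangle at the end -/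
def Stmt_EMB : Prop := ∀ (m : ℕ) (p : ℕ → E3) (i j : ℕ), Gen m p → Simp m p →
  i + 3 ≤ j → j ≤ m → LD m p i j → 0 < det3 (p (j - 1)) (p j) (p i) →
  (∀ l, l ≤ m → ¬ Tri (p (j - 1)) (p j) (p i) (p l)) → LD m p i (j - 1)

/-- NZA: a visible vertex inside a left triangle of the part -/
def Stmt_NZA : Prop := ∀ (m : ℕ) (p : ℕ → E3) (i j : ℕ), Gen m p → Simp m p →
  i + 2 ≤ j → j ≤ m → LD m p i j → ∀ s, i ≤ s → s ≤ j →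
  0 < Turn (j - i) (sub i p) (s - i) →
  (∃ l, l ≤ m ∧ TriAt (j - i) (sub i p) (s - i) (p l)) →
  ∃ l, i ≤ l ∧ l ≤ j ∧ (s + 2 ≤ l ∨ l + 2 ≤ s) ∧ ¬ (s = i ∧ l = j) ∧ ¬ (s = j ∧ l = i) ∧
    TriAt (j - i) (sub i p) (s - i) (p l) ∧ NC m p s l

/-- NZB: such a vertex gives a left diagonal -/
def Stmt_NZB : Prop := ∀ (m : ℕ) (p : ℕ → E3) (i j : ℕ), 3 ≤ m → Gen m p → Simp m p →
  i + 2 ≤ j → j ≤ m → LD m p i j → ∀ s l, i ≤ s → s ≤ j → i ≤ l → l ≤ j →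
  (s + 2 ≤ l ∨ l + 2 ≤ s) → ¬ (s = i ∧ l = j) → ¬ (s = j ∧ l = i) →
  0 < Turn (j - i) (sub i p) (s - i) → TriAt (j - i) (sub i p) (s - i) (p l) → NC m p s l →
  LfAt m p s (p l) ∧ LfAt m p l (p s)

/-! ## convex polygons -/

/-- INS: a point on the right side of a convex clockwise polygon -/
def Stmt_INS : Prop := ∀ (m : ℕ) (q : ℕ → E3) (y : E3), 2 ≤ m → Gen m q → Conv m q →
  GenP m q y → N m q (q 0) y + Lv m q 0 y = 0 → det3 (q 0) (q 1) y < 0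

/-- ROT: rotation of the numbering -/
def Stmt_ROT : Prop := ∀ (m k : ℕ) (q : ℕ → E3),
  (Gen m q → Gen m (rot m k q)) ∧ (Simp m q → Simp m (rot m k q)) ∧
  (RT m q → RT m (rot m k q)) ∧ (Bal m q → Bal m (rot m k q)) ∧
  (Conv m (rot m k q) → Conv m q) ∧
  (∀ t, t ≤ m → Turn m (rot m k q) t = Turn m q ((t + k) % (m + 1))) ∧
  (∀ t, t ≤ m → (Ear m (rot m k q) t ↔ Ear m q ((t + k) % (m + 1))))

/-- CTA: cut off an ear -/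
def Stmt_CTA : Prop := ∀ (m : ℕ) (q : ℕ → E3), 3 ≤ m → Gen m q → Simp m q → RT m q →
  Ear m q 1 → Gen (m - 1) (sk 2 q) ∧ Simp (m - 1) (sk 2 q) ∧ RT (m - 1) (sk 2 q)

/-- CTB: cut along a diagonal at a vertex which is no ear -/
def Stmt_CTB : Prop := ∀ (m : ℕ) (q : ℕ → E3), 3 ≤ m → Gen m q → Simp m q → RT m q →
  ¬ Ear m q 0 → ∃ l, 2 ≤ l ∧ l + 1 ≤ m ∧ Gen l q ∧ Simp l q ∧ RT l q ∧
    Gen (m - l + 1) (sk l q) ∧ Simp (m - l + 1) (sk l q) ∧ RT (m - l + 1) (sk l q)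

/-- UN: union of two convex polygons -/
def Stmt_UN : Prop := ∀ (m l : ℕ) (q : ℕ → E3), 2 ≤ l → l + 1 ≤ m → Conv l q →
  Conv (m - l + 1) (sk l q) → Turn m q 0 < 0 → Turn m q l < 0 → Conv m q

/-- CV: a simple polygon with right turns only is convex -/
def Stmt_CV : Prop := ∀ (m : ℕ) (q : ℕ → E3), 2 ≤ m → Gen m q → Simp m q → RT m q → Conv m q

/-- CA4: a part with right turns only contradicts balancedness -/
def Stmt_CA4 : Prop := ∀ (m : ℕ) (p : ℕ → E3) (i j : ℕ), Gen m p → Simp m p → Bal m p →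
  i + 2 ≤ j → j ≤ m → LD m p i j → RT (j - i) (sub i p) → False

/-! ## ears -/

/-- CLM: a left ear strictly between the ends of a left diagonal -/
def Stmt_CLM : Prop := ∀ (m : ℕ) (p : ℕ → E3), 3 ≤ m → Gen m p → Simp m p → Bal m p →
  ∀ i j, i + 2 ≤ j → j ≤ m → LD m p i j → ∃ k, i < k ∧ k < j ∧ 0 < Turn m p k ∧ Ear m p k

/-- LEF: a left ear different from two neighbours -/
def Stmt_LEF : Prop := ∀ (m : ℕ) (p : ℕ → E3), 3 ≤ m → Gen m p → Simp m p → Bal m p →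
  ∀ a, a ≤ m → ∃ k, k ≤ m ∧ k ≠ a ∧ k ≠ nx m a ∧ 0 < Turn m p k ∧ Ear m p k

/-- FOUR: four ears -/
def Stmt_FOUR : Prop := ∀ (m : ℕ) (p : ℕ → E3), 3 ≤ m → Gen m p → Simp m p → Bal m p →
  ∃ k1 k2 k3 k4 : ℕ, k1 ≤ m ∧ k2 ≤ m ∧ k3 ≤ m ∧ k4 ≤ m ∧ k1 ≠ k2 ∧ k1 ≠ k3 ∧ k1 ≠ k4 ∧
    k2 ≠ k3 ∧ k2 ≠ k4 ∧ k3 ≠ k4 ∧ Ear m p k1 ∧ Ear m p k2 ∧ Ear m p k3 ∧ Ear m p k4

/-! ## essential vertices -/

/-- CRB: four of the vertices are already balanced -/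
def Stmt_CRB : Prop := ∀ (m : ℕ) (p : ℕ → E3), Gen m p → 2 ≤ m → Bal m p →
  ∃ (i j k l : ℕ) (a b c d : ℝ), i ≤ m ∧ j ≤ m ∧ k ≤ m ∧ l ≤ m ∧ i ≠ j ∧ i ≠ k ∧ i ≠ l ∧
    j ≠ k ∧ j ≠ l ∧ k ≠ l ∧ 0 < a ∧ 0 < b ∧ 0 < c ∧ 0 < d ∧
    a • p i + b • p j + c • p k + d • p l = 0

/-- CRA: at most three vertices are essential -/
def Stmt_CRA : Prop := ∀ (m : ℕ) (p : ℕ → E3), 4 ≤ m → Gen m p → Bal m p →
  ∃ i j k : ℕ, ∀ l, l ≤ m → l ≠ i → l ≠ j → l ≠ k →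
    ∀ ν : E3, ν ≠ 0 → ∃ t, t ≤ m ∧ t ≠ l ∧ 0 < (inner ℝ ν (p t) : ℝ)

/-! ## translation -/

/-- ENU: cyclic enumeration -/
def Stmt_ENU : Prop := ∀ (V : Type) [DecidableEq V] (L : Pg V), L.Ok →
  ∃ (m : ℕ) (f : ℕ → V), Enu L m f

/-- TOX: polygons of closed type in index form -/
def Stmt_TOX : Prop := ∀ (V : Type) [DecidableEq V] (L : Pg V) (m : ℕ) (f : ℕ → V), L.Ok →
  L.X = none → Enu L m f →
  Gen m (fun t => L.p (f t)) ∧ Simp m (fun t => L.p (f t)) ∧ Bal m (fun t => L.p (f t))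

/-- FAC: intersection of two faces -/
def Stmt_FAC : Prop :=
  (∀ (a b c d : E3) (α β γ δ : ℝ), det3 a b c ≠ 0 → det3 a b d ≠ 0 → det3 c d a ≠ 0 →
    det3 c d b ≠ 0 → ¬ Cr a b c d → 0 ≤ α → 0 ≤ β → 0 ≤ γ → 0 ≤ δ →
    α • a + β • b = γ • c + δ • d → α • a + β • b = 0) ∧
  (∀ (a b d : E3) (α β γ δ : ℝ), det3 a b d ≠ 0 → α • a + β • b = γ • b + δ • d →
    α • a + β • b = β • b ∧ γ • b + δ • d = γ • b)

/-- ERC: the cyclic structure after cutting off a vertex -/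
def Stmt_ERC : Prop := ∀ (V : Type) [DecidableEq V] (L : Pg V) (κ : V), L.Ok →
  5 ≤ L.S.card → κ ∈ L.S →
  (∀ i ∈ (L.erase κ).S, (L.erase κ).s i ∈ (L.erase κ).S) ∧
  (∀ i ∈ (L.erase κ).S, ∀ j ∈ (L.erase κ).S, (L.erase κ).s i = (L.erase κ).s j → i = j) ∧
  (∀ i ∈ (L.erase κ).S, ∀ j ∈ (L.erase κ).S, ∃ m : ℕ, (L.erase κ).s^[m] i = j) ∧
  4 ≤ (L.erase κ).S.card

/-- BAK: cutting off an ear, closed type -/
def Stmt_BAK : Prop := ∀ (V : Type) [DecidableEq V] (L : Pg V) (u : V), L.Ok → L.X = none →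
  5 ≤ L.S.card → u ∈ L.S →
  (∀ j ∈ L.S, ¬ Cr (L.p u) (L.p (L.s (L.s u))) (L.p j) (L.p (L.s j))) →
  (∀ ν : E3, ν ≠ 0 → ∃ i ∈ L.S, i ≠ L.s u ∧ 0 < (inner ℝ ν (L.p i) : ℝ)) →
  (L.erase (L.s u)).Ok

/-- PTG: generic for small perturbations -/
def Stmt_PTG : Prop := ∀ (V : Type) [DecidableEq V] (L : Pg V) (m0 q0 : V) (a b σ : ℝ), L.Ok →
  L.X = some m0 → Cor L m0 q0 a b σ → ∃ ε0 : ℝ, 0 < ε0 ∧ ∀ ε : ℝ, 0 < ε → ε < ε0 →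
  ∀ i ∈ L.S, ∀ j ∈ L.S, ∀ k ∈ L.S, i ≠ j → i ≠ k → j ≠ k →
    det3 ((pert L m0 (ε * σ)).p i) ((pert L m0 (ε * σ)).p j) ((pert L m0 (ε * σ)).p k) ≠ 0

/-- PTB: balanced for small perturbations -/
def Stmt_PTB : Prop := ∀ (V : Type) [DecidableEq V] (L : Pg V) (m0 q0 : V) (a b σ : ℝ), L.Ok →
  L.X = some m0 → Cor L m0 q0 a b σ → ∃ ε0 : ℝ, 0 < ε0 ∧ ∀ ε : ℝ, 0 < ε → ε < ε0 →
  ∀ ν : E3, ν ≠ 0 → ∃ i ∈ L.S, 0 < (inner ℝ ν ((pert L m0 (ε * σ)).p i) : ℝ)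

/-- PTS: simple for all perturbations -/
def Stmt_PTS : Prop := ∀ (V : Type) [DecidableEq V] (L : Pg V) (m0 q0 : V) (a b σ ε : ℝ), L.Ok →
  L.X = some m0 → Cor L m0 q0 a b σ → 0 < ε →
  ∀ i ∈ L.S, ∀ j ∈ L.S, i ≠ j → ∀ x, x ∈ (pert L m0 (ε * σ)).face i →
    x ∈ (pert L m0 (ε * σ)).face j →
    (j = L.s i ∧ ∃ a : ℝ, 0 ≤ a ∧ x = a • (pert L m0 (ε * σ)).p j) ∨
    (i = L.s j ∧ ∃ a : ℝ, 0 ≤ a ∧ x = a • (pert L m0 (ε * σ)).p i) ∨ x = 0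

/-- BXS: simplicity after cutting off an ear, corner type -/
def Stmt_BXS : Prop := ∀ (V : Type) [DecidableEq V] (L : Pg V) (m0 q0 u : V) (a b σ : ℝ), L.Ok →
  L.X = some m0 → Cor L m0 q0 a b σ → 5 ≤ L.S.card → u ∈ L.S → L.s u ≠ q0 → L.s u ≠ m0 →
  L.s u ≠ L.s m0 →
  (∀ j ∈ L.S, j ≠ q0 → j ≠ m0 → ¬ Cr (L.p u) (L.p (L.s (L.s u))) (L.p j) (L.p (L.s j))) →
  ∀ i ∈ (L.erase (L.s u)).S, ∀ j ∈ (L.erase (L.s u)).S, i ≠ j → ∀ x,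
    x ∈ (L.erase (L.s u)).face i → x ∈ (L.erase (L.s u)).face j →
    (j = (L.erase (L.s u)).s i ∧ ∃ a : ℝ, 0 ≤ a ∧ x = a • L.p j) ∨
    (i = (L.erase (L.s u)).s j ∧ ∃ a : ℝ, 0 ≤ a ∧ x = a • L.p i) ∨ x = 0

/-- BXK: genericity and corner after cutting off an ear, corner type -/
def Stmt_BXK : Prop := ∀ (V : Type) [DecidableEq V] (L : Pg V) (m0 q0 κ : V) (a b σ : ℝ), L.Ok →
  L.X = some m0 → Cor L m0 q0 a b σ → κ ∈ L.S → κ ≠ q0 → κ ≠ m0 → κ ≠ L.s m0 →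
  (∀ i ∈ (L.erase κ).S, ∀ j ∈ (L.erase κ).S, ∀ k ∈ (L.erase κ).S, i ≠ j → i ≠ k → j ≠ k →
    ¬ (L.erase κ).Flat i j k → det3 (L.p i) (L.p j) (L.p k) ≠ 0) ∧
  (L.erase κ).CornerAt m0

end Pool.Agent.TSE
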